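import Mathlib

set_option autoImplicit false

namespace Pool.Agent.H503Z.Erg

open Finset

/-- index sets whose members are at least `W` apart -/
def Sep (W : ℕ) (S : Finset ℕ) : Prop := ∀ n' ∈ S, ∀ n ∈ S, n' < n → n' + W ≤ n

instance (W : ℕ) : DecidablePred (Sep W) := fun S => by unfold Sep; infer_instance

lemma Sep.subset {W : ℕ} {S T : Finset ℕ} (h : Sep W T) (hST : S ⊆ T) : Sep W S :=
  fun n' hn' n hn hlt => h n' (hST hn') n (hST hn) hlt

/-- separated `r`-subsets of the block `[2 lo, 4 lo)` -/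
def Cf (lo W r : ℕ) : Finset (Finset ℕ) :=
  ((Ico (2 * lo) (4 * lo)).powersetCard r).filter (Sep W)

lemma mem_Cf {lo W r : ℕ} {S : Finset ℕ} :
    S ∈ Cf lo W r ↔ S ⊆ Ico (2 * lo) (4 * lo) ∧ S.card = r ∧ Sep W S := by
  simp [Cf, mem_powersetCard, and_assoc]

section block

variable {a : ℕ → ℕ} {lo W : ℕ}

lemma val_lt (hW : W ≤ lo)
    (hmono : ∀ m n, lo ≤ m → m ≤ n → a m ≤ a n)
    (hH : ∀ n, 2 * lo ≤ n → n < 4 * lo → a (n + 1 - W) + a n ≤ a (n + 1))
    {x : ℕ} (hx : x < a lo) (S : Finset ℕ) :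
    S ⊆ Ico (2 * lo) (4 * lo) → Sep W S → ∀ m, lo ≤ m → (∀ n ∈ S, n < m) →
      x + ∑ n ∈ S, a n < a m := by
  induction S using Finset.induction_on_max with
  | empty =>
    intro _ _ m hm _
    simpa using hx.trans_le (hmono lo m le_rfl hm)
  | insert n S hn ih =>
    intro hsub hsep m hm hlt
    have hnS : n ∉ S := fun h => lt_irrefl _ (hn n h)
    have hnI : n ∈ Ico (2 * lo) (4 * lo) := hsub (mem_insert_self _ _)
    rw [mem_Ico] at hnI
    have h1 := ih ((subset_insert _ _).trans hsub) (hsep.subset (subset_insert _ _))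
      (n + 1 - W) (by omega) (by
        intro k hk
        have := hsep k (mem_insert_of_mem hk) n (mem_insert_self _ _) (hn k hk)
        omega)
    have h2 := hH n hnI.1 hnI.2
    have h3 : a (n + 1) ≤ a m := hmono _ _ (by omega) (hlt n (mem_insert_self _ _))
    rw [sum_insert hnS]
    omega

lemma val_inj_aux (hW : W ≤ lo)
    (hmono : ∀ m n, lo ≤ m → m ≤ n → a m ≤ a n)
    (hH : ∀ n, 2 * lo ≤ n → n < 4 * lo → a (n + 1 - W) + a n ≤ a (n + 1))
    {x x' : ℕ} (hx' : x' < a lo) {S S' : Finset ℕ}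
    (hS : S ⊆ Ico (2 * lo) (4 * lo)) (hS' : S' ⊆ Ico (2 * lo) (4 * lo)) (hsep' : Sep W S')
    (h : x + ∑ n ∈ S, a n = x' + ∑ n ∈ S', a n) {n : ℕ} (hn : n ∈ S \ S')
    (hmax : ∀ k ∈ S' \ S, k < n) : False := by
  have hnI : n ∈ Ico (2 * lo) (4 * lo) := hS (mem_sdiff.1 hn).1
  rw [mem_Ico] at hnI
  have h1 := val_lt hW hmono hH hx' (S' \ S) (sdiff_subset.trans hS') (hsep'.subset sdiff_subset)
    n (by omega) hmax
  have h2 : a n ≤ ∑ k ∈ S \ S', a k := single_le_sum (f := a) (fun _ _ => Nat.zero_le _) hn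
  have h3 := sum_inter_add_sum_sdiff S S' a
  have h4 := sum_inter_add_sum_sdiff S' S a
  rw [inter_comm] at h4
  omega

lemma val_inj (hW : W ≤ lo)
    (hmono : ∀ m n, lo ≤ m → m ≤ n → a m ≤ a n)
    (hH : ∀ n, 2 * lo ≤ n → n < 4 * lo → a (n + 1 - W) + a n ≤ a (n + 1))
    {x x' : ℕ} (hx : x < a lo) (hx' : x' < a lo) {S S' : Finset ℕ}
    (hS : S ⊆ Ico (2 * lo) (4 * lo)) (hS' : S' ⊆ Ico (2 * lo) (4 * lo))
    (hsep : Sep W S) (hsep' : Sep W S')
    (h : x + ∑ n ∈ S, a n = x' + ∑ n ∈ S', a n) : x = x' ∧ S = S' := by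
  have hSS : S = S' := by
    by_contra hne
    have hne' : ((S \ S') ∪ (S' \ S)).Nonempty := by
      rw [nonempty_iff_ne_empty]
      intro h0
      rw [union_eq_empty, sdiff_eq_empty_iff_subset, sdiff_eq_empty_iff_subset] at h0
      exact hne (Subset.antisymm h0.1 h0.2)
    obtain ⟨n, hn, hmax⟩ := exists_max_image _ id hne'
    rcases mem_union.1 hn with hn1 | hn1
    · refine val_inj_aux hW hmono hH hx' hS hS' hsep' h hn1 ?_
      intro k hk
      have h1 : k ≤ n := hmax k (mem_union_right _ hk)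
      have h2 : k ≠ n := by
        rintro rfl
        exact (mem_sdiff.1 hk).2 (mem_sdiff.1 hn1).1
      omega
    · refine val_inj_aux hW hmono hH hx hS' hS hsep h.symm hn1 ?_
      intro k hk
      have h1 : k ≤ n := hmax k (mem_union_left _ hk)
      have h2 : k ≠ n := by
        rintro rfl
        exact (mem_sdiff.1 hk).2 (mem_sdiff.1 hn1).1
      omega
  subst hSS
  exact ⟨by omega, rfl⟩

/-- many indices extend a separated set -/
lemma ext_card (hW1 : 1 ≤ W) {r : ℕ} (hr : 2 * W * r ≤ lo) {S : Finset ℕ} (hS : S ∈ Cf lo W r) :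
    lo ≤ ((Ico (2 * lo) (4 * lo)).filter (fun n => insert n S ∈ Cf lo W (r + 1))).card := by
  rw [mem_Cf] at hS
  obtain ⟨hsub, hcard, hsep⟩ := hS
  set bad : Finset ℕ := S.biUnion (fun k => Ico (k - W) (k + W)) with hbad
  have hb : bad.card ≤ lo := by
    calc bad.card ≤ ∑ k ∈ S, (Ico (k - W) (k + W)).card := card_biUnion_le
      _ ≤ ∑ _k ∈ S, 2 * W := by
        apply sum_le_sum
        intro k _
        rw [Nat.card_Ico]; omega
      _ = 2 * W * r := by rw [sum_const, hcard, smul_eq_mul, mul_comm]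
      _ ≤ lo := hr
  have hsub2 : Ico (2 * lo) (4 * lo) \ bad ⊆
      (Ico (2 * lo) (4 * lo)).filter (fun n => insert n S ∈ Cf lo W (r + 1)) := by
    intro n hn
    rw [mem_sdiff] at hn
    obtain ⟨hnI, hnb⟩ := hn
    have hfar : ∀ k ∈ S, n < k - W ∨ k + W ≤ n := by
      intro k hk
      by_contra hc
      apply hnb
      rw [hbad, mem_biUnion]
      exact ⟨k, hk, by rw [mem_Ico]; omega⟩
    have hnS : n ∉ S := by
      intro h
      have := hfar n h
      omega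
    rw [mem_filter, mem_Cf]
    refine ⟨hnI, insert_subset hnI hsub, by rw [card_insert_of_notMem hnS, hcard], ?_⟩
    intro p hp q hq hlt
    rcases mem_insert.1 hp with rfl | hp'
    · rcases mem_insert.1 hq with rfl | hq'
      · omega
      · have := hfar q hq'
        omega
    · rcases mem_insert.1 hq with rfl | hq'
      · have := hfar p hp'
        omega
      · exact hsep p hp' q hq' hlt
  have h1 := card_le_card hsub2
  have h2 := le_card_sdiff bad (Ico (2 * lo) (4 * lo))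
  rw [Nat.card_Ico] at h2
  omega

lemma Cf_nonempty (hW1 : 1 ≤ W) (hlo : 1 ≤ lo) :
    ∀ r, 2 * W * r ≤ lo → (Cf lo W r).Nonempty := by
  intro r
  induction r with
  | zero => intro _; exact ⟨∅, by simp [mem_Cf, Sep]⟩
  | succ r ih =>
    intro hr
    have hr' : 2 * W * r ≤ lo := le_trans (Nat.mul_le_mul_left _ (Nat.le_succ r)) hr
    obtain ⟨S, hS⟩ := ih hr'
    have := ext_card hW1 hr' hS
    obtain ⟨n, hn⟩ := card_pos.1 (lt_of_lt_of_le hlo this)
    exact ⟨_, (mem_filter.1 hn).2⟩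

lemma Cf_double (r : ℕ) :
    (Cf lo W (r + 1)).card * (r + 1) ≤ (Cf lo W r).card * (2 * lo) := by
  have h1 : ((Cf lo W (r + 1)).sigma (fun S => S)).card = (Cf lo W (r + 1)).card * (r + 1) := by
    rw [card_sigma, ← smul_eq_mul, ← sum_const]
    apply sum_congr rfl
    intro S hS
    exact (mem_Cf.1 hS).2.1
  have h2 : ((Cf lo W r) ×ˢ (Ico (2 * lo) (4 * lo))).card = (Cf lo W r).card * (2 * lo) := by
    rw [card_product, Nat.card_Ico]; congr 1; omega
  rw [← h1, ← h2]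
  refine card_le_card_of_injOn (fun p => (p.1.erase p.2, p.2)) ?_ ?_
  · rintro ⟨S, n⟩ hp
    simp only [coe_sigma, Set.mem_sigma_iff, mem_coe] at hp
    obtain ⟨hS, hn⟩ := hp
    rw [mem_Cf] at hS
    simp only [coe_product, Set.mem_prod, mem_coe]
    refine ⟨mem_Cf.2 ⟨(erase_subset _ _).trans hS.1, ?_, hS.2.2.subset (erase_subset _ _)⟩,
      hS.1 hn⟩
    rw [card_erase_of_mem hn, hS.2.1]; rfl
  · rintro ⟨S, n⟩ hp ⟨S', n'⟩ hp' h
    simp only [coe_sigma, Set.mem_sigma_iff, mem_coe] at hp hp'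
    simp only [Prod.mk.injEq] at h
    obtain ⟨h1, h2⟩ := h
    subst h2
    have : S = S' := by rw [← insert_erase hp.2, h1, insert_erase hp'.2]
    subst this
    rfl

end block

/-- the invariant carried through the blocks -/
def Inv (a : ℕ → ℕ) (M lo : ℕ) (c : ℝ) : Prop :=
  ∃ E F : Finset ℕ, E.Nonempty ∧ (∀ x ∈ E, x < a lo) ∧ (∀ x ∈ F, x < a lo) ∧
    c * E.card ≤ F.card ∧
    ∀ x ∈ F, ∃ N, M ≤ N ∧ N ≤ 4 * ((range N).filter (fun n => x + a n ∈ E)).card

lemma step {a : ℕ → ℕ} {M lo W : ℕ} {c : ℝ} (hW1 : 1 ≤ W) (hW : 2 * W ≤ lo) (hM : M ≤ 4 * lo)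
    (hmono : ∀ m n, lo ≤ m → m ≤ n → a m ≤ a n)
    (hH : ∀ n, 2 * lo ≤ n → n < 4 * lo → a (n + 1 - W) + a n ≤ a (n + 1))
    (h : Inv a M lo c) : Inv a M (4 * lo) (c + 1 / (8 * W)) := by
  classical
  obtain ⟨E, F, hE, hEb, hFb, hc, hF⟩ := h
  obtain ⟨r, hr⟩ : ∃ r, lo / (2 * W) = r + 1 := by
    have : 0 < lo / (2 * W) := Nat.div_pos hW (by omega)
    exact ⟨lo / (2 * W) - 1, by omega⟩
  have hr1 : 2 * W * (r + 1) ≤ lo := by rw [← hr]; exact Nat.mul_div_le _ _
  have hr2 : lo < 2 * W * (r + 2) := by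
    have := Nat.lt_mul_div_succ lo (show 0 < 2 * W by omega)
    rw [hr] at this
    exact this
  have hr0 : 2 * W * r ≤ lo := le_trans (Nat.mul_le_mul_left _ (Nat.le_succ r)) hr1
  have hWlo : W ≤ lo := by omega
  set val : ℕ × Finset ℕ → ℕ := fun p => p.1 + ∑ n ∈ p.2, a n with hval
  have hinj : ∀ (X : Finset (ℕ × Finset ℕ)),
      (∀ p ∈ X, p.1 < a lo ∧ p.2 ⊆ Ico (2 * lo) (4 * lo) ∧ Sep W p.2) → Set.InjOn val X := by
    intro X hX p hp q hq hpq
    obtain ⟨h1, h2, h3⟩ := hX p hp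
    obtain ⟨h4, h5, h6⟩ := hX q hq
    have := val_inj hWlo hmono hH h1 h4 h2 h5 h3 h6 hpq
    exact Prod.ext this.1 this.2
  have hlt : ∀ p : ℕ × Finset ℕ, p.1 < a lo → p.2 ⊆ Ico (2 * lo) (4 * lo) → Sep W p.2 →
      val p < a (4 * lo) := by
    intro p h1 h2 h3
    exact val_lt hWlo hmono hH h1 p.2 h2 h3 (4 * lo) (by omega)
      (fun n hn => (mem_Ico.1 (h2 hn)).2)
  set XE := E ×ˢ Cf lo W (r + 1) with hXE
  set XF := (F ×ˢ Cf lo W (r + 1)) ∪ (E ×ˢ Cf lo W r) with hXF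
  have hXEp : ∀ p ∈ XE, p.1 < a lo ∧ p.2 ⊆ Ico (2 * lo) (4 * lo) ∧ Sep W p.2 := by
    intro p hp
    rw [hXE, mem_product, mem_Cf] at hp
    exact ⟨hEb _ hp.1, hp.2.1, hp.2.2.2⟩
  have hXFp : ∀ p ∈ XF, p.1 < a lo ∧ p.2 ⊆ Ico (2 * lo) (4 * lo) ∧ Sep W p.2 := by
    intro p hp
    rw [hXF, mem_union, mem_product, mem_product, mem_Cf, mem_Cf] at hp
    rcases hp with hp | hp
    · exact ⟨hFb _ hp.1, hp.2.1, hp.2.2.2⟩
    · exact ⟨hEb _ hp.1, hp.2.1, hp.2.2.2⟩
  refine ⟨XE.image val, XF.image val, ?_, ?_, ?_, ?_, ?_⟩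
  · exact (hE.product (Cf_nonempty hW1 (by omega) _ hr1)).image _
  · intro x hx
    obtain ⟨p, hp, rfl⟩ := mem_image.1 hx
    obtain ⟨h1, h2, h3⟩ := hXEp p hp
    exact hlt p h1 h2 h3
  · intro x hx
    obtain ⟨p, hp, rfl⟩ := mem_image.1 hx
    obtain ⟨h1, h2, h3⟩ := hXFp p hp
    exact hlt p h1 h2 h3
  · rw [card_image_of_injOn (hinj _ hXEp), card_image_of_injOn (hinj _ hXFp)]
    have hdisj : Disjoint (F ×ˢ Cf lo W (r + 1)) (E ×ˢ Cf lo W r) := by
      rw [disjoint_left]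
      intro p hp hq
      rw [mem_product, mem_Cf] at hp hq
      have := hp.2.2.1
      have := hq.2.2.1
      omega
    rw [hXF, card_union_of_disjoint hdisj, hXE, card_product, card_product, card_product]
    have hd := Cf_double (lo := lo) (W := W) r
    have hB : (Cf lo W (r + 1)).card ≤ (Cf lo W r).card * (8 * W) := by
      have h1 : 2 * lo ≤ 8 * W * (r + 1) := by nlinarith
      have h2 : (Cf lo W (r + 1)).card * (r + 1) ≤ (Cf lo W r).card * (8 * W) * (r + 1) := by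
        calc _ ≤ (Cf lo W r).card * (2 * lo) := hd
          _ ≤ (Cf lo W r).card * (8 * W * (r + 1)) := Nat.mul_le_mul_left _ h1
          _ = _ := by ring
      exact Nat.le_of_mul_le_mul_right h2 (Nat.succ_pos r)
    have hB' : ((Cf lo W (r + 1)).card : ℝ) ≤ (Cf lo W r).card * (8 * W) := by exact_mod_cast hB
    have hWpos : (0 : ℝ) < 8 * W := by positivity
    have hB'' : 1 / (8 * W : ℝ) * (Cf lo W (r + 1)).card ≤ (Cf lo W r).card := by
      rw [one_div, inv_mul_le_iff₀ hWpos]; linarith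
    push_cast
    have e1 : (0 : ℝ) ≤ (Cf lo W (r + 1)).card := by positivity
    have e2 : (0 : ℝ) ≤ E.card := by positivity
    have e3 := mul_le_mul_of_nonneg_right hc e1
    have e4 := mul_le_mul_of_nonneg_left hB'' e2
    nlinarith
  · intro x hx
    obtain ⟨p, hp, rfl⟩ := mem_image.1 hx
    rw [hXF, mem_union, mem_product, mem_product] at hp
    rcases hp with hp | hp
    · obtain ⟨N, hN1, hN2⟩ := hF _ hp.1
      refine ⟨N, hN1, hN2.trans (Nat.mul_le_mul_left _ (card_le_card ?_))⟩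
      intro n hn
      rw [mem_filter] at hn ⊢
      refine ⟨hn.1, mem_image.2 ⟨(p.1 + a n, p.2), mem_product.2 ⟨hn.2, hp.2⟩, ?_⟩⟩
      simp only [hval]; ring
    · refine ⟨4 * lo, hM, Nat.mul_le_mul_left _ ((ext_card hW1 hr0 hp.2).trans (card_le_card ?_))⟩
      intro n hn
      rw [mem_filter] at hn ⊢
      refine ⟨mem_range.2 (mem_Ico.1 hn.1).2,
        mem_image.2 ⟨(p.1, insert n p.2), mem_product.2 ⟨hp.1, hn.2⟩, ?_⟩⟩
      have hnS : n ∉ p.2 := by
        intro hmem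
        have h1 := (mem_Cf.1 hn.2).2.1
        have h2 := (mem_Cf.1 hp.2).2.1
        rw [insert_eq_of_mem hmem] at h1
        omega
      simp only [hval]
      rw [sum_insert hnS]; ring

end Pool.Agent.H503Z.Erg
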