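import Mathlib
import Pool.Agent.H503Z.ErgComb

set_option autoImplicit false

namespace Pool.Agent.H503Z.Erg

open Finset

section growth

variable {a : ℕ → ℕ} {N0 : ℕ}

lemma ratio_nat (hpos : ∀ n, 0 < a n) (hN0 : 2 ≤ N0)
    (h : ∀ n ≥ N0, ((a (n + 1) : ℝ) / (a n : ℝ)) ≥ 1 + 1 / Real.log (n : ℝ))
    {n K : ℕ} (hn : N0 ≤ n) (hK : Real.log n ≤ K) : (K + 1) * a n ≤ K * a (n + 1) := by
  have h1 := h n hn
  have hn2 : (2 : ℝ) ≤ n := by exact_mod_cast hN0.trans hn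
  have hlog : 0 < Real.log (n : ℝ) := Real.log_pos (by linarith)
  have hKpos : (0 : ℝ) < K := hlog.trans_le hK
  have ha : (0 : ℝ) < a n := by exact_mod_cast hpos n
  have h2 : 1 / (K : ℝ) ≤ 1 / Real.log n := one_div_le_one_div_of_le hlog hK
  have h3 : 1 + 1 / (K : ℝ) ≤ (a (n + 1) : ℝ) / a n := by linarith
  rw [le_div_iff₀ ha] at h3
  have h4 : ((K : ℝ) + 1) * a n ≤ K * a (n + 1) := by
    have := mul_le_mul_of_nonneg_left h3 hKpos.le
    have e : (K : ℝ) * ((1 + 1 / K) * a n) = (K + 1) * a n := by field_simp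
    linarith
  exact_mod_cast h4

lemma mono_of_ratio (hpos : ∀ n, 0 < a n) (hN0 : 2 ≤ N0)
    (h : ∀ n ≥ N0, ((a (n + 1) : ℝ) / (a n : ℝ)) ≥ 1 + 1 / Real.log (n : ℝ)) :
    ∀ m n, N0 ≤ m → m ≤ n → a m ≤ a n := by
  intro m n hm hmn
  induction n, hmn using Nat.le_induction with
  | base => exact le_rfl
  | succ n hmn ih =>
    have hn : N0 ≤ n := hm.trans hmn
    have hlog : Real.log n ≤ (n : ℕ) := by
      have : (0 : ℝ) < n := by exact_mod_cast (by omega : 0 < n)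
      linarith [Real.log_le_sub_one_of_pos this]
    have h1 := ratio_nat hpos hN0 h hn hlog
    have hn0 : 0 < n := by omega
    have : a n ≤ a (n + 1) := by nlinarith
    exact ih.trans this

lemma double_of_ratio {K hi : ℕ} (hK : 0 < K)
    (hmono : ∀ m n, N0 ≤ m → m ≤ n → a m ≤ a n)
    (hr : ∀ n, N0 ≤ n → n < hi → (K + 1) * a n ≤ K * a (n + 1))
    {m : ℕ} (hm : N0 ≤ m) (hhi : m + K ≤ hi) : 2 * a m ≤ a (m + K) := by
  have key : ∀ i, i ≤ K → (K + i) * a m ≤ K * a (m + i) := by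
    intro i
    induction i with
    | zero => intro _; simp
    | succ i ih =>
      intro hi'
      have h1 := ih (by omega)
      have h2 := hr (m + i) (by omega) (by omega)
      have h3 := hmono m (m + i) hm (by omega)
      have e : m + (i + 1) = m + i + 1 := by ring
      rw [e]
      nlinarith
  have := key K le_rfl
  have e : (K + K) * a m = K * (2 * a m) := by ring
  rw [e] at this
  exact Nat.le_of_mul_le_mul_left this hK

lemma pow_of_ratio {K hi : ℕ} (hK : 0 < K)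
    (hmono : ∀ m n, N0 ≤ m → m ≤ n → a m ≤ a n)
    (hr : ∀ n, N0 ≤ n → n < hi → (K + 1) * a n ≤ K * a (n + 1))
    {m : ℕ} (hm : N0 ≤ m) : ∀ t, m + t * K ≤ hi → 2 ^ t * a m ≤ a (m + t * K) := by
  intro t
  induction t with
  | zero => intro _; simp
  | succ t ih =>
    intro ht
    have e : m + (t + 1) * K = m + t * K + K := by ring
    rw [e] at ht ⊢
    have h1 := ih (by omega)
    have h2 := double_of_ratio hK hmono hr (m := m + t * K) (by omega) ht
    rw [pow_succ]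
    nlinarith

/-- window length for the blocks with index in `[2^s, 2^(s+1))` -/
def Wd (s : ℕ) : ℕ := (s + 2) * 2 ^ (s + 2) + 1

lemma Wd_small {s j : ℕ} (hs : 2 ≤ s) (hj : 2 ^ s ≤ j) : 2 * Wd s ≤ 4 ^ j := by
  have h1 : s + 2 ≤ 2 ^ s := by
    induction s, hs using Nat.le_induction with
    | base => norm_num
    | succ s hs ih =>
      have := ih (by
        have : 2 ^ s ≤ 2 ^ (s + 1) := Nat.pow_le_pow_right (by norm_num) (by omega)
        omega)
      rw [pow_succ]; omega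
  have h4 : 4 ≤ j := by
    have : 2 ^ 2 ≤ 2 ^ s := Nat.pow_le_pow_right (by norm_num) hs
    omega
  have h2 : ∀ j, 4 ≤ j → 8 * (j * j) + 2 ≤ 4 ^ j := by
    intro j hj
    induction j, hj using Nat.le_induction with
    | base => norm_num
    | succ j hj ih => rw [pow_succ]; nlinarith
  have h3 := h2 j h4
  unfold Wd
  have e : 2 ^ (s + 2) = 4 * 2 ^ s := by ring
  rw [e]
  have h5 : (s + 2) * 2 ^ s ≤ j * j := Nat.mul_le_mul (h1.trans hj) hj
  nlinarith

lemma hH_block (hpos : ∀ n, 0 < a n) (hN0 : 2 ≤ N0)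
    (h : ∀ n ≥ N0, ((a (n + 1) : ℝ) / (a n : ℝ)) ≥ 1 + 1 / Real.log (n : ℝ))
    {s j : ℕ} (hs : 2 ≤ s) (hj : 2 ^ s ≤ j) (hj' : j < 2 ^ (s + 1)) (hlo : N0 ≤ 4 ^ j) :
    ∀ n, 2 * 4 ^ j ≤ n → n < 4 * 4 ^ j → a (n + 1 - Wd s) + a n ≤ a (n + 1) := by
  intro n hn1 hn2
  have hmono := mono_of_ratio hpos hN0 h
  set K := 2 ^ (s + 2) with hK
  have hKpos : 0 < K := by positivity
  have hW := Wd_small hs hj
  have hr : ∀ m, N0 ≤ m → m < 4 * 4 ^ j → (K + 1) * a m ≤ K * a (m + 1) := by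
    intro m hm1 hm2
    apply ratio_nat hpos hN0 h hm1
    have hm0 : (0 : ℝ) < m := by exact_mod_cast (by omega : 0 < m)
    have h1 : (m : ℝ) ≤ 4 ^ (j + 1) := by
      have : m ≤ 4 ^ (j + 1) := by rw [pow_succ]; omega
      exact_mod_cast this
    have h2 : Real.log m ≤ Real.log (4 ^ (j + 1)) := Real.log_le_log hm0 h1
    rw [Real.log_pow] at h2
    have h3 : Real.log 4 ≤ 2 := by
      have e : (4 : ℝ) = 2 ^ 2 := by norm_num
      rw [e, Real.log_pow]
      have := Real.log_le_sub_one_of_pos (show (0 : ℝ) < 2 by norm_num)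
      push_cast; linarith
    have h4 : ((j + 1 : ℕ) : ℝ) * 2 ≤ K := by
      have : (j + 1) * 2 ≤ K := by rw [hK, pow_succ 2 (s + 1)]; omega
      exact_mod_cast this
    have h5 : ((j + 1 : ℕ) : ℝ) * Real.log 4 ≤ ((j + 1 : ℕ) : ℝ) * 2 :=
      mul_le_mul_of_nonneg_left h3 (by positivity)
    linarith
  have hWd : Wd s = (s + 2) * K + 1 := rfl
  have e : n + 1 - Wd s + (s + 2) * K = n := by omega
  have h1 := pow_of_ratio hKpos hmono hr (m := n + 1 - Wd s) (by omega) (s + 2) (by omega)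
  rw [e, ← hK] at h1
  have h2 := hr n (by omega) hn2
  have h3 : K * (a (n + 1 - Wd s) + a n) ≤ K * a (n + 1) := by nlinarith
  exact Nat.le_of_mul_le_mul_left h3 hKpos

lemma Inv.mono_c {M lo : ℕ} {c c' : ℝ} (h : Inv a M lo c) (hc : c' ≤ c) : Inv a M lo c' := by
  obtain ⟨E, F, h1, h2, h3, h4, h5⟩ := h
  exact ⟨E, F, h1, h2, h3, (mul_le_mul_of_nonneg_right hc (by positivity)).trans h4, h5⟩

lemma group_step (hpos : ∀ n, 0 < a n) (hN0 : 2 ≤ N0)
    (h : ∀ n ≥ N0, ((a (n + 1) : ℝ) / (a n : ℝ)) ≥ 1 + 1 / Real.log (n : ℝ))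
    {M s : ℕ} {c : ℝ} (hs : 2 ≤ s) (hN : N0 ≤ s) (hM : M ≤ s)
    (hI : Inv a M (4 ^ 2 ^ s) c) : Inv a M (4 ^ 2 ^ (s + 1)) (c + 1 / (32 * (s + 3))) := by
  have hmono := mono_of_ratio hpos hN0 h
  have hbig : ∀ j, 2 ^ s ≤ j → s ≤ 4 ^ j := by
    intro j hj
    have h1 : s < 2 ^ s := Nat.lt_two_pow_self
    have h2 : j < 4 ^ j := Nat.lt_pow_self (by norm_num)
    omega
  have key : ∀ i : ℕ, i ≤ 2 ^ s → Inv a M (4 ^ (2 ^ s + i)) (c + i * (1 / (8 * (Wd s : ℝ)))) := by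
    intro i
    induction i with
    | zero => intro _; simpa using hI
    | succ i ih =>
      intro hi
      have h1 := ih (by omega)
      have hj : 2 ^ s ≤ 2 ^ s + i := by omega
      have hj' : 2 ^ s + i < 2 ^ (s + 1) := by rw [pow_succ]; omega
      have hb := hbig _ hj
      have h2 := step (W := Wd s) (by unfold Wd; omega) (Wd_small hs hj) (by omega)
        (fun m n hm hmn => hmono m n (by omega) hmn)
        (hH_block hpos hN0 h hs hj hj' (by omega)) h1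
      have e1 : 4 ^ (2 ^ s + (i + 1)) = 4 * 4 ^ (2 ^ s + i) := by ring
      rw [e1]
      refine h2.mono_c (le_of_eq ?_)
      push_cast; ring
  have h1 := key (2 ^ s) le_rfl
  have e : 2 ^ s + 2 ^ s = 2 ^ (s + 1) := by ring
  rw [e] at h1
  refine h1.mono_c ?_
  have hW : (Wd s : ℝ) ≤ 4 * (s + 3) * 2 ^ s := by
    unfold Wd
    push_cast
    have : (1 : ℝ) ≤ 2 ^ s := one_le_pow₀ (by norm_num)
    have e : (2 : ℝ) ^ (s + 2) = 4 * 2 ^ s := by ring
    rw [e]; nlinarith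
  have hWpos : (0 : ℝ) < Wd s := by unfold Wd; positivity
  have : 1 / (32 * ((s : ℝ) + 3)) ≤ ((2 ^ s : ℕ) : ℝ) * (1 / (8 * (Wd s : ℝ))) := by
    push_cast
    rw [mul_one_div, div_le_div_iff₀ (by positivity) (by positivity)]
    nlinarith
  linarith

/-- failure of the weak type inequality on the integers -/
theorem weak_fail (hpos : ∀ n, 0 < a n) (hN0 : 2 ≤ N0)
    (h : ∀ n ≥ N0, ((a (n + 1) : ℝ) / (a n : ℝ)) ≥ 1 + 1 / Real.log (n : ℝ))
    (M : ℕ) (C : ℝ) :
    ∃ E F : Finset ℕ, E.Nonempty ∧ C * E.card ≤ F.card ∧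
      ∀ x ∈ F, ∃ N, M ≤ N ∧ N ≤ 4 * ((range N).filter (fun n => x + a n ∈ E)).card := by
  set s0 := N0 + M with hs0
  have key : ∀ k, Inv a M (4 ^ 2 ^ (s0 + k)) (∑ u ∈ range k, 1 / (32 * ((s0 + u : ℕ) + 3 : ℝ))) := by
    intro k
    induction k with
    | zero => exact ⟨{0}, ∅, by simp, by simpa using hpos _, by simp, by simp, by simp⟩
    | succ k ih =>
      rw [sum_range_succ]
      exact group_step (s := s0 + k) hpos hN0 h (by omega) (by omega) (by omega) ih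
  have hdiv : Filter.Tendsto (fun k => (1 / (32 * ((s0 : ℝ) + 3))) * ∑ u ∈ range k, 1 / ((u : ℝ) + 1))
      Filter.atTop Filter.atTop :=
    Filter.Tendsto.const_mul_atTop (by positivity) Real.tendsto_sum_range_one_div_nat_succ_atTop
  obtain ⟨k, hk⟩ := (hdiv.eventually_ge_atTop C).exists
  have hle : C ≤ ∑ u ∈ range k, 1 / (32 * ((s0 + u : ℕ) + 3 : ℝ)) := by
    refine hk.trans ?_
    rw [mul_sum]
    apply sum_le_sum
    intro u _
    push_cast
    rw [div_mul_div_comm, one_mul]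
    apply one_div_le_one_div_of_le (by positivity)
    have h1 : (0 : ℝ) ≤ s0 := by positivity
    have h2 : (0 : ℝ) ≤ u := by positivity
    nlinarith [mul_nonneg h1 h2]
  obtain ⟨E, F, h1, _, _, h4, h5⟩ := (key k).mono_c hle
  exact ⟨E, F, h1, h4, h5⟩

end growth

end Pool.Agent.H503Z.Erg
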