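import Mathlib
import Pool.Agent.H503Z.ErgGrowth

set_option autoImplicit false

namespace Pool.Agent.H503Z.Erg

open Finset MeasureTheory unitInterval Filter

abbrev Om : Type := ℤ → unitInterval

noncomputable def mu : Measure Om := Measure.infinitePi (fun _ : ℤ => (volume : Measure unitInterval))

instance : IsProbabilityMeasure mu := by unfold mu; infer_instance

def sh (ξ : Om) : Om := fun m => ξ (m + 1)

lemma sh_mp : MeasurePreserving sh mu mu := by
  refine ⟨by unfold sh; fun_prop, ?_⟩
  have := Measure.map_infinitePi_infinitePi_of_inj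
    (P := fun _ : ℤ => (volume : Measure unitInterval)) (f := fun m : ℤ => m + 1)
    (add_left_injective 1)
  exact this

lemma sh_iter (k : ℕ) (ξ : Om) (m : ℤ) : (sh^[k] ξ) m = ξ (m + k) := by
  induction k generalizing ξ m with
  | zero => simp
  | succ k ih =>
    rw [Function.iterate_succ_apply', sh, ih]
    congr 1; push_cast; ring

/-- some coordinate indexed by `E` is small -/
def hit (E : Finset ℕ) (p : unitInterval) : Set Om := ⋃ e ∈ E, {ξ | ξ (-(e : ℤ)) ∈ Set.Iic p}

lemma hit_meas (E : Finset ℕ) (p : unitInterval) : MeasurableSet (hit E p) := by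
  unfold hit
  refine Finset.measurableSet_biUnion _ (fun e _ => ?_)
  exact (measurable_pi_apply (-(e : ℤ))) measurableSet_Iic

lemma hit_le (E : Finset ℕ) (p : unitInterval) : mu.real (hit E p) ≤ E.card * (p : ℝ) := by
  unfold hit
  refine (measureReal_biUnion_finset_le _ _).trans ?_
  have : ∀ e ∈ E, mu.real {ξ : Om | ξ (-(e : ℤ)) ∈ Set.Iic p} = (p : ℝ) := by
    intro e _
    have h1 := (measurePreserving_eval_infinitePi
      (fun _ : ℤ => (volume : Measure unitInterval)) (-(e : ℤ))).measure_preimage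
      (s := Set.Iic p) measurableSet_Iic.nullMeasurableSet
    have h2 : mu {ξ : Om | ξ (-(e : ℤ)) ∈ Set.Iic p} = ENNReal.ofReal p := by
      rw [← unitInterval.volume_Iic]; exact h1
    rw [Measure.real, h2, ENNReal.toReal_ofReal p.2.1]
  rw [sum_congr rfl this, sum_const, nsmul_eq_mul]

lemma hit_compl (F : Finset ℕ) (p : unitInterval) :
    mu.real (hit F p)ᶜ = (1 - (p : ℝ)) ^ F.card := by
  have h1 : (hit F p)ᶜ = Set.pi (F.image (fun e : ℕ => -(e : ℤ))) (fun _ => Set.Ioi p) := by
    ext ξ
    simp [hit]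
  have h2 := Measure.infinitePi_pi (fun _ : ℤ => (volume : Measure unitInterval))
    (s := F.image (fun e : ℕ => -(e : ℤ))) (t := fun _ => Set.Ioi p)
    (fun _ _ => measurableSet_Ioi)
  rw [h1, Measure.real]
  unfold mu
  rw [h2, prod_const, card_image_of_injective _ (fun x y h => by simpa using h),
    unitInterval.volume_Ioi, ENNReal.toReal_pow, ENNReal.toReal_ofReal (by linarith [p.2.2])]

lemma pow_le_half (n : ℕ) (hn : 0 < n) : (1 - 1 / (n : ℝ)) ^ n ≤ 1 / 2 := by
  have hn' : (0 : ℝ) < n := by exact_mod_cast hn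
  have h0 : 0 ≤ 1 - 1 / (n : ℝ) := by
    have : (1 : ℝ) ≤ n := by exact_mod_cast hn
    rw [sub_nonneg, div_le_one hn']; exact this
  have h1 : 1 - 1 / (n : ℝ) ≤ Real.exp (-(1 / n)) := by
    linarith [Real.add_one_le_exp (-(1 / (n : ℝ)))]
  have h2 : (1 - 1 / (n : ℝ)) ^ n ≤ Real.exp (-(1 / n)) ^ n := pow_le_pow_left₀ h0 h1 n
  rw [← Real.exp_nat_mul] at h2
  have e : (n : ℝ) * (-(1 / n)) = -1 := by field_simp
  rw [e, Real.exp_neg] at h2
  refine h2.trans ?_
  rw [one_div]
  apply inv_anti₀ (by norm_num)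
  linarith [Real.add_one_le_exp (1 : ℝ)]

theorem transfer (a : ℕ → ℕ)
    (hw : ∀ (M : ℕ) (C : ℝ), ∃ E F : Finset ℕ, E.Nonempty ∧ C * E.card ≤ F.card ∧
      ∀ x ∈ F, ∃ N, M ≤ N ∧ N ≤ 4 * ((range N).filter (fun n => x + a n ∈ E)).card) :
    ∃ G : Set Om, MeasurableSet G ∧
      ¬ (∀ᵐ x ∂mu, ∃ L : ℝ, Tendsto
        (fun N : ℕ => (1 / (N : ℝ)) * ∑ n ∈ range N, G.indicator (fun _ => (1 : ℝ)) (sh^[a n] x))
        atTop (nhds L)) := by
  classical
  choose E F hE hC hF using fun k : ℕ => hw k (2 ^ (k + 5))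
  have hFpos : ∀ k, 0 < (F k).card := by
    intro k
    have h1 : (0 : ℝ) < (E k).card := by exact_mod_cast (hE k).card_pos
    have h2 : (0 : ℝ) < (F k).card := lt_of_lt_of_le (by positivity) (hC k)
    exact_mod_cast h2
  let p : ℕ → unitInterval := fun k => ⟨1 / ((F k).card : ℝ), by positivity, by
    have : (1 : ℝ) ≤ (F k).card := by exact_mod_cast hFpos k
    rw [div_le_one (by linarith)]; exact this⟩
  have hp : ∀ k, (p k : ℝ) = 1 / ((F k).card : ℝ) := fun k => rfl
  set G : Set Om := ⋃ k, hit (E k) (p k) with hG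
  have hGm : MeasurableSet G := MeasurableSet.iUnion (fun k => hit_meas _ _)
  have hEk : ∀ k, mu.real (hit (E k) (p k)) ≤ 1 / 16 / 2 / 2 ^ k := by
    intro k
    refine (hit_le _ _).trans ?_
    have h2 : (0 : ℝ) < (F k).card := by exact_mod_cast hFpos k
    rw [hp, mul_one_div, div_le_div_iff₀ h2 (by positivity)]
    have := hC k
    have e : (2 : ℝ) ^ (k + 5) = 32 * 2 ^ k := by ring
    rw [e] at this
    nlinarith
  have hGle : mu.real G ≤ 1 / 16 := by
    have h1 : mu G ≤ ∑' k, ENNReal.ofReal (1 / 16 / 2 / 2 ^ k) := by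
      refine (measure_iUnion_le _).trans (ENNReal.tsum_le_tsum (fun k => ?_))
      rw [← ofReal_measureReal]
      exact ENNReal.ofReal_le_ofReal (hEk k)
    rw [← ENNReal.ofReal_tsum_of_nonneg (fun k => by positivity) (summable_geometric_two' _),
      tsum_geometric_two'] at h1
    exact ENNReal.toReal_le_of_le_ofReal (by norm_num) h1
  refine ⟨G, hGm, fun hconv => ?_⟩
  set A : ℕ → Om → ℝ := fun N x =>
    (1 / (N : ℝ)) * ∑ n ∈ range N, G.indicator (fun _ => (1 : ℝ)) (sh^[a n] x) with hA
  have hind : Measurable (G.indicator (fun _ => (1 : ℝ))) := measurable_const.indicator hGm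
  have hAm : ∀ N, Measurable (A N) := by
    intro N
    refine measurable_const.mul (Finset.measurable_sum _ (fun n _ => ?_))
    exact hind.comp (sh_mp.iterate (a n)).measurable
  have hterm : ∀ n, Integrable (fun x => G.indicator (fun _ => (1 : ℝ)) (sh^[a n] x)) mu := by
    intro n
    exact (sh_mp.iterate (a n)).integrable_comp_of_integrable
      ((integrable_const (1 : ℝ)).indicator hGm)
  have hterm' : ∀ n, ∫ x, G.indicator (fun _ => (1 : ℝ)) (sh^[a n] x) ∂mu = mu.real G := by
    intro n
    have h1 : (fun x => G.indicator (fun _ => (1 : ℝ)) (sh^[a n] x))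
        = (sh^[a n] ⁻¹' G).indicator (fun _ => (1 : ℝ)) := by
      ext x
      simp only [Set.indicator, Set.mem_preimage]
    rw [h1, integral_indicator_const _ ((sh_mp.iterate (a n)).measurable hGm), smul_eq_mul, mul_one,
      (sh_mp.iterate (a n)).measureReal_preimage hGm.nullMeasurableSet]
  have hAint : ∀ N, Integrable (A N) mu := fun N =>
    (integrable_finset_sum _ (fun n _ => hterm n)).const_mul _
  have hAnn : ∀ N x, 0 ≤ A N x := by
    intro N x
    refine mul_nonneg (by positivity) (sum_nonneg (fun n _ => ?_))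
    exact Set.indicator_nonneg (fun _ _ => zero_le_one) _
  have hAI : ∀ N, ∫ x, A N x ∂mu ≤ 1 / 16 := by
    intro N
    simp only [hA]
    rw [integral_const_mul, integral_finset_sum _ (fun n _ => hterm n),
      sum_congr rfl (fun n _ => hterm' n), sum_const, card_range, nsmul_eq_mul]
    rcases Nat.eq_zero_or_pos N with rfl | hN
    · simp
    · have : (N : ℝ) ≠ 0 := by positivity
      have e : 1 / (N : ℝ) * (N * mu.real G) = mu.real G := by field_simp
      rw [e]; exact hGle
  have hMarkov : ∀ N, mu.real {x | 1 / 5 ≤ A N x} ≤ 5 / 16 := by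
    intro N
    have := mul_meas_ge_le_integral_of_nonneg (ae_of_all mu (hAnn N)) (hAint N) (1 / 5)
    have h2 := hAI N
    linarith
  set D : ℕ → Set Om := fun M => {x | ∀ N, M ≤ N → ∀ N', M ≤ N' → A N x - 1 / 20 ≤ A N' x} with hD
  have hDm : ∀ M, MeasurableSet (D M) := by
    intro M
    have : D M = ⋂ N, ⋂ (_ : M ≤ N), ⋂ N', ⋂ (_ : M ≤ N'), {x | A N x - 1 / 20 ≤ A N' x} := by
      ext x; simp [hD]
    rw [this]
    refine MeasurableSet.iInter fun N => MeasurableSet.iInter fun _ =>
      MeasurableSet.iInter fun N' => MeasurableSet.iInter fun _ => ?_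
    exact measurableSet_le ((hAm N).sub measurable_const) (hAm N')
  have hDmono : Monotone D := by
    intro M M' hMM x hx N hN N' hN'
    exact hx N (hMM.trans hN) N' (hMM.trans hN')
  have hDfull : mu (⋃ M, D M) = 1 := by
    rw [← measure_univ (μ := mu)]
    apply measure_congr
    rw [ae_eq_univ]
    refine measure_mono_null ?_ hconv
    intro x hx hL
    apply hx
    obtain ⟨L, hL⟩ := hL
    obtain ⟨M, hM⟩ := Metric.tendsto_atTop.1 hL (1 / 40) (by norm_num)
    refine Set.mem_iUnion.2 ⟨M, fun N hN N' hN' => ?_⟩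
    have h1 := hM N hN
    have h2 := hM N' hN'
    rw [Real.dist_eq, abs_lt] at h1 h2
    simp only [hA]
    linarith [h1.1, h1.2, h2.1, h2.2]
  have hlim : Tendsto (fun M => mu.real (D M)) atTop (nhds 1) := by
    have h1 := tendsto_measure_iUnion_atTop (μ := mu) hDmono
    rw [hDfull] at h1
    have h2 := (ENNReal.tendsto_toReal ENNReal.one_ne_top).comp h1
    simpa [Measure.real, Function.comp_def] using h2
  obtain ⟨M, hM78, hM1⟩ :=
    ((hlim.eventually (lt_mem_nhds (show (7 / 8 : ℝ) < 1 by norm_num))).and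
      (eventually_ge_atTop 1)).exists
  have hsub : D M ⊆ {x | 1 / 5 ≤ A M x} ∪ (hit (F M) (p M))ᶜ := by
    intro x hx
    by_cases hxF : x ∈ hit (F M) (p M)
    · left
      obtain ⟨y, hy, hxy⟩ := Set.mem_iUnion₂.1 hxF
      obtain ⟨N, hN1, hN2⟩ := hF M y hy
      have h1 := hx N hN1 M le_rfl
      have hNpos : (0 : ℝ) < N := by exact_mod_cast (by omega : 0 < N)
      have h2 : (((range N).filter (fun n => y + a n ∈ E M)).card : ℝ)
          ≤ ∑ n ∈ range N, G.indicator (fun _ => (1 : ℝ)) (sh^[a n] x) := by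
        rw [card_filter]
        push_cast
        apply sum_le_sum
        intro n _
        split_ifs with hn
        · have : sh^[a n] x ∈ G := by
            refine Set.mem_iUnion.2 ⟨M, Set.mem_iUnion₂.2 ⟨y + a n, hn, ?_⟩⟩
            have e : -((y + a n : ℕ) : ℤ) + (a n : ℕ) = -(y : ℤ) := by push_cast; ring
            simp only [Set.mem_setOf_eq] at hxy ⊢
            rw [sh_iter, e]; exact hxy
          rw [Set.indicator_of_mem this]
        · exact Set.indicator_nonneg (fun _ _ => zero_le_one) _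
      have h3 : (N : ℝ) ≤ 4 * (((range N).filter (fun n => y + a n ∈ E M)).card : ℝ) := by
        exact_mod_cast hN2
      have h4 : 1 / 4 ≤ A N x := by
        simp only [hA]
        rw [one_div_mul_eq_div, le_div_iff₀ hNpos]
        linarith
      simp only [Set.mem_setOf_eq]
      linarith
    · right; exact hxF
  have h1 : mu.real (D M) ≤ mu.real {x | 1 / 5 ≤ A M x} + mu.real (hit (F M) (p M))ᶜ :=
    (measureReal_mono hsub).trans (measureReal_union_le _ _)
  have h2 := hMarkov M
  have h3 : mu.real (hit (F M) (p M))ᶜ ≤ 1 / 2 := by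
    rw [hit_compl, hp]; exact pow_le_half _ (hFpos M)
  linarith

end Pool.Agent.H503Z.Erg
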