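import Mathlib

set_option autoImplicit false

namespace Pool.Agent.H503Z.OpLip

open NormedSpace Set

variable {𝔸 : Type*} [CStarAlgebra 𝔸]

lemma exp_unit {X : 𝔸} (hX : X ∈ skewAdjoint 𝔸) (t : ℝ) : exp (t • X) ∈ unitary 𝔸 := by
  let _ : NormedAlgebra ℚ 𝔸 := NormedAlgebra.restrictScalars ℚ ℂ 𝔸
  refine exp_mem_unitary_of_mem_skewAdjoint ?_
  rw [skewAdjoint.mem_iff] at hX ⊢
  rw [star_smul, hX, star_trivial, smul_neg]

lemma exp_diff {A B X Y : 𝔸} (hX : X ∈ skewAdjoint 𝔸) (hY : Y ∈ skewAdjoint 𝔸) (c : ℂ)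
    (hc : ‖c‖ = 1) (h1 : A * X = c • 1) (h2 : X * A = c • 1) (h3 : B * Y = c • 1)
    (h4 : Y * B = c • 1) : ‖A * (exp X - exp Y) * B‖ ≤ ‖A - B‖ := by
  let _ : NormedAlgebra ℚ 𝔸 := NormedAlgebra.restrictScalars ℚ ℂ 𝔸
  let φ : ℝ → 𝔸 := fun t => A * exp (t • X) * (exp ((1 - t) • Y) * B)
  have hAX : ∀ t : ℝ, A * exp (t • X) = exp (t • X) * A := fun t =>
    (Commute.exp_right (show Commute A (t • X) from
      (show Commute A X from h1.trans h2.symm).smul_right t)).eq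
  have hBY : ∀ t : ℝ, B * exp (t • Y) = exp (t • Y) * B := fun t =>
    (Commute.exp_right (show Commute B (t • Y) from
      (show Commute B Y from h3.trans h4.symm).smul_right t)).eq
  have hd : ∀ t : ℝ, HasDerivAt φ (c • (exp (t • X) * (B - A) * exp ((1 - t) • Y))) t := by
    intro t
    have d1 := (hasDerivAt_exp_smul_const' (𝕂 := ℝ) X t).const_mul A
    have d2 := ((hasDerivAt_exp_smul_const (𝕂 := ℝ) Y (1 - t)).scomp t
      ((hasDerivAt_id t).const_sub 1)).mul_const B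
    have d3 := d1.mul d2
    refine HasDerivAt.congr_deriv d3 (Eq.symm ?_)
    simp only [Function.comp_apply, neg_smul, one_smul]
    rw [← mul_assoc A X, h1, neg_mul, mul_assoc (exp ((1 - t) • Y)) Y B, h4, ← hBY, hAX]
    simp only [mul_sub, sub_mul, smul_sub, smul_mul_assoc, one_mul, mul_neg, mul_smul_comm,
      mul_one, mul_assoc, sub_eq_add_neg, mul_add, add_mul, smul_add, neg_mul, smul_neg]
  have hb : ∀ t : ℝ, ‖c • (exp (t • X) * (B - A) * exp ((1 - t) • Y))‖ ≤ ‖A - B‖ := by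
    intro t
    rw [norm_smul, hc, one_mul, CStarRing.norm_mul_mem_unitary _ (exp_unit hY _),
      CStarRing.norm_mem_unitary_mul _ (exp_unit hX _), norm_sub_rev]
  have := norm_image_sub_le_of_norm_deriv_le_segment_01' (f := φ)
    (fun t _ => (hd t).hasDerivWithinAt) (fun t _ => hb t)
  simp only [φ, one_smul, sub_self, zero_smul, exp_zero, one_mul, sub_zero, mul_one] at this
  rw [mul_sub, sub_mul, mul_assoc A (exp Y) B]
  exact this

lemma sandwich {A B X Y : 𝔸} (hX : X ∈ skewAdjoint 𝔸) (hY : Y ∈ skewAdjoint 𝔸) (c : ℂ)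
    (hc : ‖c‖ = 1) (h1 : A * X = c • 1) (h2 : X * A = c • 1) (h3 : B * Y = c • 1)
    (h4 : Y * B = c • 1) (hA : ‖A‖ ≤ 2) (hB : ‖B‖ ≤ 2) :
    ‖A * exp X * A - B * exp Y * B‖ ≤ 5 * ‖A - B‖ := by
  have e : A * exp X * A - B * exp Y * B
      = A * (exp X - exp Y) * B + A * (exp X * (A - B)) + ((A - B) * exp Y) * B := by
    noncomm_ring
  have uX : exp X ∈ unitary 𝔸 := by simpa using exp_unit hX 1
  have uY : exp Y ∈ unitary 𝔸 := by simpa using exp_unit hY 1
  have a1 := exp_diff hX hY c hc h1 h2 h3 h4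
  have a2 : ‖A * (exp X * (A - B))‖ ≤ 2 * ‖A - B‖ := by
    refine (norm_mul_le _ _).trans ?_
    rw [CStarRing.norm_mem_unitary_mul _ uX]
    exact mul_le_mul_of_nonneg_right hA (norm_nonneg _)
  have a3 : ‖((A - B) * exp Y) * B‖ ≤ 2 * ‖A - B‖ := by
    refine (norm_mul_le _ _).trans ?_
    rw [CStarRing.norm_mul_mem_unitary _ uY, mul_comm]
    exact mul_le_mul_of_nonneg_right hB (norm_nonneg _)
  rw [e]
  have := norm_add₃_le (a := A * (exp X - exp Y) * B) (b := A * (exp X * (A - B)))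
    (c := ((A - B) * exp Y) * B)
  linarith

lemma cfc_sin {a : 𝔸} (ha : IsSelfAdjoint a) :
    cfc Real.sin a = (Complex.I / 2) • (exp ((-Complex.I) • a) - exp (Complex.I • a)) := by
  have hn : IsStarNormal a := ha.isStarNormal
  rw [cfc_real_eq_complex Real.sin ha, ← CFC.complex_exp_eq_normedSpace_exp (a := (-Complex.I) • a),
    ← CFC.complex_exp_eq_normedSpace_exp (a := Complex.I • a), ← cfc_comp_smul (-Complex.I) _ a,
    ← cfc_comp_smul Complex.I _ a, ← cfc_sub _ _ a, ← cfc_smul (Complex.I / 2) _ a]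
  refine cfc_congr fun z hz => ?_
  have hz' : (z.re : ℂ) = z := (ha.spectrumRestricts.rightInvOn hz)
  simp only [smul_eq_mul]
  rw [Complex.ofReal_sin, hz', Complex.sin]
  ring_nf

/-- the oscillating term -/
noncomputable def h (x : ℝ) : ℝ := x * Real.sin x⁻¹ * x

lemma norm_le_two {A : 𝔸} (hA : IsSelfAdjoint A) (hs : spectrum ℝ A ⊆ Icc 0 2) : ‖A‖ ≤ 2 := by
  conv_lhs => rw [← cfc_id' ℝ A]
  refine norm_cfc_le (by norm_num) fun x hx => ?_
  rw [Real.norm_eq_abs, abs_le]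
  have := hs hx
  constructor <;> linarith [this.1, this.2]

lemma cfc_h {A : 𝔸} (hA : IsSelfAdjoint A) (hs : spectrum ℝ A ⊆ Ioc 0 2) :
    ∃ a : 𝔸, IsSelfAdjoint a ∧ A * a = 1 ∧ a * A = 1 ∧ cfc h A = A * cfc Real.sin a * A := by
  have hi : ContinuousOn (fun x : ℝ => x⁻¹) (spectrum ℝ A) :=
    continuousOn_inv₀.mono fun x hx => (hs hx).1.ne'
  refine ⟨cfc (fun x : ℝ => x⁻¹) A, cfc_predicate _ _, ?_, ?_, ?_⟩
  · conv_lhs => enter [1]; rw [← cfc_id' ℝ A]
    rw [← cfc_mul _ _ A, ← cfc_const_one ℝ A]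
    exact cfc_congr fun x hx => mul_inv_cancel₀ (hs hx).1.ne'
  · conv_lhs => enter [2]; rw [← cfc_id' ℝ A]
    rw [← cfc_mul _ _ A, ← cfc_const_one ℝ A]
    exact cfc_congr fun x hx => inv_mul_cancel₀ (hs hx).1.ne'
  · have hsi : ContinuousOn (fun x : ℝ => Real.sin x⁻¹) (spectrum ℝ A) :=
      Real.continuous_sin.comp_continuousOn hi
    rw [← cfc_comp' Real.sin _ A]
    show cfc (fun x : ℝ => x * Real.sin x⁻¹ * x) A = _
    rw [cfc_mul _ _ A, cfc_mul _ _ A, cfc_id' ℝ A]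

lemma h_lip {A B : 𝔸} (hA : IsSelfAdjoint A) (hB : IsSelfAdjoint B)
    (sA : spectrum ℝ A ⊆ Ioc 0 2) (sB : spectrum ℝ B ⊆ Ioc 0 2) :
    ‖cfc h A - cfc h B‖ ≤ 5 * ‖A - B‖ := by
  obtain ⟨a, ha, a1, a2, a3⟩ := cfc_h hA sA
  obtain ⟨b, hb, b1, b2, b3⟩ := cfc_h hB sB
  have nA := norm_le_two hA (sA.trans Ioc_subset_Icc_self)
  have nB := norm_le_two hB (sB.trans Ioc_subset_Icc_self)
  have key : ∀ c : ℂ, ‖c‖ = 1 → star c = -c →
      ‖A * exp (c • a) * A - B * exp (c • b) * B‖ ≤ 5 * ‖A - B‖ := by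
    intro c hc hs
    refine sandwich ?_ ?_ c hc ?_ ?_ ?_ ?_ nA nB
    · rw [skewAdjoint.mem_iff, star_smul, hs, ha.star_eq, neg_smul]
    · rw [skewAdjoint.mem_iff, star_smul, hs, hb.star_eq, neg_smul]
    · rw [mul_smul_comm, a1]
    · rw [smul_mul_assoc, a2]
    · rw [mul_smul_comm, b1]
    · rw [smul_mul_assoc, b2]
  have k1 := key Complex.I (by simp) (by simp)
  have k2 := key (-Complex.I) (by simp) (by simp)
  have e : cfc h A - cfc h B = (Complex.I / 2) •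
      ((A * exp ((-Complex.I) • a) * A - B * exp ((-Complex.I) • b) * B)
        - (A * exp (Complex.I • a) * A - B * exp (Complex.I • b) * B)) := by
    rw [a3, b3, cfc_sin ha, cfc_sin hb]
    simp only [mul_smul_comm, smul_mul_assoc, ← smul_sub]
    congr 1
    noncomm_ring
  rw [e, norm_smul]
  have : ‖Complex.I / 2‖ = 1 / 2 := by simp
  rw [this]
  have := norm_sub_le (A * exp ((-Complex.I) • a) * A - B * exp ((-Complex.I) • b) * B)
    (A * exp (Complex.I • a) * A - B * exp (Complex.I • b) * B)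
  linarith

lemma h_abs (x : ℝ) : |h x| ≤ x ^ 2 := by
  unfold h
  rw [abs_mul, abs_mul, ← sq_abs]
  have := Real.abs_sin_le_one x⁻¹
  have h0 := abs_nonneg x
  nlinarith [mul_nonneg h0 h0]

lemma h_deriv0 : HasDerivAt h 0 0 := by
  rw [hasDerivAt_iff_isLittleO_nhds_zero]
  have h0 : h 0 = 0 := by simp [h]
  simp only [zero_add, h0, smul_zero, sub_zero]
  refine Asymptotics.IsBigO.trans_isLittleO (g := fun x : ℝ => x ^ 2) ?_
    (Asymptotics.isLittleO_pow_id (by norm_num))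
  refine Asymptotics.IsBigO.of_bound 1 (Filter.Eventually.of_forall fun x => ?_)
  simpa using h_abs x

lemma h_deriv {x : ℝ} (hx : x ≠ 0) :
    HasDerivAt h (2 * x * Real.sin x⁻¹ - Real.cos x⁻¹) x := by
  have d1 := (hasDerivAt_inv hx).sin
  have d2 := ((hasDerivAt_id x).mul d1).mul (hasDerivAt_id x)
  refine HasDerivAt.congr_deriv d2 (Eq.symm ?_)
  simp only [id, Pi.mul_apply]
  field_simp
  ring

lemma h_cont : Continuous h := by
  rw [continuous_iff_continuousAt]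
  intro x
  rcases eq_or_ne x 0 with rfl | hx
  · exact h_deriv0.continuousAt
  · exact (h_deriv hx).continuousAt

lemma h_lip' {A B : 𝔸} (hA : IsSelfAdjoint A) (hB : IsSelfAdjoint B)
    (sA : spectrum ℝ A ⊆ Icc 0 1) (sB : spectrum ℝ B ⊆ Icc 0 1) :
    ‖cfc h A - cfc h B‖ ≤ 5 * ‖A - B‖ := by
  refine le_of_forall_pos_le_add fun δ hδ => ?_
  have hu := (isCompact_Icc (a := (0 : ℝ)) (b := 2)).uniformContinuousOn_of_continuous
    h_cont.continuousOn
  obtain ⟨η, hη, hu⟩ := Metric.uniformContinuousOn_iff.1 hu (δ / 2) (by positivity)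
  set ε := min (η / 2) 1 with hε
  have e0 : 0 < ε := by positivity
  have e1 : ε ≤ 1 := min_le_right _ _
  have e2 : ε < η := lt_of_le_of_lt (min_le_left _ _) (by linarith)
  have hc := h_cont
  have key : ∀ A : 𝔸, IsSelfAdjoint A → spectrum ℝ A ⊆ Icc 0 1 →
      IsSelfAdjoint (A + ε • 1) ∧ spectrum ℝ (A + ε • (1 : 𝔸)) ⊆ Ioc 0 2 ∧
        ‖cfc h A - cfc h (A + ε • 1)‖ ≤ δ / 2 := by
    intro A hA sA
    have e : A + ε • 1 = cfc (fun x : ℝ => x + ε) A := by
      rw [cfc_add_const ε _ A, cfc_id' ℝ A, Algebra.algebraMap_eq_smul_one]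
    rw [e]
    refine ⟨cfc_predicate _ _, ?_, ?_⟩
    · rw [cfc_map_spectrum (R := ℝ) _ A]
      rintro _ ⟨x, hx, rfl⟩
      have := sA hx
      constructor <;> simp only <;> linarith [this.1, this.2]
    · rw [← cfc_comp' h _ A, ← cfc_sub _ _ A]
      refine norm_cfc_le (by positivity) fun x hx => ?_
      have := sA hx
      have h1 := hu x ⟨this.1, by linarith [this.2]⟩ (x + ε)
        ⟨by linarith [this.1], by linarith [this.2]⟩ (by
          rw [Real.dist_eq, sub_add_cancel_left, abs_neg, abs_of_pos e0]; exact e2)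
      exact h1.le
  obtain ⟨a1, a2, a3⟩ := key A hA sA
  obtain ⟨b1, b2, b3⟩ := key B hB sB
  have k := h_lip a1 b1 a2 b2
  rw [add_sub_add_right_eq_sub] at k
  have e : cfc h A - cfc h B = (cfc h A - cfc h (A + ε • 1))
    + (cfc h (A + ε • 1) - cfc h (B + ε • 1)) - (cfc h B - cfc h (B + ε • 1)) := by abel
  rw [e]
  have t1 := norm_sub_le ((cfc h A - cfc h (A + ε • 1))
    + (cfc h (A + ε • 1) - cfc h (B + ε • 1))) (cfc h B - cfc h (B + ε • 1))
  have t2 := norm_add_le (cfc h A - cfc h (A + ε • 1)) (cfc h (A + ε • 1) - cfc h (B + ε • 1))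
  linarith

/-- the counterexample -/
noncomputable def f (x : ℝ) : ℝ := x + h x + 2 * (x * x)

lemma f_cont : Continuous f := by
  have := h_cont
  unfold f
  fun_prop

lemma f_lip {A B : 𝔸} (hA : IsSelfAdjoint A) (hB : IsSelfAdjoint B)
    (sA : spectrum ℝ A ⊆ Icc 0 1) (sB : spectrum ℝ B ⊆ Icc 0 1) :
    ‖cfc f A - cfc f B‖ ≤ 14 * ‖A - B‖ := by
  have hc := h_cont
  have key : ∀ A : 𝔸, IsSelfAdjoint A → cfc f A = A + cfc h A + (2 : ℝ) • (A * A) := by
    intro A hA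
    show cfc (fun x : ℝ => x + h x + 2 * (x * x)) A = _
    rw [cfc_add A _ _, cfc_add A _ _, cfc_const_mul 2 _ A, cfc_mul _ _ A, cfc_id' ℝ A]
  have s2 : Icc (0 : ℝ) 1 ⊆ Icc 0 2 := Icc_subset_Icc le_rfl (by norm_num)
  have nA := norm_le_two hA (sA.trans s2)
  have nB := norm_le_two hB (sB.trans s2)
  have e : cfc f A - cfc f B = (A - B) + (cfc h A - cfc h B)
      + (2 : ℝ) • (A * (A - B) + (A - B) * B) := by
    rw [key A hA, key B hB]
    have : A * (A - B) + (A - B) * B = A * A - B * B := by noncomm_ring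
    rw [this, smul_sub]
    abel
  have a1 := h_lip' hA hB sA sB
  have a2 : ‖A * (A - B)‖ ≤ 2 * ‖A - B‖ :=
    (norm_mul_le _ _).trans (mul_le_mul_of_nonneg_right nA (norm_nonneg _))
  have a3 : ‖(A - B) * B‖ ≤ ‖A - B‖ * 2 :=
    (norm_mul_le _ _).trans (mul_le_mul_of_nonneg_left nB (norm_nonneg _))
  have a4 := norm_add_le (A * (A - B)) ((A - B) * B)
  have a5 : ‖(2 : ℝ) • (A * (A - B) + (A - B) * B)‖ = 2 * ‖A * (A - B) + (A - B) * B‖ := by
    rw [norm_smul]; simp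
  have := norm_add₃_le (a := A - B) (b := cfc h A - cfc h B)
    (c := (2 : ℝ) • (A * (A - B) + (A - B) * B))
  rw [e]
  linarith

lemma f_deriv0 : HasDerivAt f 1 0 := by
  have := ((hasDerivAt_id (0 : ℝ)).add h_deriv0).add
    (((hasDerivAt_id (0 : ℝ)).mul (hasDerivAt_id (0 : ℝ))).const_mul 2)
  refine HasDerivAt.congr_deriv this (Eq.symm ?_)
  simp

lemma f_deriv {x : ℝ} (hx : x ≠ 0) :
    HasDerivAt f (1 + (2 * x * Real.sin x⁻¹ - Real.cos x⁻¹) + 4 * x) x := by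
  have := ((hasDerivAt_id x).add (h_deriv hx)).add
    (((hasDerivAt_id x).mul (hasDerivAt_id x)).const_mul 2)
  refine HasDerivAt.congr_deriv this (Eq.symm ?_)
  simp only [id]
  ring

lemma f_range {x : ℝ} (h0 : 0 ≤ x) (h1 : x ≤ 1 / 2) : f x ∈ uIcc (f 0) (f 1) := by
  have e0 : f 0 = 0 := by simp [f, h]
  have e1 : 2 ≤ f 1 := by
    have := abs_le.1 (h_abs 1)
    unfold f; linarith [this.1]
  have := abs_le.1 (h_abs x)
  rw [e0, uIcc_of_le (by linarith)]
  constructor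
  · unfold f; nlinarith [this.1]
  · refine le_trans ?_ e1
    unfold f; nlinarith [this.2]

lemma not_lip (C : ℝ) (hC : ∀ x ∈ Icc (0 : ℝ) (1 / 2), ∀ y ∈ Icc (0 : ℝ) (1 / 2),
    |x - y| ≤ C * |f x - f y|) : False := by
  obtain ⟨k, hk⟩ := exists_nat_gt (|C| + 1)
  have hk0 : (0 : ℝ) < k := by linarith [abs_nonneg C]
  have hk1 : (1 : ℝ) < k := by linarith [abs_nonneg C]
  have hpi := Real.pi_gt_three
  set x : ℝ := ((k : ℝ) * (2 * Real.pi))⁻¹ with hx
  have hT : (6 : ℝ) * k < (k : ℝ) * (2 * Real.pi) := by nlinarith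
  have x0 : 0 < x := by positivity
  have x1 : x * (6 * k) < 1 := by
    rw [hx, inv_mul_lt_iff₀ (by positivity)]; linarith
  have x2 : x < 1 / 2 := by nlinarith
  have hd := f_deriv x0.ne'
  rw [hx, inv_inv, Real.cos_nat_mul_two_pi, ← hx] at hd
  have hs : Real.sin ((k : ℝ) * (2 * Real.pi)) = 0 := by
    have := Real.sin_nat_mul_pi (2 * k)
    rw [← this]; congr 1; push_cast; ring
  rw [hs] at hd
  have ht := ((hasDerivAt_iff_tendsto_slope.1 hd).abs).const_mul C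
  have hev : ∀ᶠ y in nhdsWithin x {x}ᶜ, 1 ≤ C * |slope f x y| := by
    have h1 : ∀ᶠ y in nhdsWithin x {x}ᶜ, y ∈ Icc (0 : ℝ) (1 / 2) :=
      nhdsWithin_le_nhds (Icc_mem_nhds x0 x2)
    filter_upwards [h1, self_mem_nhdsWithin] with y hy hyx
    have hyx : y - x ≠ 0 := sub_ne_zero.2 hyx
    have h2 := hC y hy x ⟨x0.le, x2.le⟩
    rw [slope_def_field, abs_div, ← mul_div_assoc, le_div_iff₀ (abs_pos.2 hyx), one_mul]
    exact h2
  have := ge_of_tendsto ht hev
  have e : (1 + (2 * x * 0 - 1) + 4 * x) = 4 * x := by ring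
  rw [e, abs_of_pos (by positivity)] at this
  have h3 := le_abs_self C
  nlinarith

end Pool.Agent.H503Z.OpLip
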