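import Mathlib

set_option autoImplicit false

namespace Pool.Agent.H503Z.PosIso

open Function

/-- existence of a positive linear bijection, positivity given by predicates -/
def PB {X Y : Type*} [AddCommGroup X] [Module ℝ X] [AddCommGroup Y] [Module ℝ Y]
    (p : X → Prop) (q : Y → Prop) : Prop :=
  ∃ T : X →ₗ[ℝ] Y, Bijective T ∧ ∀ x, p x → q (T x)

lemma PB.trans {X Y Z : Type*} [AddCommGroup X] [Module ℝ X] [AddCommGroup Y] [Module ℝ Y]
    [AddCommGroup Z] [Module ℝ Z] {p : X → Prop} {q : Y → Prop} {r : Z → Prop}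
    (h1 : PB p q) (h2 : PB q r) : PB p r := by
  obtain ⟨T, hT, hp⟩ := h1
  obtain ⟨S, hS, hq⟩ := h2
  exact ⟨S.comp T, hS.comp hT, fun x hx => hq _ (hp x hx)⟩

lemma PB.swap {X Y Z : Type*} [AddCommGroup X] [Module ℝ X] [AddCommGroup Y] [Module ℝ Y]
    [AddCommGroup Z] [Module ℝ Z] {p : X → Prop} {q : Y → Prop} {r : Z → Prop}
    (h : PB q r) : PB (fun z : X × Y => p z.1 ∧ q z.2) (fun z : Z × X => r z.1 ∧ p z.2) := by
  obtain ⟨T, hT, hp⟩ := h
  refine ⟨(T.comp (LinearMap.snd ℝ X Y)).prod (LinearMap.fst ℝ X Y), ⟨?_, ?_⟩, ?_⟩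
  · rintro ⟨x, y⟩ ⟨x', y'⟩ h
    have h1 := congrArg Prod.fst h
    have h2 := congrArg Prod.snd h
    exact Prod.ext h2 (hT.1 h1)
  · rintro ⟨z, x⟩
    obtain ⟨y, rfl⟩ := hT.2 z
    exact ⟨(x, y), rfl⟩
  · rintro ⟨x, y⟩ h
    exact ⟨hp y h.2, h.1⟩

lemma PB.swap' {X Y Z : Type*} [AddCommGroup X] [Module ℝ X] [AddCommGroup Y] [Module ℝ Y]
    [AddCommGroup Z] [Module ℝ Z] {p : X → Prop} {q : Y → Prop} {r : Z → Prop}
    (h : PB q r) : PB (fun z : Y × X => q z.1 ∧ p z.2) (fun z : X × Z => p z.1 ∧ r z.2) := by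
  obtain ⟨T, hT, hp⟩ := h
  refine ⟨(LinearMap.snd ℝ Y X).prod (T.comp (LinearMap.fst ℝ Y X)), ⟨?_, ?_⟩, ?_⟩
  · rintro ⟨x, y⟩ ⟨x', y'⟩ h
    have h1 := congrArg Prod.fst h
    have h2 := congrArg Prod.snd h
    exact Prod.ext (hT.1 h2) h1
  · rintro ⟨x, z⟩
    obtain ⟨y, rfl⟩ := hT.2 z
    exact ⟨(y, x), rfl⟩
  · rintro ⟨y, x⟩ h
    exact ⟨h.2, hp y h.1⟩

section absorb

variable {X F : Type*} [NormedAddCommGroup X] [NormedSpace ℝ X] [CompleteSpace X]
  [AddCommGroup F] [Module ℝ F]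

lemma bij_two_add (B : X →ₗ[ℝ] X) (hB : ∀ x, ‖B x‖ ≤ ‖x‖) :
    Bijective (fun z => (2 : ℝ) • z + B z) := by
  let B' : X →L[ℝ] X := B.mkContinuous 1 (by simpa using hB)
  have hB' : ‖B'‖ ≤ 1 := B.mkContinuous_norm_le zero_le_one _
  have ht : ‖(-(1 / 2) : ℝ) • B'‖ < 1 := by
    rw [norm_smul]
    have : ‖(-(1 / 2) : ℝ)‖ = 1 / 2 := by norm_num
    rw [this]; linarith
  let u := Units.oneSub _ ht
  have hu : ∀ z, (u : X →L[ℝ] X) z = z + (1 / 2 : ℝ) • B z := by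
    intro z
    show ((1 : X →L[ℝ] X) - (-(1 / 2) : ℝ) • B') z = _
    simp [B']
  constructor
  · intro z w h
    have h1 : (u : X →L[ℝ] X) z = (u : X →L[ℝ] X) w := by
      rw [hu, hu]
      have := congrArg (fun v => (1 / 2 : ℝ) • v) h
      simpa [smul_add, smul_smul] using this
    have h2 := congrArg (fun v => ((u⁻¹ : (X →L[ℝ] X)ˣ) : X →L[ℝ] X) v) h1
    simpa only [← ContinuousLinearMap.mul_apply, Units.inv_mul, ContinuousLinearMap.one_apply]
      using h2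
  · intro y
    refine ⟨((u⁻¹ : (X →L[ℝ] X)ˣ) : X →L[ℝ] X) ((1 / 2 : ℝ) • y), ?_⟩
    have h1 : (u : X →L[ℝ] X) (((u⁻¹ : (X →L[ℝ] X)ˣ) : X →L[ℝ] X) ((1 / 2 : ℝ) • y))
        = (1 / 2 : ℝ) • y := by
      rw [← ContinuousLinearMap.mul_apply, Units.mul_inv, ContinuousLinearMap.one_apply]
    rw [hu] at h1
    have := congrArg (fun v => (2 : ℝ) • v) h1
    simpa [smul_add, smul_smul] using this

/-- a shift structure on a complemented part of `X` -/
structure Shift (X F : Type*) [NormedAddCommGroup X] [NormedSpace ℝ X]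
    [AddCommGroup F] [Module ℝ F] where
  ι : F →ₗ[ℝ] X
  π : X →ₗ[ℝ] F
  S : X →ₗ[ℝ] X
  S' : X →ₗ[ℝ] X
  Q : X →ₗ[ℝ] X
  h1 : ∀ x, S' (S x) = Q x
  h2 : ∀ x, S (S' x) + ι (π x) = Q x
  h3 : ∀ a, π (ι a) = a
  h4 : ∀ x, π (S x) = 0
  h5 : ∀ a, S' (ι a) = 0
  h6 : ∀ x, S (Q x) = S x
  h7 : ∀ x, S' (Q x) = S' x
  nS : ∀ x, ‖S x‖ ≤ ‖x‖
  nS' : ∀ x, ‖S' x‖ ≤ ‖x‖

namespace Shift

variable (D : Shift X F)

omit [CompleteSpace X] in
lemma Qι (a : F) : D.Q (D.ι a) = D.ι a := by rw [← D.h2, D.h5, D.h3, map_zero, zero_add]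

omit [CompleteSpace X] in
lemma πQ (x : X) : D.π (D.Q x) = D.π x := by rw [← D.h2, map_add, D.h4, D.h3, zero_add]

omit [CompleteSpace X] in
lemma QS (x : X) : D.Q (D.S x) = D.S x := by
  rw [← D.h2, D.h4, map_zero, add_zero, D.h1, D.h6]

omit [CompleteSpace X] in
lemma QS' (x : X) : D.Q (D.S' x) = D.S' x := by
  have h := congrArg D.S' (D.h2 x)
  rw [map_add, D.h5, add_zero, D.h1, D.h7] at h
  exact h

omit [CompleteSpace X] in
lemma QQ (x : X) : D.Q (D.Q x) = D.Q x := by rw [← D.h1 (D.Q x), D.h6, D.h1]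

lemma absorb {p : X → Prop} {q : F → Prop} (hadd : ∀ x y, p x → p y → p (x + y))
    (hι : ∀ a, q a → p (D.ι a)) (hS : ∀ x, p x → p (D.S x)) :
    PB (fun z : F × X => q z.1 ∧ p z.2) p := by
  refine ⟨LinearMap.snd ℝ F X + (2 : ℝ) • (D.ι.comp (LinearMap.fst ℝ F X)
    + D.S.comp (LinearMap.snd ℝ F X)), ⟨?_, ?_⟩, ?_⟩
  · rw [injective_iff_map_eq_zero]
    rintro ⟨a, x⟩ h
    have h : x + (2 : ℝ) • (D.ι a + D.S x) = 0 := h
    set z := D.ι a + D.S x with hz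
    have hQz : D.Q z = z := by rw [hz, map_add, D.Qι, D.QS]
    have hx : x = -((2 : ℝ) • z) := eq_neg_of_add_eq_zero_left h
    have hS'z : D.S' z = D.Q x := by rw [hz, map_add, D.h5, zero_add, D.h1]
    have hQx : D.Q x = x := by rw [hx, map_neg, map_smul, hQz]
    have hz0 : z = 0 := by
      apply (bij_two_add D.S' D.nS').1
      show (2 : ℝ) • z + D.S' z = (2 : ℝ) • (0 : X) + D.S' 0
      rw [hS'z, hQx, smul_zero, map_zero, add_zero, add_comm]
      exact h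
    have hπ : D.π z = a := by rw [hz, map_add, D.h3, D.h4, add_zero]
    rw [hz0, smul_zero, neg_zero] at hx
    rw [hz0, map_zero] at hπ
    exact Prod.ext hπ.symm hx
  · intro y
    obtain ⟨z, hz⟩ := (bij_two_add D.S' D.nS').2 (D.Q y)
    have hz : (2 : ℝ) • z + D.S' z = D.Q y := hz
    have hQz : D.Q z = z := by
      have h1 := congrArg D.Q hz
      rw [map_add, map_smul, D.QS', D.QQ, ← hz, add_left_inj] at h1
      exact smul_right_injective X (two_ne_zero) h1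
    refine ⟨(D.π z, y - (2 : ℝ) • z), ?_⟩
    show y - (2 : ℝ) • z + (2 : ℝ) • (D.ι (D.π z) + D.S (y - (2 : ℝ) • z)) = y
    have h1 : D.S (y - (2 : ℝ) • z) = D.S (D.S' z) := by
      rw [map_sub, ← D.h6 y, ← hz, map_add]; abel
    rw [h1, add_comm (D.ι _), D.h2, hQz]; abel
  · rintro ⟨a, x⟩ ⟨ha, hx⟩
    show p (x + (2 : ℝ) • (D.ι a + D.S x))
    rw [two_smul]
    have := hadd _ _ (hι a ha) (hS x hx)
    exact hadd _ _ hx (hadd _ _ this this)

lemma emit {p : X → Prop} {q : F → Prop} (hadd : ∀ x y, p x → p y → p (x + y))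
    (hπ : ∀ x, p x → q (D.π x)) (hS : ∀ x, p x → p (D.S' x)) :
    PB p (fun z : F × X => q z.1 ∧ p z.2) := by
  refine ⟨D.π.prod (LinearMap.id + (2 : ℝ) • D.S'), ⟨?_, ?_⟩, ?_⟩
  · rw [injective_iff_map_eq_zero]
    intro x h
    have h1 : D.π x = 0 := congrArg Prod.fst h
    have h2 : x + (2 : ℝ) • D.S' x = 0 := congrArg Prod.snd h
    have hx : x = -((2 : ℝ) • D.S' x) := eq_neg_of_add_eq_zero_left h2
    have hQx : D.Q x = x := by
      conv_lhs => rw [hx]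
      rw [map_neg, map_smul, D.QS', ← hx]
    have h3 : D.S (D.S' x) = x := by
      have := D.h2 x
      rwa [h1, map_zero, add_zero, hQx] at this
    have hw : D.S' x = 0 := by
      apply (bij_two_add D.S D.nS).1
      show (2 : ℝ) • D.S' x + D.S (D.S' x) = (2 : ℝ) • (0 : X) + D.S 0
      rw [h3, smul_zero, map_zero, add_zero, add_comm]
      exact h2
    rw [hx, hw, smul_zero, neg_zero]
  · rintro ⟨a, y⟩
    obtain ⟨w, hw⟩ := (bij_two_add D.S D.nS).2 (D.Q y - D.ι a)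
    have hw : (2 : ℝ) • w + D.S w = D.Q y - D.ι a := hw
    have hQw : D.Q w = w := by
      have h1 := congrArg D.Q hw
      rw [map_add, map_smul, D.QS, map_sub, D.QQ, D.Qι, ← hw, add_left_inj] at h1
      exact smul_right_injective X (two_ne_zero) h1
    have h1 := congrArg D.π hw
    rw [map_add, map_smul, D.h4, add_zero, map_sub, D.πQ, D.h3] at h1
    have h2 := congrArg D.S' hw
    rw [map_add, map_smul, D.h1, hQw, map_sub, D.h7, D.h5, sub_zero] at h2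
    refine ⟨y - (2 : ℝ) • w, Prod.ext ?_ ?_⟩
    · show D.π (y - (2 : ℝ) • w) = a
      rw [map_sub, map_smul, h1]; abel
    · show y - (2 : ℝ) • w + (2 : ℝ) • D.S' (y - (2 : ℝ) • w) = y
      have : D.S' (y - (2 : ℝ) • w) = w := by rw [map_sub, map_smul, ← h2]; abel
      rw [this]; abel
  · intro x hx
    refine ⟨hπ x hx, ?_⟩
    show p (x + (2 : ℝ) • D.S' x)
    rw [two_smul]
    exact hadd _ _ hx (hadd _ _ (hS x hx) (hS x hx))

end Shift

end absorb

/-- a positive linear bijection between spaces of continuous functions is an isomorphism -/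
lemma PB.toCLE {K L : Type*} [TopologicalSpace K] [CompactSpace K] [TopologicalSpace L]
    [CompactSpace L]
    (h : PB (fun f : C(K, ℝ) => ∀ x, 0 ≤ f x) (fun g : C(L, ℝ) => ∀ y, 0 ≤ g y)) :
    ∃ T : C(K, ℝ) ≃L[ℝ] C(L, ℝ), ∀ f : C(K, ℝ), (∀ x, 0 ≤ f x) → ∀ y, 0 ≤ T f y := by
  obtain ⟨T, hT, hp⟩ := h
  have hb : ∀ f, ‖T f‖ ≤ ‖T 1‖ * ‖f‖ := by
    intro f
    rw [ContinuousMap.norm_le _ (by positivity)]
    intro y
    have h1 := hp (‖f‖ • (1 : C(K, ℝ)) - f) (fun x => by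
      have := (abs_le.1 (f.norm_coe_le_norm x)).2
      simp; linarith) y
    have h2 := hp (‖f‖ • (1 : C(K, ℝ)) + f) (fun x => by
      have := (abs_le.1 (f.norm_coe_le_norm x)).1
      simp; linarith) y
    rw [map_sub, map_smul] at h1
    rw [map_add, map_smul] at h2
    simp only [ContinuousMap.sub_apply, ContinuousMap.add_apply, ContinuousMap.smul_apply,
      smul_eq_mul] at h1 h2
    have h3 : T 1 y ≤ ‖T 1‖ := (abs_le.1 ((T 1).norm_coe_le_norm y)).2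
    have h4 := mul_le_mul_of_nonneg_left h3 (norm_nonneg f)
    rw [Real.norm_eq_abs, abs_le]
    constructor <;> nlinarith
  exact ⟨(LinearEquiv.ofBijective T hT).toContinuousLinearEquivOfContinuous
    (T.mkContinuous _ hb).continuous, hp⟩

end Pool.Agent.H503Z.PosIso
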