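import Mathlib

set_option autoImplicit false

namespace Pool.Agent.H503Z.PosIso

open Set Filter Topology

/-- the Cantor space -/
abbrev Ca : Type := ℕ → Bool

/-- put a letter in front -/
def cons (b : Bool) : C(Ca, Ca) where
  toFun w n := Nat.casesOn n b w
  continuous_toFun := continuous_pi fun n => by
    cases n with
    | zero => exact continuous_const
    | succ n => exact continuous_apply n

/-- remove the first letter -/
def tail : C(Ca, Ca) where
  toFun w n := w (n + 1)
  continuous_toFun := continuous_pi fun n => continuous_apply (n + 1)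

@[simp] lemma cons_zero (b : Bool) (w : Ca) : cons b w 0 = b := rfl
@[simp] lemma tail_cons (b : Bool) (w : Ca) : tail (cons b w) = w := rfl
lemma cons_tail (w : Ca) : cons (w 0) (tail w) = w := by
  funext n; cases n <;> rfl

/-- oscillation on cylinders of length `n` is at most `ε` -/
def Osc (f : C(Ca, ℝ)) (n : ℕ) (ε : ℝ) : Prop :=
  ∀ x y : Ca, (∀ i < n, x i = y i) → f x - f y ≤ ε

lemma Osc.cons {f : C(Ca, ℝ)} {n : ℕ} {ε : ℝ} (h : Osc f (n + 1) ε) (b : Bool) :
    Osc (f.comp (cons b)) n ε := by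
  intro x y hxy
  refine h _ _ fun i hi => ?_
  cases i with
  | zero => rfl
  | succ i => exact hxy i (by omega)

lemma exists_osc (f : C(Ca, ℝ)) {ε : ℝ} (hε : 0 < ε) : ∃ n, Osc f n ε := by
  by_contra hc
  simp only [Osc, not_exists, not_forall, not_le] at hc
  let t : ℕ → Set (Ca × Ca) := fun n => {z | (∀ i < n, z.1 i = z.2 i) ∧ ε ≤ f z.1 - f z.2}
  have hcl : ∀ n, IsClosed (t n) := by
    intro n
    have : t n = (⋂ i, ⋂ _ : i < n, {z : Ca × Ca | z.1 i = z.2 i}) ∩ {z | ε ≤ f z.1 - f z.2} := by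
      ext z; simp [t]
    rw [this]
    refine IsClosed.inter (isClosed_iInter fun i => isClosed_iInter fun _ =>
      isClosed_eq (by fun_prop) (by fun_prop)) (isClosed_le (by fun_prop) (by fun_prop))
  obtain ⟨z, hz⟩ := IsCompact.nonempty_iInter_of_sequence_nonempty_isCompact_isClosed t
    (fun n z hz => ⟨fun i hi => hz.1 i (by omega), hz.2⟩)
    (fun n => by
      obtain ⟨x, y, h1, h2⟩ := hc n
      exact ⟨(x, y), h1, h2.le⟩) (hcl 0).isCompact hcl
  simp only [mem_iInter] at hz
  have h1 : z.1 = z.2 := funext fun i => (hz (i + 1)).1 i (by omega)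
  have h2 := (hz 0).2
  rw [h1, sub_self] at h2
  linarith

/-- an averaging type bound -/
def Mk {K L : Type*} [TopologicalSpace K] [TopologicalSpace L] (U : C(K, ℝ) → C(L, ℝ)) : Prop :=
  ∀ (f : C(K, ℝ)) (lo hi : ℝ), (∀ w, f w ∈ Icc lo hi) → ∀ x, U f x ∈ Icc lo hi

lemma Mk.pos {K L : Type*} [TopologicalSpace K] [TopologicalSpace L] [CompactSpace K]
    {U : C(K, ℝ) → C(L, ℝ)} (h : Mk U) (f : C(K, ℝ)) (hf : ∀ w, 0 ≤ f w) (x : L) : 0 ≤ U f x :=
  (h f 0 ‖f‖ (fun w => ⟨hf w, (le_abs_self _).trans (f.norm_coe_le_norm w)⟩) x).1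

lemma Mk.norm_le {K L : Type*} [TopologicalSpace K] [TopologicalSpace L] [CompactSpace K]
    [CompactSpace L] {U : C(K, ℝ) → C(L, ℝ)} (h : Mk U) (f : C(K, ℝ)) : ‖U f‖ ≤ ‖f‖ := by
  rw [ContinuousMap.norm_le _ (norm_nonneg _)]
  intro x
  exact abs_le.2 (h f (-‖f‖) ‖f‖ (fun w => abs_le.1 (f.norm_coe_le_norm w)) x)

lemma Mk.osc {K L : Type*} [TopologicalSpace K] [TopologicalSpace L] [CompactSpace K] [Nonempty K]
    {U V : C(K, ℝ) → C(L, ℝ)} (h : Mk U) (h' : Mk V) (f : C(K, ℝ)) {ε : ℝ}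
    (hf : ∀ x y, f x - f y ≤ ε) (x y : L) : |U f x - V f y| ≤ ε := by
  obtain ⟨w, -, hw⟩ := isCompact_univ.exists_isMinOn univ_nonempty f.continuous.continuousOn
  have hb : ∀ z, f z ∈ Icc (f w) (f w + ε) := fun z =>
    ⟨hw (mem_univ z), by linarith [hf z w]⟩
  have h1 := h f _ _ hb x
  have h2 := h' f _ _ hb y
  rw [abs_le]
  constructor <;> linarith [h1.1, h1.2, h2.1, h2.2]

section avg

variable {K : Type*} [TopologicalSpace K] [CompactSpace K] (ρ : C(K, ℝ)) (τ : Bool → C(K, K))

/-- one step of the recursion -/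
def step (U : C(Ca, ℝ) →ₗ[ℝ] C(K, ℝ)) : C(Ca, ℝ) →ₗ[ℝ] C(K, ℝ) where
  toFun f := (1 - ρ) * (U (f.comp (cons false))).comp (τ false)
    + ρ * (U (f.comp (cons true))).comp (τ true)
  map_add' f g := by
    ext x
    simp only [ContinuousMap.add_comp, map_add, ContinuousMap.add_apply, ContinuousMap.mul_apply]
    ring
  map_smul' c f := by
    ext x
    simp only [ContinuousMap.smul_comp, map_smul, ContinuousMap.add_apply, ContinuousMap.mul_apply,
      ContinuousMap.smul_apply, smul_eq_mul, RingHom.id_apply]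
    ring

omit [CompactSpace K] in
lemma step_apply (U : C(Ca, ℝ) →ₗ[ℝ] C(K, ℝ)) (f : C(Ca, ℝ)) (x : K) :
    step ρ τ U f x = (1 - ρ x) * U (f.comp (cons false)) (τ false x)
      + ρ x * U (f.comp (cons true)) (τ true x) := rfl

/-- the approximating operators -/
def Un : ℕ → (C(Ca, ℝ) →ₗ[ℝ] C(K, ℝ))
  | 0 => { toFun := fun f => ContinuousMap.const K (f fun _ => false)
           map_add' := fun _ _ => rfl
           map_smul' := fun _ _ => rfl }
  | n + 1 => step ρ τ (Un n)

variable {ρ} (hρ : ∀ x, ρ x ∈ Icc (0 : ℝ) 1)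
include hρ

omit [CompactSpace K] in
lemma Un_mk (n : ℕ) : Mk (Un ρ τ n) := by
  induction n with
  | zero => exact fun f lo hi h _ => h _
  | succ n ih =>
    intro f lo hi h x
    have h0 := ih (f.comp (cons false)) lo hi (fun w => h _) (τ false x)
    have h1 := ih (f.comp (cons true)) lo hi (fun w => h _) (τ true x)
    have h2 := hρ x
    show step ρ τ (Un ρ τ n) f x ∈ _
    rw [step_apply]
    constructor <;> nlinarith [h0.1, h0.2, h1.1, h1.2, h2.1, h2.2]

omit [CompactSpace K] in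
lemma Un_close (ε : ℝ) (n : ℕ) : ∀ (f : C(Ca, ℝ)), Osc f n ε → ∀ k x,
    |Un ρ τ (n + k) f x - Un ρ τ n f x| ≤ ε := by
  induction n with
  | zero =>
    intro f hf k x
    exact (Un_mk τ hρ _).osc (Un_mk τ hρ _) f (fun a b => hf a b (by simp)) x x
  | succ n ih =>
    intro f hf k x
    have h0 := abs_le.1 (ih _ (hf.cons false) k (τ false x))
    have h1 := abs_le.1 (ih _ (hf.cons true) k (τ true x))
    have h2 := hρ x
    rw [show n + 1 + k = (n + k) + 1 by ring]
    show |step ρ τ (Un ρ τ (n + k)) f x - step ρ τ (Un ρ τ n) f x| ≤ ε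
    rw [step_apply, step_apply, abs_le]
    constructor <;> nlinarith [h0.1, h0.2, h1.1, h1.2, h2.1, h2.2]

lemma Un_cauchy (f : C(Ca, ℝ)) : CauchySeq fun n => Un ρ τ n f := by
  rw [Metric.cauchySeq_iff']
  intro ε hε
  obtain ⟨n, hn⟩ := exists_osc f (half_pos hε)
  refine ⟨n, fun m hm => ?_⟩
  obtain ⟨k, rfl⟩ := Nat.exists_eq_add_of_le hm
  refine lt_of_le_of_lt ?_ (half_lt_self hε)
  rw [ContinuousMap.dist_le (half_pos hε).le]
  exact fun x => Un_close τ hρ _ n f hn k x

theorem exists_avg : ∃ U : C(Ca, ℝ) →ₗ[ℝ] C(K, ℝ), Mk U ∧ ∀ f x,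
    U f x = (1 - ρ x) * U (f.comp (cons false)) (τ false x)
      + ρ x * U (f.comp (cons true)) (τ true x) := by
  choose U hU using fun f => cauchySeq_tendsto_of_complete (Un_cauchy τ hρ f)
  have hp : ∀ f x, Tendsto (fun n => Un ρ τ n f x) atTop (𝓝 (U f x)) := fun f x =>
    ((continuous_eval_const x).tendsto _).comp (hU f)
  refine ⟨linearMapOfTendsto U (Un ρ τ) (l := atTop) (tendsto_pi_nhds.2 hU), ?_, ?_⟩
  · intro f lo hi h x
    exact isClosed_Icc.mem_of_tendsto (hp f x)
      (Eventually.of_forall fun n => Un_mk τ hρ n f lo hi h x)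
  · intro f x
    exact tendsto_nhds_unique ((tendsto_add_atTop_iff_nat 1).2 (hp f x))
      (((hp _ _).const_mul _).add ((hp _ _).const_mul _))

end avg

section interval

open unitInterval

/-- the offsets -/
def off (r : I) : Bool → ℝ
  | true => 1 - (r : ℝ)
  | false => 0

/-- the two similarities -/
def sim (r : I) (b : Bool) : C(I, I) where
  toFun t := ⟨r * t + off r b, by
    have := r.2.1; have := r.2.2; have := t.2.1; have := t.2.2
    cases b <;> simp only [off] <;> constructor <;> nlinarith⟩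
  continuous_toFun := by fun_prop

lemma sim_dist (r : I) (b : Bool) (s t : I) : dist (sim r b s) (sim r b t) = r * dist s t := by
  show |(r * s + off r b : ℝ) - (r * t + off r b)|
    = r * |(s : ℝ) - t|
  rw [add_sub_add_right_eq_sub, ← mul_sub, abs_mul, abs_of_nonneg r.2.1]

lemma exists_code (r : I) (hr : (r : ℝ) < 1) :
    ∃ φ : C(Ca, I), ∀ b w, φ (cons b w) = sim r b (φ w) := by
  let T : C(Ca, I) → C(Ca, I) := fun φ =>
    ⟨fun w => sim r (w 0) (φ (tail w)), by
      have : Continuous fun z : Bool × I => sim r z.1 z.2 :=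
        continuous_prod_of_discrete_left.2 fun b => (sim r b).continuous
      exact this.comp ((continuous_apply 0).prodMk (φ.continuous.comp tail.continuous))⟩
  have hT : ContractingWith ⟨r, r.2.1⟩ T := by
    refine ⟨hr, LipschitzWith.of_dist_le_mul fun φ ψ => ?_⟩
    have h0 := r.2.1
    rw [ContinuousMap.dist_le (by positivity)]
    intro w
    show dist (sim r (w 0) (φ (tail w))) (sim r (w 0) (ψ (tail w))) ≤ r * dist φ ψ
    rw [sim_dist]
    exact mul_le_mul_of_nonneg_left (ContinuousMap.dist_apply_le_dist _) h0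
  have : Nonempty C(Ca, I) := ⟨ContinuousMap.const _ 0⟩
  refine ⟨hT.fixedPoint T, fun b w => ?_⟩
  conv_lhs => rw [← hT.fixedPoint_isFixedPt.eq]
  rfl

/-- the weight -/
noncomputable def rho : C(I, ℝ) where
  toFun x := max 0 (min 1 (3 * x - 1))
  continuous_toFun := by fun_prop

lemma rho_mem (x : I) : rho x ∈ Icc (0 : ℝ) 1 :=
  ⟨le_max_left _ _, max_le zero_le_one (min_le_left _ _)⟩

lemma rho_zero {x : I} (h : (x : ℝ) ≤ 1 / 3) : rho x = 0 :=
  max_eq_left ((min_le_right _ _).trans (by linarith))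

lemma rho_one {x : I} (h : 2 / 3 ≤ (x : ℝ)) : rho x = 1 := by
  show max 0 (min 1 (3 * (x : ℝ) - 1)) = 1
  rw [min_eq_left (by linarith), max_eq_right zero_le_one]

/-- left inverses of the similarities -/
noncomputable def tau (r : I) (b : Bool) : C(I, I) where
  toFun x := projIcc 0 1 zero_le_one ((x - off r b) / r)
  continuous_toFun := continuous_projIcc.comp (by fun_prop)

lemma tau_sim (r : I) (hr : (r : ℝ) ≠ 0) (b : Bool) (t : I) : tau r b (sim r b t) = t := by
  show projIcc 0 1 zero_le_one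
    (((r * t + off r b : ℝ) - off r b) / r) = t
  rw [add_sub_cancel_right, mul_div_cancel_left₀ _ hr, projIcc_val]

/-- a positive extension operator from a copy of the Cantor space -/
theorem exists_ext : ∃ (j : C(Ca, I)) (e : C(Ca, ℝ) →ₗ[ℝ] C(I, ℝ)), Mk e ∧
    ∀ f, (e f).comp j = f := by
  let r : I := ⟨1 / 3, by norm_num, by norm_num⟩
  have hr : (r : ℝ) = 1 / 3 := rfl
  obtain ⟨j, hj⟩ := exists_code r (by rw [hr]; norm_num)
  obtain ⟨U, hU, hU'⟩ := exists_avg (tau r) rho_mem
  refine ⟨j, U, hU, ?_⟩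
  have hs : ∀ f b w, U f (j (cons b w)) = U (f.comp (cons b)) (j w) := by
    intro f b w
    have h1 := (j w).2.1
    have h2 := (j w).2.2
    rw [hU', hj]
    cases b
    · rw [rho_zero, tau_sim r (by rw [hr]; norm_num)]
      · ring
      · show (r * j w + 0 : ℝ) ≤ 1 / 3
        rw [hr]; linarith
    · rw [rho_one, tau_sim r (by rw [hr]; norm_num)]
      · ring
      · show (2 / 3 : ℝ) ≤ r * j w + (1 - r)
        rw [hr]; linarith
  have key : ∀ (ε : ℝ) (n : ℕ) (f : C(Ca, ℝ)), Osc f n ε → ∀ w, |U f (j w) - f w| ≤ ε := by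
    intro ε n
    induction n with
    | zero =>
      intro f hf w
      exact Mk.osc (U := fun f => (U f).comp j) (V := id) (fun f lo hi h x => hU f lo hi h _)
        (fun f lo hi h x => h x) f (fun a b => hf a b (by simp)) w w
    | succ n ih =>
      intro f hf w
      have := ih _ (hf.cons (w 0)) (tail w)
      rwa [← hs, ContinuousMap.comp_apply, cons_tail] at this
  intro f
  ext w
  refine eq_of_abs_sub_nonpos (le_of_forall_pos_le_add fun ε hε => ?_)
  obtain ⟨n, hn⟩ := exists_osc f hε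
  rw [zero_add]
  exact key ε n f hn w

/-- Miljutin's averaging operator -/
theorem exists_milj : ∃ (φ : C(Ca, I)) (u : C(Ca, ℝ) →ₗ[ℝ] C(I, ℝ)), Mk u ∧
    ∀ g : C(I, ℝ), u (g.comp φ) = g := by
  let r : I := ⟨2 / 3, by norm_num, by norm_num⟩
  have hr : (r : ℝ) = 2 / 3 := rfl
  obtain ⟨φ, hφ⟩ := exists_code r (by rw [hr]; norm_num)
  obtain ⟨U, hU, hU'⟩ := exists_avg (tau r) rho_mem
  refine ⟨φ, U, hU, ?_⟩
  have hc : ∀ (g : C(I, ℝ)) b, (g.comp φ).comp (cons b) = (g.comp (sim r b)).comp φ := by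
    intro g b; ext w; simp [hφ]
  have s0 : ∀ x : I, (x : ℝ) ≤ 2 / 3 → sim r false (tau r false x) = x := by
    intro x hx
    have : x = sim r false ⟨x * (3 / 2), by have := x.2.1; constructor <;> linarith⟩ := by
      ext; show (x : ℝ) = r * (x * (3 / 2)) + 0; rw [hr]; ring
    rw [this, tau_sim r (by rw [hr]; norm_num)]
  have s1 : ∀ x : I, 1 / 3 ≤ (x : ℝ) → sim r true (tau r true x) = x := by
    intro x hx
    have : x = sim r true ⟨(x - 1 / 3) * (3 / 2), by have := x.2.2; constructor <;> linarith⟩ := by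
      ext; show (x : ℝ) = r * ((x - 1 / 3) * (3 / 2)) + (1 - r); rw [hr]; ring
    rw [this, tau_sim r (by rw [hr]; norm_num)]
  have hg : ∀ (g : C(I, ℝ)) x, g x = (1 - rho x) * g (sim r false (tau r false x))
      + rho x * g (sim r true (tau r true x)) := by
    intro g x
    rcases le_total (x : ℝ) (1 / 3) with h | h
    · rw [rho_zero h, s0 x (by linarith)]; ring
    · rcases le_total (x : ℝ) (2 / 3) with h' | h'
      · rw [s0 x h', s1 x h]; ring
      · rw [rho_one h', s1 x h]; ring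
  have key : ∀ (ε : ℝ) (n : ℕ) (g : C(I, ℝ)),
      (∀ s t, dist s t ≤ (r : ℝ) ^ n → g s - g t ≤ ε) → ∀ x, |U (g.comp φ) x - g x| ≤ ε := by
    intro ε n
    induction n with
    | zero =>
      intro g h x
      refine Mk.osc (U := fun g => U (g.comp φ)) (V := id)
        (fun f lo hi h x => hU _ lo hi (fun w => h _) _)
        (fun f lo hi h x => h x) g (fun a b => h a b ?_) x x
      rw [pow_zero]
      show |(a : ℝ) - b| ≤ 1
      rw [abs_le]
      constructor <;> linarith [a.2.1, a.2.2, b.2.1, b.2.2]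
    | succ n ih =>
      intro g h x
      have hb : ∀ b y, |U ((g.comp (sim r b)).comp φ) y - g (sim r b y)| ≤ ε := fun b y =>
        ih (g.comp (sim r b)) (fun s t hst => h _ _ (by
          rw [sim_dist, pow_succ']
          exact mul_le_mul_of_nonneg_left hst r.2.1)) y
      have h0 := abs_le.1 (hb false (tau r false x))
      have h1 := abs_le.1 (hb true (tau r true x))
      have h2 := rho_mem x
      rw [hU', hc, hc, hg g x, abs_le]
      constructor <;> nlinarith [h0.1, h0.2, h1.1, h1.2, h2.1, h2.2]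
  intro g
  ext x
  refine eq_of_abs_sub_nonpos (le_of_forall_pos_le_add fun ε hε => ?_)
  obtain ⟨δ, hδ, hu⟩ := Metric.uniformContinuous_iff.1
    (CompactSpace.uniformContinuous_of_continuous g.continuous) ε hε
  obtain ⟨n, hn⟩ := exists_pow_lt_of_lt_one hδ (show (r : ℝ) < 1 by rw [hr]; norm_num)
  rw [zero_add]
  refine key ε n g (fun s t hst => ?_) x
  exact (le_abs_self _).trans (hu (lt_of_le_of_lt hst hn)).le

end interval

end Pool.Agent.H503Z.PosIso
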