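import Pool.Agent.H503Z.PosAbs
import Pool.Agent.H503Z.PosAvg

set_option autoImplicit false

namespace Pool.Agent.H503Z.PosIso

open Set Filter Topology unitInterval

/-- nonnegativity -/
abbrev Pos (K : Type*) [TopologicalSpace K] : C(K, ℝ) → Prop := fun f => ∀ x, 0 ≤ f x

/-- nonnegativity of functions of two variables -/
abbrev Pos2 : C(Ca, C(Ca, ℝ)) → Prop := fun f => ∀ x y, 0 ≤ f x y

/-- indicator of the first letter being `b` -/
def chi (b : Bool) : C(Ca, ℝ) where
  toFun w := if w 0 = b then 1 else 0
  continuous_toFun :=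
    (continuous_of_discreteTopology (f := fun c : Bool => if c = b then (1 : ℝ) else 0)).comp
      (continuous_apply 0)

lemma chi_apply (b : Bool) (w : Ca) : chi b w = if w 0 = b then 1 else 0 := rfl

/-- composition as a linear map -/
def cmp {K L Y : Type*} [TopologicalSpace K] [TopologicalSpace L] [NormedAddCommGroup Y]
    [NormedSpace ℝ Y] (φ : C(K, L)) : C(L, Y) →ₗ[ℝ] C(K, Y) where
  toFun f := f.comp φ
  map_add' _ _ := rfl
  map_smul' _ _ := rfl

lemma cmp_norm {K L Y : Type*} [TopologicalSpace K] [TopologicalSpace L] [CompactSpace K]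
    [CompactSpace L] [NormedAddCommGroup Y] (φ : C(K, L)) (f : C(L, Y)) :
    ‖f.comp φ‖ ≤ ‖f‖ := by
  rw [ContinuousMap.norm_le _ (norm_nonneg _)]
  exact fun x => f.norm_coe_le_norm _

/-- cut off to one half of the Cantor space -/
def cut {Y : Type*} [NormedAddCommGroup Y] [NormedSpace ℝ Y] (b : Bool) :
    C(Ca, Y) →ₗ[ℝ] C(Ca, Y) where
  toFun f := ⟨fun w => chi b w • f w, by fun_prop⟩
  map_add' f g := by ext1 w; exact smul_add _ _ _
  map_smul' c f := by ext1 w; exact smul_comm _ _ _

lemma cut_apply {Y : Type*} [NormedAddCommGroup Y] [NormedSpace ℝ Y] (b : Bool) (f : C(Ca, Y))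
    (w : Ca) : cut b f w = if w 0 = b then f w else 0 := by
  show chi b w • f w = _
  rw [chi_apply]
  split_ifs <;> simp

lemma cut_norm {Y : Type*} [NormedAddCommGroup Y] [NormedSpace ℝ Y] (b : Bool) (f : C(Ca, Y)) :
    ‖cut b f‖ ≤ ‖f‖ := by
  rw [ContinuousMap.norm_le _ (norm_nonneg _)]
  intro w
  rw [cut_apply]
  split_ifs
  · exact f.norm_coe_le_norm _
  · simp

theorem structB : PB (fun z : C(Ca, ℝ) × C(I, ℝ) => Pos Ca z.1 ∧ Pos I z.2) (Pos I) ∧
    PB (Pos I) (fun z : C(Ca, ℝ) × C(I, ℝ) => Pos Ca z.1 ∧ Pos I z.2) := by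
  obtain ⟨j, e, he, hj⟩ := exists_ext
  have hj' : ∀ f w, e f (j w) = f w := fun f w => congrArg (fun g : C(Ca, ℝ) => g w) (hj f)
  let D : Shift C(I, ℝ) C(Ca, ℝ) :=
    { ι := e ∘ₗ cut true ∘ₗ cmp tail
      π := cmp (cons true) ∘ₗ cmp j
      S := e ∘ₗ cut false ∘ₗ cmp tail ∘ₗ cmp j
      S' := e ∘ₗ cmp (cons false) ∘ₗ cmp j
      Q := e ∘ₗ cmp j
      h1 := fun g => by
        refine congrArg e ?_
        ext w
        show e _ (j (cons false w)) = g (j w)
        rw [hj']
        exact (cut_apply _ _ _).trans (if_pos rfl)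
      h2 := fun g => by
        refine (map_add e _ _).symm.trans (congrArg e ?_)
        ext w
        show cut false _ w + cut true _ w = g (j w)
        rw [cut_apply, cut_apply]
        show (if w 0 = false then e _ (j (tail w)) else 0)
          + (if w 0 = true then g (j (cons true (tail w))) else 0) = _
        rw [hj']
        show (if w 0 = false then g (j (cons false (tail w))) else 0) + _ = _
        have := cons_tail w
        cases h : w 0 <;> rw [h] at this <;> simp [this]
      h3 := fun a => by
        ext w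
        show e _ (j (cons true w)) = a w
        rw [hj']
        exact (cut_apply _ _ _).trans (if_pos rfl)
      h4 := fun g => by
        ext w
        show e _ (j (cons true w)) = 0
        rw [hj']
        exact (cut_apply _ _ _).trans (if_neg (by simp))
      h5 := fun a => by
        refine (congrArg e ?_).trans (map_zero e)
        ext w
        show e _ (j (cons false w)) = 0
        rw [hj']
        exact (cut_apply _ _ _).trans (if_neg (by simp))
      h6 := fun g => by
        show e (cut false (((e (g.comp j)).comp j).comp tail)) = _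
        rw [hj]; rfl
      h7 := fun g => by
        show e (((e (g.comp j)).comp j).comp (cons false)) = _
        rw [hj]; rfl
      nS := fun g => (he.norm_le _).trans ((cut_norm _ _).trans
        ((cmp_norm _ _).trans (cmp_norm _ _)))
      nS' := fun g => (he.norm_le _).trans ((cmp_norm _ _).trans (cmp_norm _ _)) }
  have hcut : ∀ b (f : C(Ca, ℝ)), Pos Ca f → Pos Ca (cut b f) := by
    intro b f hf w
    rw [cut_apply]
    split_ifs
    · exact hf w
    · exact le_rfl
  have hadd : ∀ x y, Pos I x → Pos I y → Pos I (x + y) := fun x y hx hy t =>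
    add_nonneg (hx t) (hy t)
  exact ⟨D.absorb hadd (fun a ha => he.pos _ (hcut _ _ fun w => ha _))
      (fun a ha => he.pos _ (hcut _ _ fun w => ha _)),
    D.emit hadd (fun a ha w => ha _) (fun a ha => he.pos _ fun w => ha _)⟩

/-- the monotone retraction -/
noncomputable def mon : C(Ca, Ca) where
  toFun w n := partialSups w n
  continuous_toFun := continuous_pi fun n =>
    haveI : ContinuousSup Bool := ⟨continuous_of_discreteTopology⟩
    Continuous.partialSups_apply fun k _ => continuous_apply k

lemma mon_mono (w : Ca) : Monotone (mon w) := (partialSups w).monotone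

lemma mon_eq {w : Ca} (h : Monotone w) : mon w = w := h.partialSups_eq

lemma mon_zero (w : Ca) : mon w 0 = w 0 := partialSups_zero w

lemma mono_cons {w : Ca} (h : Monotone w) : Monotone (cons false w) := by
  refine monotone_nat_of_le_succ fun n => ?_
  cases n with
  | zero => exact Bool.false_le _
  | succ n => exact h (Nat.le_succ n)

lemma mono_tail {w : Ca} (h : Monotone w) : Monotone (tail w) :=
  fun _ _ hab => h (Nat.succ_le_succ hab)

lemma mon_true {w : Ca} (h : w 0 = true) : mon w = fun _ => true := by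
  funext n
  have := mon_mono w (Nat.zero_le n)
  rw [mon_zero, h] at this
  exact le_antisymm (Bool.le_true _) this

theorem structA : PB (fun z : C(I, ℝ) × C(Ca, C(Ca, ℝ)) => Pos I z.1 ∧ Pos2 z.2) Pos2 ∧
    PB Pos2 (fun z : C(I, ℝ) × C(Ca, C(Ca, ℝ)) => Pos I z.1 ∧ Pos2 z.2) := by
  obtain ⟨φ, u, hu, hφ⟩ := exists_milj
  have hn : ∀ f : C(Ca, ℝ), ‖(u f).comp φ‖ ≤ ‖f‖ := fun f => (cmp_norm _ _).trans (hu.norm_le f)
  let P : C(Ca, ℝ) →L[ℝ] C(Ca, ℝ) := (cmp φ ∘ₗ u).mkContinuous 1 (fun f => by
    rw [one_mul]; exact hn f)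
  have hP : ∀ f, P f = (u f).comp φ := fun f => rfl
  have hPP : ∀ f, P (P f) = P f := fun f => by rw [hP, hP, hφ]
  let PP : C(Ca, C(Ca, ℝ)) →ₗ[ℝ] C(Ca, C(Ca, ℝ)) :=
    { toFun := fun F => ⟨fun w => P (F w), by fun_prop⟩
      map_add' := fun F G => by ext1 w; exact map_add P _ _
      map_smul' := fun c F => by ext1 w; exact map_smul P _ _ }
  have nPP : ∀ F, ‖PP F‖ ≤ ‖F‖ := by
    intro F
    exact (ContinuousMap.norm_le _ (norm_nonneg F)).2
      fun w => (hn _).trans (F.norm_coe_le_norm w)
  let s : C(Ca, Ca) := (cons false).comp mon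
  let t : C(Ca, Ca) := tail.comp mon
  have ms : ∀ w, mon (s w) = s w := fun w => mon_eq (mono_cons (mon_mono w))
  have mt : ∀ w, mon (t w) = t w := fun w => mon_eq (mono_tail (mon_mono w))
  have mm : ∀ w, mon (mon w) = mon w := fun w => mon_eq (mon_mono w)
  let cst : C(Ca, ℝ) →ₗ[ℝ] C(Ca, C(Ca, ℝ)) :=
    { toFun := fun f => ContinuousMap.const _ f
      map_add' := fun _ _ => rfl
      map_smul' := fun _ _ => rfl }
  let ev : C(Ca, C(Ca, ℝ)) →ₗ[ℝ] C(Ca, ℝ) :=
    { toFun := fun F => F fun _ => true
      map_add' := fun _ _ => rfl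
      map_smul' := fun _ _ => rfl }
  let D : Shift C(Ca, C(Ca, ℝ)) C(I, ℝ) :=
    { ι := cut true ∘ₗ cst ∘ₗ cmp φ
      π := u ∘ₗ ev
      S := cut false ∘ₗ PP ∘ₗ cmp t
      S' := PP ∘ₗ cmp s
      Q := PP ∘ₗ cmp mon
      h1 := fun F => by
        ext1 w
        show P (cut false _ (s w)) = P (F (mon w))
        rw [cut_apply, if_pos (show s w 0 = false from rfl)]
        show P (P (F (tail (mon (s w))))) = _
        rw [hPP, ms]; rfl
      h2 := fun F => by
        ext1 w
        show cut false _ w + cut true _ w = P (F (mon w))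
        rw [cut_apply, cut_apply]
        show (if w 0 = false then P (P (F (cons false (mon (t w))))) else 0)
          + (if w 0 = true then P (F fun _ => true) else 0) = _
        rw [hPP, mt]
        cases h : w 0
        · have := cons_tail (mon w)
          rw [mon_zero, h] at this
          rw [if_pos rfl, if_neg (by simp), add_zero]
          exact congrArg (fun z => P (F z)) this
        · rw [if_neg (by simp), if_pos rfl, zero_add, mon_true h]
      h3 := fun g => by
        show u (cut true _ (fun _ => true)) = g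
        rw [cut_apply, if_pos rfl]
        exact hφ g
      h4 := fun F => by
        show u (cut false _ (fun _ => true)) = 0
        rw [cut_apply, if_neg (by simp), map_zero]
      h5 := fun g => by
        ext1 w
        show P (cut true _ (s w)) = 0
        rw [cut_apply, if_neg (show ¬ s w 0 = true by simp [s]), map_zero]
      h6 := fun F => by
        refine congrArg (cut false) ?_
        ext1 w
        show P (P (F (mon (t w)))) = P (F (t w))
        rw [hPP, mt]
      h7 := fun F => by
        ext1 w
        show P (P (F (mon (s w)))) = P (F (s w))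
        rw [hPP, ms]
      nS := fun F => (cut_norm _ _).trans ((nPP _).trans (cmp_norm _ _))
      nS' := fun F => (nPP _).trans (cmp_norm _ _) }
  have hcut : ∀ b (F : C(Ca, C(Ca, ℝ))), Pos2 F → Pos2 (cut b F) := by
    intro b f hf w y
    rw [cut_apply]
    split_ifs
    · exact hf w y
    · exact le_rfl
  have hadd : ∀ x y, Pos2 x → Pos2 y → Pos2 (x + y) := fun x y hx hy a b =>
    add_nonneg (hx a b) (hy a b)
  exact ⟨D.absorb hadd (fun a ha => hcut _ _ fun w y => ha _)
      (fun a ha => hcut _ _ fun w y => hu.pos _ (ha _) _),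
    D.emit hadd (fun a ha => hu.pos _ (ha _)) (fun a ha w y => hu.pos _ (ha _) _)⟩

theorem kappa : PB (Pos Ca) Pos2 ∧ PB Pos2 (Pos Ca) := by
  let h : Ca ≃ₜ Ca × Ca :=
    (Homeomorph.piCongrLeft (Y := fun _ : ℕ => Bool) Equiv.natSumNatEquivNat).symm.trans
      Homeomorph.sumArrowHomeomorphProdArrow
  let E : C(Ca, ℝ) ≃ₗ[ℝ] C(Ca, C(Ca, ℝ)) :=
    { toFun := fun f => (f.comp (h.symm : C(Ca × Ca, Ca))).curry
      map_add' := fun _ _ => rfl
      map_smul' := fun _ _ => rfl
      invFun := fun F => F.uncurry.comp (h : C(Ca, Ca × Ca))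
      left_inv := fun f => by
        ext w
        exact congrArg f (h.symm_apply_apply w)
      right_inv := fun F => by
        ext x y
        exact congrArg (fun z : Ca × Ca => F z.1 z.2) (h.apply_symm_apply (x, y)) }
  exact ⟨⟨E.toLinearMap, E.bijective, fun f hf x y => hf _⟩,
    ⟨E.symm.toLinearMap, E.symm.bijective, fun F hF w => hF _ _⟩⟩

theorem cantor_to_interval : PB (Pos Ca) (Pos I) :=
  ((kappa.1.trans structA.2).trans (PB.swap kappa.2)).trans structB.1

theorem interval_to_cantor : PB (Pos I) (Pos Ca) :=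
  ((structB.2.trans (PB.swap' kappa.1)).trans structA.1).trans kappa.2

end Pool.Agent.H503Z.PosIso
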