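import Mathlib

set_option autoImplicit false

namespace Pool.Agent.H503Z.Rec

open Finset

/-- binary digits -/
noncomputable def dig (y : ℝ) (n : ℕ) : ℤ := ⌊(2 : ℝ) ^ (n + 1) * y⌋ % 2

/-- occurrences of a block -/
noncomputable def occ (y : ℝ) (N k : ℕ) (w : Fin k → Fin 2) : Finset ℕ :=
  (range N).filter fun n => ∀ i : Fin k, dig y (n + i.val) = ((w i : ℕ) : ℤ)

/-- block entropy -/
noncomputable def ent (y : ℝ) (N k : ℕ) : ℝ :=
  ∑ w : Fin k → Fin 2, Real.negMulLog (((occ y N k w).card : ℝ) / (N : ℝ))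

lemma sum_occ (y : ℝ) (N k : ℕ) : ∑ w : Fin k → Fin 2, (occ y N k w).card ≤ N := by
  rw [← card_biUnion]
  · refine (card_le_card ?_).trans (card_range N).le
    exact biUnion_subset.2 fun w _ => filter_subset _ _
  · intro w _ w' _ h
    refine disjoint_left.2 fun n h1 h2 => h (funext fun i => Fin.ext ?_)
    have a1 := (mem_filter.1 h1).2 i
    have a2 := (mem_filter.1 h2).2 i
    exact_mod_cast a1.symm.trans a2

lemma ent_lower (y : ℝ) (N k : ℕ) (hN : 0 < N)
    (h : ∀ w : Fin k → Fin 2, N ≤ 12 * 2 ^ k * (occ y N k w).card) :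
    (k : ℝ) * (Real.log 2 / 12) ≤ ent y N k := by
  have hN' : (0 : ℝ) < N := by exact_mod_cast hN
  have hT : (0 : ℝ) < 2 ^ k := by positivity
  have hc : (Fintype.card (Fin k → Fin 2) : ℝ) = 2 ^ k := by simp
  set p : (Fin k → Fin 2) → ℝ := fun w => ((occ y N k w).card : ℝ) / N with hp
  have h1 : ∀ w, 1 / (12 * 2 ^ k) ≤ p w := by
    intro w
    rw [hp, div_le_div_iff₀ (by positivity) hN', one_mul, mul_comm]
    exact_mod_cast h w
  have h2 : ∑ w, p w ≤ 1 := by
    rw [hp, ← sum_div, div_le_one hN']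
    exact_mod_cast sum_occ y N k
  have h3 : ∀ w, p w - 1 / (12 * 2 ^ k) ≤ 11 / 12 := by
    intro w
    have a1 : p w - 1 / (12 * 2 ^ k) ≤ ∑ w, (p w - 1 / (12 * 2 ^ k)) :=
      single_le_sum (f := fun w => p w - 1 / (12 * 2 ^ k)) (fun w _ => sub_nonneg.2 (h1 w))
        (mem_univ w)
    rw [sum_sub_distrib, sum_const, card_univ, nsmul_eq_mul, hc] at a1
    have : (2 : ℝ) ^ k * (1 / (12 * 2 ^ k)) = 1 / 12 := by field_simp
    linarith
  have h4 : ∀ w, (k : ℝ) * (Real.log 2 / 12) / 2 ^ k ≤ Real.negMulLog (p w) := by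
    intro w
    set r := (p w - 1 / (12 * 2 ^ k)) * (12 / 11) with hr
    have r0 : 0 ≤ r := mul_nonneg (sub_nonneg.2 (h1 w)) (by norm_num)
    have r1 : r ≤ 1 := by have := h3 w; linarith
    have c := Real.concaveOn_negMulLog.2 (show (1 / 2 ^ k : ℝ) ∈ Set.Ici 0 by simp)
      (show r ∈ Set.Ici 0 from r0) (show (0 : ℝ) ≤ 1 / 12 by norm_num)
      (show (0 : ℝ) ≤ 11 / 12 by norm_num) (by norm_num)
    have e : (1 / 12 : ℝ) • (1 / 2 ^ k : ℝ) + (11 / 12 : ℝ) • r = p w := by
      simp only [smul_eq_mul, hr]; field_simp; ring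
    rw [e] at c
    have e2 : Real.negMulLog (1 / 2 ^ k) = k * Real.log 2 / 2 ^ k := by
      rw [Real.negMulLog, one_div, Real.log_inv, Real.log_pow]; field_simp
    have := Real.negMulLog_nonneg r0 r1
    simp only [smul_eq_mul, e2] at c
    have e3 : (k : ℝ) * (Real.log 2 / 12) / 2 ^ k = 1 / 12 * (k * Real.log 2 / 2 ^ k) := by ring
    linarith
  have h5 := sum_le_sum (s := univ) fun w _ => h4 w
  rw [sum_const, card_univ, nsmul_eq_mul, hc, mul_div_cancel₀ _ hT.ne'] at h5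
  exact h5

/-- the positions of nonzero digits -/
noncomputable def bad (y : ℝ) (N : ℕ) : Finset ℕ := (range N).filter fun n => dig y n ≠ 0

lemma ent_upper (y : ℝ) (h : ∀ j : ℕ, ∃ N₀, ∀ N ≥ N₀, j * (bad y N).card ≤ N) {ε : ℝ}
    (hε : 0 < ε) : ∃ N₀, ∀ N ≥ N₀, ent y N 1 < ε := by
  obtain ⟨δ0, d0, h0⟩ := Metric.continuousAt_iff.1
    (Real.continuous_negMulLog.continuousAt (x := 0)) (ε / 2) (by positivity)
  obtain ⟨δ1, d1, h1⟩ := Metric.continuousAt_iff.1
    (Real.continuous_negMulLog.continuousAt (x := 1)) (ε / 2) (by positivity)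
  obtain ⟨j, hj⟩ := exists_nat_one_div_lt (lt_min d0 d1)
  obtain ⟨N₀, hN⟩ := h (j + 1)
  refine ⟨N₀ + 1, fun N hN' => ?_⟩
  have hNp : (0 : ℝ) < N := by exact_mod_cast (show 0 < N by omega)
  have hb : ((bad y N).card : ℝ) / N < min δ0 δ1 := by
    refine lt_of_le_of_lt ?_ hj
    rw [div_le_div_iff₀ hNp (by positivity), one_mul, mul_comm]
    exact_mod_cast hN N (by omega)
  have key : ∀ w : Fin 1 → Fin 2, Real.negMulLog (((occ y N 1 w).card : ℝ) / N) < ε / 2 := by
    intro w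
    by_cases hw : w 0 = 0
    · have a1 : N ≤ (occ y N 1 w).card + (bad y N).card := by
        refine le_trans (card_range N).ge ((card_le_card ?_).trans (card_union_le _ _))
        intro n hn
        rw [mem_union, occ, bad, mem_filter, mem_filter]
        by_cases hd : dig y n = 0
        · refine Or.inl ⟨hn, fun i => ?_⟩
          obtain rfl : i = 0 := Subsingleton.elim _ _
          simp [hw, hd]
        · exact Or.inr ⟨hn, hd⟩
      have a2 : (occ y N 1 w).card ≤ N := (card_le_card (filter_subset _ _)).trans (card_range N).le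
      have a3 : ((occ y N 1 w).card : ℝ) / N ≤ 1 := by
        rw [div_le_one hNp]; exact_mod_cast a2
      have a4 : 1 ≤ ((occ y N 1 w).card : ℝ) / N + ((bad y N).card : ℝ) / N := by
        rw [← add_div, one_le_div hNp]; exact_mod_cast a1
      have := h1 (x := ((occ y N 1 w).card : ℝ) / N) (by
        rw [Real.dist_eq, abs_lt]
        constructor <;> linarith [min_le_right δ0 δ1])
      rw [Real.dist_eq, Real.negMulLog_one, sub_zero] at this
      exact (abs_lt.1 this).2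
    · have a1 : (occ y N 1 w).card ≤ (bad y N).card := by
        refine card_le_card fun n hn => ?_
        rw [occ, mem_filter] at hn
        refine mem_filter.2 ⟨hn.1, fun hd => hw ?_⟩
        have := hn.2 0
        simp only [Fin.val_zero, add_zero, hd] at this
        exact_mod_cast this.symm
      have a3 : ((occ y N 1 w).card : ℝ) / N ≤ ((bad y N).card : ℝ) / N := by
        gcongr
      have := h0 (x := ((occ y N 1 w).card : ℝ) / N) (by
        rw [Real.dist_eq, sub_zero, abs_of_nonneg (by positivity)]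
        linarith [min_le_left δ0 δ1])
      rw [Real.dist_eq, Real.negMulLog_zero, sub_zero] at this
      exact (abs_lt.1 this).2
  have := sum_lt_sum_of_nonempty (s := univ) univ_nonempty fun w _ => key w
  rw [sum_const, card_univ, nsmul_eq_mul] at this
  have hc : (Fintype.card (Fin 1 → Fin 2) : ℝ) = 2 := by simp
  rw [hc] at this
  unfold ent
  linarith

lemma dig_of_block {y : ℝ} {n l W : ℕ} {Z : ℤ} (hW : W < 2 ^ l)
    (h : ⌊(2 : ℝ) ^ (n + l) * y⌋ = 2 ^ l * Z + W) {i : ℕ} (hi : i < l) :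
    dig y (n + i) = if W.testBit (l - 1 - i) then 1 else 0 := by
  obtain ⟨t, rfl⟩ : ∃ t, l = i + 1 + t := ⟨l - 1 - i, by omega⟩
  have e0 : i + 1 + t - 1 - i = t := by omega
  have e1 : (2 : ℝ) ^ (n + i + 1) * y = (2 : ℝ) ^ (n + (i + 1 + t)) * y / ((2 ^ t : ℕ) : ℝ) := by
    push_cast
    rw [show n + (i + 1 + t) = n + i + 1 + t by ring, pow_add _ _ t]
    field_simp
  unfold dig
  rw [e0, e1, Int.floor_div_natCast, h]
  have e2 : ((2 : ℤ) ^ (i + 1 + t) * Z + W) / ((2 ^ t : ℕ) : ℤ)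
      = ((W / 2 ^ t : ℕ) : ℤ) + 2 * (2 ^ i * Z) := by
    push_cast
    rw [show (2 : ℤ) ^ (i + 1 + t) * Z + W = W + 2 ^ t * (2 * (2 ^ i * Z)) by ring,
      Int.add_mul_ediv_left _ _ (by positivity)]
  rw [e2, Int.add_mul_emod_self_left, Nat.testBit_eq_decide_div_mod_eq]
  have := Nat.mod_two_eq_zero_or_one (W / 2 ^ t)
  split_ifs with h1
  · rw [decide_eq_true_iff] at h1
    exact_mod_cast h1
  · rw [decide_eq_true_iff] at h1
    exact_mod_cast (show W / 2 ^ t % 2 = 0 by omega)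

/-- length of the rich word -/
def len (K : ℕ) : ℕ := 2 * K * 2 ^ (2 * K)

/-- the rich word -/
def word (K : ℕ) : ℕ :=
  Nat.ofBits fun j : Fin (len K) =>
    ((len K - 1 - j) / (2 * K)).testBit ((len K - 1 - j) % (2 * K))

lemma word_lt (K : ℕ) : word K < 2 ^ len K := Nat.ofBits_lt_two_pow _

lemma word_bit (K : ℕ) {i : ℕ} (hi : i < len K) :
    (word K).testBit (len K - 1 - i) = (i / (2 * K)).testBit (i % (2 * K)) := by
  rw [word, Nat.testBit_ofBits_lt _ _ (by omega)]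
  have : len K - 1 - (len K - 1 - i) = i := by omega
  simp only [this]

lemma occ_lower {y : ℝ} {K A n₀ N : ℕ} (hN : n₀ + 2 * len K * A ≤ N)
    (h : ∀ a < A, ∃ Z : ℤ, ⌊(2 : ℝ) ^ (n₀ + 2 * len K * a + len K) * y⌋ = 2 ^ len K * Z + word K)
    {k : ℕ} (hk : k ≤ K) (w : Fin k → Fin 2) :
    A * K * 2 ^ (2 * K - k) ≤ (occ y N k w).card := by
  let om : ℕ := Nat.ofBits fun t : Fin k => decide (w t = 1)
  have hom : om < 2 ^ k := Nat.ofBits_lt_two_pow _
  let b : ℕ → ℕ → ℕ := fun i c => 2 ^ i * (2 ^ k * (c / 2 ^ i) + om) + c % 2 ^ i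
  have hb : ∀ i < K, ∀ c < 2 ^ (2 * K - k), b i c < 2 ^ (2 * K) := by
    intro i hi c hc
    obtain ⟨t, ht⟩ : ∃ t, 2 * K = i + k + t := ⟨2 * K - i - k, by omega⟩
    have e : 2 * K - k = i + t := by omega
    rw [e, pow_add] at hc
    have h1 : c / 2 ^ i < 2 ^ t := Nat.div_lt_of_lt_mul hc
    have h2 : c % 2 ^ i < 2 ^ i := Nat.mod_lt _ (by positivity)
    have h3 : 2 ^ k * (c / 2 ^ i) + om + 1 ≤ 2 ^ k * 2 ^ t := by nlinarith
    have h4 := Nat.mul_le_mul_left (2 ^ i) h3
    rw [ht, pow_add, pow_add]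
    show 2 ^ i * (2 ^ k * (c / 2 ^ i) + om) + c % 2 ^ i < _
    nlinarith
  have hbi : ∀ i c c', b i c = b i c' → c = c' := by
    intro i c c' hc
    have h2 : ∀ c, c % 2 ^ i < 2 ^ i := fun c => Nat.mod_lt _ (by positivity)
    have h1 : ∀ c, b i c % 2 ^ i = c % 2 ^ i := fun c => by
      show (2 ^ i * (2 ^ k * (c / 2 ^ i) + om) + c % 2 ^ i) % 2 ^ i = _
      rw [Nat.mul_add_mod, Nat.mod_mod]
    have h3 : c % 2 ^ i = c' % 2 ^ i := by rw [← h1, hc, h1]
    have h4 : 2 ^ i * (2 ^ k * (c / 2 ^ i) + om) = 2 ^ i * (2 ^ k * (c' / 2 ^ i) + om) := by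
      have : 2 ^ i * (2 ^ k * (c / 2 ^ i) + om) + c % 2 ^ i
        = 2 ^ i * (2 ^ k * (c' / 2 ^ i) + om) + c' % 2 ^ i := hc
      omega
    have h5 := Nat.eq_of_mul_eq_mul_left (by positivity) h4
    have h6 := Nat.eq_of_mul_eq_mul_left (show 0 < 2 ^ k by positivity) (Nat.add_right_cancel h5)
    rw [← Nat.div_add_mod c (2 ^ i), ← Nat.div_add_mod c' (2 ^ i), h3, h6]
  have hlt : ∀ i < K, ∀ c < 2 ^ (2 * K - k), ∀ t < 2 * K, 2 * K * b i c + t < len K := by
    intro i hi c hc t ht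
    have := hb i hi c hc
    unfold len
    nlinarith
  let f : (ℕ × ℕ) × ℕ → ℕ := fun z => n₀ + 2 * len K * z.1.1 + (2 * K * b z.1.2 z.2 + z.1.2)
  have hcard : A * K * 2 ^ (2 * K - k)
      = ((range A ×ˢ range K) ×ˢ range (2 ^ (2 * K - k))).card := by simp
  rw [hcard]
  refine card_le_card_of_injOn f ?_ ?_
  · rintro ⟨⟨a, i⟩, c⟩ hz
    simp only [coe_product, coe_range, Set.mem_prod, Set.mem_Iio] at hz
    obtain ⟨⟨ha, hi⟩, hc⟩ := hz
    obtain ⟨Z, hZ⟩ := h a ha
    refine mem_coe.2 (mem_filter.2 ⟨mem_range.2 ?_, fun t => ?_⟩)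
    · have := hlt i hi c hc i (by omega)
      show n₀ + 2 * len K * a + (2 * K * b i c + i) < N
      nlinarith
    · have ht := t.2
      have h1 := hlt i hi c hc (i + t) (by omega)
      show dig y (n₀ + 2 * len K * a + (2 * K * b i c + i) + t) = _
      rw [add_assoc, add_assoc (2 * K * b i c), dig_of_block (word_lt K) hZ h1, word_bit K h1,
        Nat.mul_add_mod, Nat.mod_eq_of_lt (show i + t < 2 * K by omega),
        Nat.mul_add_div (by omega), Nat.div_eq_of_lt (show i + t < 2 * K by omega), add_zero]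
      show (if (2 ^ i * (2 ^ k * (c / 2 ^ i) + om) + c % 2 ^ i).testBit (i + t) then 1 else 0) = _
      rw [Nat.testBit_two_pow_mul_add _ (Nat.mod_lt _ (by positivity)), if_neg (show ¬ i + t < i by omega),
        Nat.add_sub_cancel_left, Nat.testBit_two_pow_mul_add _ hom, if_pos ht,
        Nat.testBit_ofBits_lt _ _ ht]
      have : w t = 0 ∨ w t = 1 := by omega
      rcases this with h2 | h2 <;> simp [h2]
  · rintro ⟨⟨a, i⟩, c⟩ hz ⟨⟨a', i'⟩, c'⟩ hz' he
    simp only [coe_product, coe_range, Set.mem_prod, Set.mem_Iio] at hz hz'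
    obtain ⟨⟨ha, hi⟩, hc⟩ := hz
    obtain ⟨⟨ha', hi'⟩, hc'⟩ := hz'
    have h1 := hlt i hi c hc i (by omega)
    have h2 := hlt i' hi' c' hc' i' (by omega)
    have he : 2 * len K * a + (2 * K * b i c + i) = 2 * len K * a' + (2 * K * b i' c' + i') := by
      have : n₀ + 2 * len K * a + (2 * K * b i c + i)
        = n₀ + 2 * len K * a' + (2 * K * b i' c' + i') := he
      omega
    have h3 := congrArg (· % (2 * len K)) he
    simp only [Nat.mul_add_mod] at h3
    rw [Nat.mod_eq_of_lt (by omega), Nat.mod_eq_of_lt (by omega)] at h3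
    have h4 : a = a' := Nat.eq_of_mul_eq_mul_left (show 0 < 2 * len K by omega) (by omega)
    have h5 := congrArg (· % (2 * K)) h3
    simp only [Nat.mul_add_mod] at h5
    rw [Nat.mod_eq_of_lt (by omega), Nat.mod_eq_of_lt (by omega)] at h5
    subst h4 h5
    have h6 : b i c = b i c' := Nat.eq_of_mul_eq_mul_left (show 0 < 2 * K by omega) (by omega)
    rw [hbi i c c' h6]

end Pool.Agent.H503Z.Rec
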