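import Pool.Agent.H503Z.RecA

set_option autoImplicit false

namespace Pool.Agent.H503Z.Rec

open Finset

section chain

variable {p M w s : ℕ → ℕ} (hp0 : p 0 = 1) (hM0 : M 0 = 0)
  (hp : ∀ j, p (j + 1) = p j * (2 ^ s j + w j)) (hM : ∀ j, M (j + 1) = M j + s j)
  (hw : ∀ j, w j ≤ p j) (hs : ∀ j, (j + 3) * (3 * M j + 8) ≤ s j)
include hp0 hM0 hp hM hw hs

lemma chain_bounds (j : ℕ) : (1 : ℝ) ≤ p j / 2 ^ M j ∧ (p j : ℝ) / 2 ^ M j ≤ 2 - 1 / 2 ^ j ∧
    (p j : ℝ) / 2 ^ M j ≤ p (j + 1) / 2 ^ M (j + 1) ∧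
    (p (j + 1) : ℝ) / 2 ^ M (j + 1) ≤ p j / 2 ^ M j + 4 * 2 ^ M j / 2 ^ s j := by
  have e : ∀ j, (p (j + 1) : ℝ) / 2 ^ M (j + 1)
      = p j / 2 ^ M j + p j / 2 ^ M j * (w j / 2 ^ s j) := by
    intro j
    rw [hp, hM, pow_add]; push_cast; field_simp
  have step : ∀ j, (p j : ℝ) / 2 ^ M j ≤ 2 →
      (p (j + 1) : ℝ) / 2 ^ M (j + 1) ≤ p j / 2 ^ M j + 4 * 2 ^ M j / 2 ^ s j := by
    intro j h
    rw [e, add_le_add_iff_left]
    have h1 : (w j : ℝ) ≤ 2 * 2 ^ M j := by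
      rw [div_le_iff₀ (by positivity)] at h
      exact le_trans (by exact_mod_cast hw j) h
    calc (p j : ℝ) / 2 ^ M j * (w j / 2 ^ s j) ≤ 2 * (2 * 2 ^ M j / 2 ^ s j) := by gcongr
      _ = _ := by ring
  have mono : ∀ j, (p j : ℝ) / 2 ^ M j ≤ p (j + 1) / 2 ^ M (j + 1) := by
    intro j
    rw [e, le_add_iff_nonneg_right]; positivity
  have main : ∀ j, (1 : ℝ) ≤ p j / 2 ^ M j ∧ (p j : ℝ) / 2 ^ M j ≤ 2 - 1 / 2 ^ j := by
    intro j
    induction j with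
    | zero => rw [hp0, hM0]; norm_num
    | succ j ih =>
      refine ⟨ih.1.trans (mono j), ?_⟩
      have h1 := step j (ih.2.trans (sub_le_self _ (by positivity)))
      have h2 : (4 : ℝ) * 2 ^ M j / 2 ^ s j ≤ 1 / 2 ^ (j + 1) := by
        rw [div_le_div_iff₀ (by positivity) (by positivity), one_mul]
        calc (4 : ℝ) * 2 ^ M j * 2 ^ (j + 1) = 2 ^ (M j + j + 3) := by ring
          _ ≤ _ := pow_le_pow_right₀ (by norm_num) (by nlinarith [hs j])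
      have h3 : (1 : ℝ) / 2 ^ j = 2 * (1 / 2 ^ (j + 1)) := by rw [pow_succ]; field_simp
      linarith [ih.2]
  exact ⟨(main j).1, (main j).2, mono j,
    step j ((main j).2.trans (sub_le_self _ (by positivity)))⟩

lemma chain_limit : ∃ x : ℝ, ∀ j, (p j : ℝ) / 2 ^ M j ≤ x ∧
    x ≤ p j / 2 ^ M j + 8 * 2 ^ M j / 2 ^ s j := by
  have hb := chain_bounds hp0 hM0 hp hM hw hs
  have m1 : Monotone fun j => (p j : ℝ) / 2 ^ M j := monotone_nat_of_le_succ fun j => (hb j).2.2.1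
  have m2 : Antitone fun j => (p j : ℝ) / 2 ^ M j + 8 * 2 ^ M j / 2 ^ s j := by
    refine antitone_nat_of_succ_le fun j => ?_
    have h1 := (hb j).2.2.2
    have h2 : (8 : ℝ) * 2 ^ M (j + 1) / 2 ^ s (j + 1) ≤ 4 * 2 ^ M j / 2 ^ s j := by
      rw [div_le_div_iff₀ (by positivity) (by positivity)]
      calc (8 : ℝ) * 2 ^ M (j + 1) * 2 ^ s j = 4 * 2 ^ (M (j + 1) + s j + 1) := by ring
        _ ≤ 4 * 2 ^ (M j + s (j + 1)) := by
          have := hs (j + 1)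
          have := hM j
          exact mul_le_mul_of_nonneg_left (pow_le_pow_right₀ (by norm_num) (by nlinarith))
            (by norm_num)
        _ = _ := by ring
    have h3 : (8 : ℝ) * 2 ^ M j / 2 ^ s j = 2 * (4 * 2 ^ M j / 2 ^ s j) := by ring
    linarith
  have h : ∀ i j, (p i : ℝ) / 2 ^ M i ≤ p j / 2 ^ M j + 8 * 2 ^ M j / 2 ^ s j := fun i j =>
    (m1 (le_max_left i j)).trans ((le_add_of_nonneg_right (by positivity)).trans
      (m2 (le_max_right i j)))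
  exact ⟨⨆ j, (p j : ℝ) / 2 ^ M j, fun j =>
    ⟨le_ciSup (f := fun j => (p j : ℝ) / 2 ^ M j) ⟨_, by rintro _ ⟨i, rfl⟩; exact h i 0⟩ j,
      ciSup_le fun i => h i j⟩⟩

omit hp0 hp hw in
lemma chain_sparse {x : ℝ} (hx : ∀ j, (p j : ℝ) / 2 ^ M j ≤ x ∧
    x ≤ p j / 2 ^ M j + 8 * 2 ^ M j / 2 ^ s j) (J : ℕ) :
    ∃ N₀, ∀ N ≥ N₀, J * (bad x N).card ≤ N := by
  have hd : ∀ j n, M j ≤ n → n + M j + 5 ≤ s j → dig x n = 0 := by
    intro j n h1 h2
    obtain ⟨t, rfl⟩ := Nat.exists_eq_add_of_le h1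
    have e : ⌊(2 : ℝ) ^ (M j + t + 1) * x⌋ = 2 * (2 ^ t * p j) := by
      rw [Int.floor_eq_iff]
      push_cast
      have e1 : (2 : ℝ) * (2 ^ t * p j) = 2 ^ (M j + t + 1) * (p j / 2 ^ M j) := by
        field_simp; ring
      rw [e1]
      refine ⟨by gcongr; exact (hx j).1, ?_⟩
      have h3 : (2 : ℝ) ^ (M j + t + 1) * (8 * 2 ^ M j / 2 ^ s j) < 1 := by
        rw [← mul_div_assoc, div_lt_one (by positivity)]
        calc (2 : ℝ) ^ (M j + t + 1) * (8 * 2 ^ M j) = 2 ^ (M j + t + M j + 4) := by ring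
          _ < _ := pow_lt_pow_right₀ (by norm_num) (by omega)
      have h4 := mul_le_mul_of_nonneg_left (hx j).2 (show (0 : ℝ) ≤ 2 ^ (M j + t + 1) by positivity)
      rw [mul_add] at h4
      linarith
    unfold dig
    rw [e]
    omega
  have hmono : StrictMono M := strictMono_nat_of_lt_succ fun j => by
    have := hs j
    rw [hM]; nlinarith
  refine ⟨M (2 * J + 1), fun N hN => ?_⟩
  obtain ⟨j, hj1, hj2, hj3⟩ : ∃ j, 2 * J ≤ j ∧ M (j + 1) ≤ N ∧ N < M (j + 2) := by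
    have hex : ∃ i, N < M (i + 1) := ⟨N, lt_of_lt_of_le (Nat.lt_succ_self N) (hmono.le_apply)⟩
    have h1 := Nat.find_spec hex
    have h2 : 2 * J < Nat.find hex := by
      by_contra hc
      have := hmono.monotone (show Nat.find hex + 1 ≤ 2 * J + 1 by omega)
      omega
    obtain ⟨j, hj⟩ : ∃ j, Nat.find hex = j + 1 := ⟨Nat.find hex - 1, by omega⟩
    have h3 := Nat.find_min hex (show j < Nat.find hex by omega)
    rw [hj] at h1
    exact ⟨j, by omega, by omega, h1⟩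
  have hsub : bad x N ⊆ range (M j) ∪ Ico (s j - M j - 4) (M (j + 1))
      ∪ Ico (s (j + 1) - M (j + 1) - 4) N := by
    intro n hn
    rw [bad, mem_filter, mem_range] at hn
    simp only [mem_union, mem_range, mem_Ico]
    by_contra hc
    have a1 := hd j n
    have a2 := hd (j + 1) n
    have := hn.2
    omega
  have hc := (card_le_card hsub).trans ((card_union_le _ _).trans
    (Nat.add_le_add_right (card_union_le _ _) _))
  rw [card_range, Nat.card_Ico, Nat.card_Ico] at hc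
  have s1 := hs j
  have s2 := hs (j + 1)
  have m1 := hM j
  have m2 := hM (j + 1)
  have hj3' : N < M (j + 1 + 1) := hj3
  have t1 : 3 * (3 * M j + 8) ≤ s j := le_trans (Nat.mul_le_mul_right _ (by omega)) s1
  have t2 : 3 * (3 * M (j + 1) + 8) ≤ s (j + 1) := le_trans (Nat.mul_le_mul_right _ (by omega)) s2
  have u1 : 2 * J * (M j + (M (j + 1) - (s j - M j - 4))) ≤ N := by
    calc 2 * J * (M j + (M (j + 1) - (s j - M j - 4))) ≤ (j + 3) * (3 * M j + 8) :=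
          Nat.mul_le_mul (by omega) (by omega)
      _ ≤ N := by omega
  have u2 : 2 * J * (N - (s (j + 1) - M (j + 1) - 4)) ≤ N := by
    by_cases h : N ≤ s (j + 1) - M (j + 1) - 4
    · rw [Nat.sub_eq_zero_of_le h]; omega
    · have v1 : 2 * J * (N - (s (j + 1) - M (j + 1) - 4)) ≤ (j + 3) * (3 * M (j + 1) + 8) :=
        Nat.mul_le_mul (by omega) (by omega)
      have v2 : (j + 1 + 3) * (3 * M (j + 1) + 8)
          = (j + 3) * (3 * M (j + 1) + 8) + (3 * M (j + 1) + 8) := by ring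
      omega
  have := Nat.mul_le_mul_left (2 * J) hc
  nlinarith

end chain

lemma block_est {p l M A W s w a : ℕ} {x : ℝ} (hp : 0 < p) (hW : W < 2 ^ l)
    (hs : s = 2 * l * A + (M + l) + 8)
    (hw : w = (2 ^ s + p * (2 ^ l + 1 - (W + 1))) % (p * (2 ^ l + 1)))
    (h1 : (1 : ℝ) ≤ (p * (2 ^ l + 1) : ℕ) / 2 ^ (M + l))
    (h2 : ((p * (2 ^ l + 1) : ℕ) : ℝ) / 2 ^ (M + l) ≤ 2)
    (h3 : ((p * (2 ^ l + 1) * (2 ^ s + w) : ℕ) : ℝ) / 2 ^ (M + l + s) ≤ x)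
    (h4 : x ≤ ((p * (2 ^ l + 1) * (2 ^ s + w) : ℕ) : ℝ) / 2 ^ (M + l + s) + 1 / 2 ^ (2 * s))
    (ha : a < A) :
    ∃ Z : ℤ, ⌊(2 : ℝ) ^ (2 * l * A + 8 + 2 * l * a + l) * x⁻¹⌋ = 2 ^ l * Z + W := by
  obtain ⟨D, hD⟩ : ∃ D : ℕ, p * (2 ^ l + 1) * D + w = 2 ^ s + p * (2 ^ l + 1 - (W + 1)) :=
    ⟨_, hw ▸ Nat.div_add_mod _ _⟩
  have hwl : w < p * (2 ^ l + 1) := hw ▸ Nat.mod_lt _ (by positivity)
  obtain ⟨t, ht⟩ : ∃ t : ℤ, (2 : ℤ) ^ (2 * l * a) - 1 = (2 ^ l + 1) * t := by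
    have d1 : (2 : ℤ) ^ (2 * l) - 1 ∣ (2 ^ (2 * l)) ^ a - 1 := by
      simpa using sub_dvd_pow_sub_pow ((2 : ℤ) ^ (2 * l)) 1 a
    have d2 : (2 : ℤ) ^ l + 1 ∣ 2 ^ (2 * l) - 1 := ⟨2 ^ l - 1, by ring⟩
    rw [← pow_mul] at d1
    exact d2.trans d1
  have hD' : (p : ℝ) * (2 ^ l + 1) * D + w = 2 ^ s + p * (2 ^ l + 1 - (W + 1)) := by
    have := congrArg (Nat.cast : ℕ → ℝ) hD
    rw [Nat.cast_add, Nat.cast_add, Nat.cast_mul p (_ - _), Nat.cast_sub (by omega)] at this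
    push_cast at this
    exact this
  have ht' : (2 : ℝ) ^ (2 * l * a) = 1 + (2 ^ l + 1) * t := by
    have := congrArg (Int.cast : ℤ → ℝ) ht
    push_cast at this
    linarith
  have hp' : (0 : ℝ) < p := by exact_mod_cast hp
  have hW' : (W : ℝ) + 1 ≤ 2 ^ l := by exact_mod_cast hW
  push_cast at h1 h2 h3 h4
  set q : ℝ := 2 ^ l + 1 with hq
  have hq0 : 0 < q := by positivity
  set x' : ℝ := p * q / 2 ^ (M + l) with hx'
  set η : ℝ := w / 2 ^ s with hη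
  have e1 : (p : ℝ) * q * (2 ^ s + w) / 2 ^ (M + l + s) = x' * (1 + η) := by
    rw [hx', hη, pow_add _ (M + l) s]; field_simp
  rw [e1] at h3 h4
  have η0 : 0 ≤ η := by positivity
  have η1 : η ≤ 2 * 2 ^ (M + l) / 2 ^ s := by
    rw [hx', div_le_iff₀ (by positivity)] at h2
    have : (w : ℝ) ≤ p * q := by
      rw [hq]; exact_mod_cast hwl.le
    rw [hη]; gcongr; linarith
  have x0 : 0 < x' := by linarith
  have x1 : 1 ≤ x' * (1 + η) := by nlinarith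
  have xp : 0 < x := by linarith
  have b1 : x⁻¹ ≤ (1 - η) / x' + η ^ 2 := by
    have c1 : x⁻¹ ≤ (x' * (1 + η))⁻¹ := inv_anti₀ (by linarith) h3
    have c2 : (x' * (1 + η))⁻¹ = (1 - η) / x' + η ^ 2 / (x' * (1 + η)) := by
      field_simp; ring
    have c3 : η ^ 2 / (x' * (1 + η)) ≤ η ^ 2 := div_le_self (by positivity) x1
    linarith
  have b2 : (1 - η) / x' - 1 / 2 ^ (2 * s) ≤ x⁻¹ := by
    have c2 : (x' * (1 + η))⁻¹ = (1 - η) / x' + η ^ 2 / (x' * (1 + η)) := by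
      field_simp; ring
    have c3 : 0 ≤ η ^ 2 / (x' * (1 + η)) := by positivity
    have c4 : (x' * (1 + η))⁻¹ - x⁻¹ = (x - x' * (1 + η)) / (x' * (1 + η) * x) := by
      field_simp
    have c5 : (x - x' * (1 + η)) / (x' * (1 + η) * x) ≤ x - x' * (1 + η) :=
      div_le_self (by linarith) (by nlinarith)
    linarith
  set n := 2 * l * A + 8 + 2 * l * a + l with hn
  have e2 : (2 : ℝ) ^ n * ((1 - η) / x')
      = 2 ^ l * (t * (W + 1) + 2 ^ (2 * l * a) * (D - 1)) + W + (1 - (W + 1) / q) := by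
    have f1 : (2 : ℝ) ^ s - w = p * (W + 1) + p * q * (D - 1) := by linarith
    have f2 : (2 : ℝ) ^ n * 2 ^ (M + l) = 2 ^ s * (2 ^ (2 * l * a) * 2 ^ l) := by
      rw [← pow_add, ← pow_add, ← pow_add]; congr 1; omega
    have f3 : (2 : ℝ) ^ n * ((1 - η) / x')
        = 2 ^ n * 2 ^ (M + l) * (2 ^ s - w) / (2 ^ s * (p * q)) := by
      rw [hx', hη]; field_simp
    rw [f3, f1, f2, ht']
    have f4 : (2 : ℝ) ^ l = q - 1 := by rw [hq]; ring
    rw [f4]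
    field_simp
    ring
  have err : (2 : ℝ) ^ n * (4 * 2 ^ (2 * (M + l)) / 2 ^ (2 * s)) < 1 / q := by
    rw [← mul_div_assoc, div_lt_div_iff₀ (by positivity) hq0, one_mul]
    have g1 : q ≤ 2 * 2 ^ l := by
      have : (1 : ℝ) ≤ 2 ^ l := one_le_pow₀ (by norm_num)
      linarith
    calc (2 : ℝ) ^ n * (4 * 2 ^ (2 * (M + l))) * q
        ≤ 2 ^ n * (4 * 2 ^ (2 * (M + l))) * (2 * 2 ^ l) := by gcongr
      _ = 2 ^ (n + 2 * (M + l) + l + 3) := by ring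
      _ < _ := pow_lt_pow_right₀ (by norm_num) (by nlinarith)
  have er1 : η ^ 2 ≤ 4 * 2 ^ (2 * (M + l)) / 2 ^ (2 * s) := by
    calc η ^ 2 ≤ (2 * 2 ^ (M + l) / 2 ^ s) ^ 2 := by gcongr
      _ = _ := by field_simp; ring
  have er2 : (1 : ℝ) / 2 ^ (2 * s) ≤ 4 * 2 ^ (2 * (M + l)) / 2 ^ (2 * s) := by
    have : (1 : ℝ) ≤ 2 ^ (2 * (M + l)) := one_le_pow₀ (by norm_num)
    gcongr; linarith
  refine ⟨t * (W + 1) + 2 ^ (2 * l * a) * (D - 1), ?_⟩
  rw [Int.floor_eq_iff]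
  push_cast
  have hn0 : (0 : ℝ) ≤ 2 ^ n := by positivity
  have k1 := mul_le_mul_of_nonneg_left b1 hn0
  have k2 := mul_le_mul_of_nonneg_left b2 hn0
  have k3 := mul_le_mul_of_nonneg_left er1 hn0
  have k4 := mul_le_mul_of_nonneg_left er2 hn0
  rw [mul_add, e2] at k1
  rw [mul_sub, e2] at k2
  have k5 : 1 / q ≤ (W + 1) / q := by gcongr; linarith [Nat.cast_nonneg (α := ℝ) W]
  have k6 : (W + 1) / q ≤ 1 - 1 / q := by
    rw [le_sub_iff_add_le, ← add_div, div_le_one hq0]; linarith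
  constructor <;> linarith

/-- the scale -/
def KK (j M : ℕ) : ℕ := (j + 3) * (3 * M + 8)

/-- the data of a step: state is current and previous numerator and exponent -/
def sw (j : ℕ) (t : (ℕ × ℕ) × ℕ × ℕ) : ℕ × ℕ :=
  if j % 2 = 0 then (len (KK j t.1.2), 1) else
    (2 * len (KK (j - 1) t.2.2) * KK j t.1.2 + t.1.2 + 8,
      (2 ^ (2 * len (KK (j - 1) t.2.2) * KK j t.1.2 + t.1.2 + 8)
        + t.2.1 * (2 ^ len (KK (j - 1) t.2.2) + 1 - (word (KK (j - 1) t.2.2) + 1))) % t.1.1)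

/-- the states -/
def st : ℕ → (ℕ × ℕ) × ℕ × ℕ
  | 0 => ((1, 0), (1, 0))
  | j + 1 => (((st j).1.1 * (2 ^ (sw j (st j)).1 + (sw j (st j)).2), (st j).1.2 + (sw j (st j)).1),
      (st j).1)

lemma st_pos (j : ℕ) : 0 < (st j).1.1 := by
  induction j with
  | zero => exact one_pos
  | succ j ih => exact Nat.mul_pos ih (by positivity)

lemma le_len (K : ℕ) : K ≤ len K := by
  unfold len
  have : 1 ≤ 2 ^ (2 * K) := Nat.one_le_two_pow
  nlinarith

lemma final_count {A K k c : ℕ} (hA1 : 1 ≤ A) (hK1 : 1 ≤ K) (hk : k ≤ K)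
    (h : A * K * 2 ^ (2 * K - k) ≤ c) :
    2 * len K * A + 8 + 2 * len K * A ≤ 12 * 2 ^ k * c := by
  have f1 : 2 ^ k * 2 ^ (2 * K - k) = 2 ^ (2 * K) := by
    rw [← pow_add]; congr 1; omega
  have f3 : 2 ≤ 2 ^ (2 * K) := by
    calc 2 = 2 ^ 1 := rfl
      _ ≤ _ := Nat.pow_le_pow_right (by norm_num) (by omega)
  have f4 := Nat.mul_le_mul_left (12 * 2 ^ k) h
  refine le_trans ?_ f4
  have f5 : 12 * 2 ^ k * (A * K * 2 ^ (2 * K - k)) = 12 * (A * K * 2 ^ (2 * K)) := by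
    rw [← f1]; ring
  have f6 : 1 * 1 * 2 ≤ A * K * 2 ^ (2 * K) := Nat.mul_le_mul (Nat.mul_le_mul hA1 hK1) f3
  have f7 : len K * A = 2 * (A * K * 2 ^ (2 * K)) := by unfold len; ring
  rw [f5, mul_assoc 2 (len K), f7]
  omega

theorem exists_example : ∃ x : ℝ, x ≠ 0 ∧ (∀ ε > 0, ∃ N₀, ∀ N ≥ N₀, ent x N 1 < ε) ∧
    ∀ K N₀ : ℕ, ∃ N ≥ N₀, ∀ k ≤ K, (k : ℝ) * (Real.log 2 / 12) ≤ ent x⁻¹ N k := by
  set p : ℕ → ℕ := fun j => (st j).1.1 with hpd
  set M : ℕ → ℕ := fun j => (st j).1.2 with hMd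
  set s : ℕ → ℕ := fun j => (sw j (st j)).1 with hsd
  set w : ℕ → ℕ := fun j => (sw j (st j)).2 with hwd
  have hp0 : p 0 = 1 := rfl
  have hM0 : M 0 = 0 := rfl
  have hp : ∀ j, p (j + 1) = p j * (2 ^ s j + w j) := fun j => rfl
  have hM : ∀ j, M (j + 1) = M j + s j := fun j => rfl
  have hw : ∀ j, w j ≤ p j := by
    intro j
    simp only [hwd, hpd, sw]
    split_ifs
    · exact st_pos j
    · exact (Nat.mod_lt _ (st_pos j)).le
  have hK : ∀ j M, 1 ≤ KK j M := fun j M => Nat.mul_pos (by omega) (by omega)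
  have hs : ∀ j, (j + 3) * (3 * M j + 8) ≤ s j := by
    intro j
    simp only [hsd, hMd, sw]
    split_ifs
    · exact le_len _
    · have h1 := (hK _ _).trans (le_len (KK (j - 1) (st j).2.2))
      show KK j (st j).1.2 ≤ _
      nlinarith
  obtain ⟨x, hx⟩ := chain_limit hp0 hM0 hp hM hw hs
  have hb := chain_bounds hp0 hM0 hp hM hw hs
  refine ⟨x, ?_, fun ε hε => ent_upper x (chain_sparse hM0 hM hs hx) hε, fun K N₀ => ?_⟩
  · have := (hb 0).1.trans (hx 0).1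
    linarith
  set j := 2 * (K + N₀) with hj
  set K' := KK j (M j) with hK'
  set l := len K' with hl
  have e1 : s j = l := by simp only [hsd, sw, if_pos (show j % 2 = 0 by omega)]; rfl
  have e2 : w j = 1 := by simp only [hwd, sw, if_pos (show j % 2 = 0 by omega)]
  set A := KK (j + 1) (M (j + 1)) with hA
  have e3 : s (j + 1) = 2 * l * A + (M j + l) + 8 := by
    simp only [hsd, sw, if_neg (show ¬ (j + 1) % 2 = 0 by omega)]
    rw [← e1, ← hM, e1]; rfl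
  have e4 : w (j + 1) = (2 ^ s (j + 1) + p j * (2 ^ l + 1 - (word K' + 1)))
      % (p j * (2 ^ l + 1)) := by
    have f1 : p j * (2 ^ l + 1) = p (j + 1) := by rw [hp, e1, e2]
    rw [f1]
    simp only [hwd, hsd, sw, if_neg (show ¬ (j + 1) % 2 = 0 by omega)]
    rfl
  have e5 : p (j + 1) = p j * (2 ^ l + 1) := by rw [hp, e1, e2]
  have e6 : M (j + 1) = M j + l := by rw [hM, e1]
  have b1 := (hb (j + 1)).1
  have b2 : (p (j + 1) : ℝ) / 2 ^ M (j + 1) ≤ 2 :=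
    (hb (j + 1)).2.1.trans (sub_le_self _ (by positivity))
  have b3 := (hx (j + 1 + 1)).1
  have b4 : x ≤ p (j + 1 + 1) / 2 ^ M (j + 1 + 1) + 1 / 2 ^ (2 * s (j + 1)) := by
    refine (hx (j + 1 + 1)).2.trans ?_
    rw [add_le_add_iff_left, div_le_div_iff₀ (by positivity) (by positivity), one_mul]
    calc (8 : ℝ) * 2 ^ M (j + 1 + 1) * 2 ^ (2 * s (j + 1))
        = 2 ^ (M (j + 1 + 1) + 2 * s (j + 1) + 3) := by ring
      _ ≤ _ := by
        refine pow_le_pow_right₀ (by norm_num) ?_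
        have := hs (j + 1 + 1)
        have := hM (j + 1)
        nlinarith
  rw [hp (j + 1), hM (j + 1)] at b3 b4
  rw [e5, e6] at b1 b2 b3 b4
  have hKK : K + N₀ ≤ K' := by
    rw [hK', KK]; nlinarith
  have hA1 : 1 ≤ A := hK _ _
  have hK1 : 1 ≤ K' := hK _ _
  have hl1 : K' ≤ l := le_len _
  refine ⟨2 * l * A + 8 + 2 * l * A, by nlinarith, fun k hk => ent_lower _ _ _ (by omega) fun v => ?_⟩
  have := occ_lower (y := x⁻¹) (K := K') (A := A) (n₀ := 2 * l * A + 8) le_rfl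
    (fun a ha => block_est (st_pos j) (word_lt K') e3 e4 b1 b2 b3 b4 ha) (show k ≤ K' by omega) v
  exact final_count hA1 hK1 (by omega) this

end Pool.Agent.H503Z.Rec
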