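import Mathlib

set_option autoImplicit false

namespace Pool.Agent.H503Z.Rig

open Filter Topology Set MeasureTheory
open scoped Classical

/-- the dyadic integers -/
abbrev Z2 : Type := ℤ_[2]

/-- even valuation -/
def P (z : Z2) : Prop := ∃ k : ℕ, ‖z‖ = (1 / 2 : ℝ) ^ (2 * k)

lemma half_inj {a b : ℕ} (h : (1 / 2 : ℝ) ^ a = (1 / 2) ^ b) : a = b :=
  pow_right_injective₀ (by norm_num) (by norm_num) h

lemma P_iff {z : Z2} {m : ℕ} (h : ‖z‖ = (1 / 2 : ℝ) ^ m) : P z ↔ Even m := by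
  constructor
  · rintro ⟨k, hk⟩
    exact ⟨k, by rw [half_inj (h.symm.trans hk)]; ring⟩
  · rintro ⟨k, rfl⟩
    exact ⟨k, by rw [h, two_mul]⟩

lemma P_congr {z w : Z2} (h : ‖z‖ = ‖w‖) : P z ↔ P w := by unfold P; rw [h]

lemma norm_add_of_lt {z w : Z2} (h : ‖w‖ < ‖z‖) : ‖z + w‖ = ‖z‖ := by
  rw [PadicInt.norm_add_eq_max_of_ne h.ne', max_eq_left h.le]

lemma P_succ {z : Z2} (h : ¬ P z) : P (z + 1) := by
  have h1 : ‖z‖ < ‖(1 : Z2)‖ := by
    rw [norm_one]
    exact lt_of_le_of_ne z.norm_le_one fun h1 => h ⟨0, by simpa using h1⟩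
  exact ⟨0, by rw [add_comm, norm_add_of_lt h1]; simp⟩

lemma zp (m : ℕ) : ((2 : ℕ) : ℝ) ^ (-m : ℤ) = (1 / 2) ^ m := by simp

lemma norm_two_pow (m : ℕ) : ‖(2 : Z2) ^ m‖ = (1 / 2) ^ m := by
  rw [← zp]; exact PadicInt.norm_p_pow m

lemma norm_int_le {k : ℤ} {m : ℕ} : ‖(k : Z2)‖ ≤ (1 / 2) ^ m ↔ (2 ^ m : ℤ) ∣ k := by
  rw [← zp]; exact PadicInt.norm_int_le_pow_iff_dvd

lemma exists_appr (z : Z2) (m : ℕ) : ∃ u : ℕ, u < 2 ^ m ∧ ‖z - u‖ ≤ (1 / 2) ^ m :=
  ⟨z.appr m, z.appr_lt m, by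
    rw [← zp]; exact (PadicInt.norm_le_pow_iff_mem_span_pow _ m).2 (PadicInt.appr_spec m z)⟩

lemma half_lt {a b : ℕ} (h : a < b) : (1 / 2 : ℝ) ^ b < (1 / 2) ^ a :=
  pow_lt_pow_right_of_lt_one₀ (by norm_num) (by norm_num) h

lemma half_le {a b : ℕ} (h : a ≤ b) : (1 / 2 : ℝ) ^ b ≤ (1 / 2) ^ a :=
  pow_le_pow_of_le_one (by norm_num) (by norm_num) h

/-- the period doubling system over the dyadic odometer -/
def XS : Set (Z2 × (ℤ → Bool)) := {x | ∀ n : ℤ, x.1 + n ≠ 0 → x.2 n = decide (P (x.1 + n))}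

lemma XS_closed : IsClosed XS := by
  refine isClosed_of_closure_subset fun x hx n hn => ?_
  have h1 : {y : Z2 × (ℤ → Bool) | y.2 n = x.2 n} ∈ 𝓝 x :=
    (((continuous_apply n).comp continuous_snd).continuousAt.preimage_mem_nhds
      ((isOpen_discrete {x.2 n}).mem_nhds rfl))
  have h2 : {y : Z2 × (ℤ → Bool) | ‖y.1 - x.1‖ < ‖x.1 + n‖} ∈ 𝓝 x :=
    (isOpen_lt (by fun_prop) continuous_const).mem_nhds (by simpa using hn)
  obtain ⟨y, ⟨hy1, hy2⟩, hy⟩ := mem_closure_iff_nhds.1 hx _ (inter_mem h1 h2)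
  have h3 : ‖y.1 + n‖ = ‖x.1 + n‖ := by
    rw [← norm_add_of_lt hy2]; congr 1; ring
  have h4 : y.1 + n ≠ 0 := by
    rw [← norm_ne_zero_iff, h3, norm_ne_zero_iff]; exact hn
  rw [← hy1, hy n h4, decide_eq_decide]
  exact P_congr h3

/-- the space -/
abbrev X : Type := XS

instance : CompactSpace X := isCompact_iff_compactSpace.1 XS_closed.isCompact

/-- shift by an integer -/
noncomputable def sh (k : ℤ) (x : X) : X :=
  ⟨(x.1.1 + k, fun n => x.1.2 (n + k)), fun n hn => by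
    have e : x.1.1 + k + n = x.1.1 + ((n + k : ℤ) : Z2) := by push_cast; ring
    simp only at hn ⊢
    rw [e] at hn ⊢
    exact x.2 _ hn⟩

lemma sh_cont (k : ℤ) : Continuous (sh k) := by
  refine Continuous.subtype_mk (Continuous.prodMk (by fun_prop) (continuous_pi fun n => ?_)) _
  exact (continuous_apply (n + k)).comp (continuous_snd.comp continuous_subtype_val)

lemma sh_add (k l : ℤ) (x : X) : sh k (sh l x) = sh (k + l) x := by
  refine Subtype.ext (Prod.ext ?_ ?_)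
  · show x.1.1 + l + k = x.1.1 + ((k + l : ℤ) : Z2)
    push_cast; ring
  · funext n
    show x.1.2 (n + k + l) = x.1.2 (n + (k + l))
    rw [add_assoc]

lemma sh_zero (x : X) : sh 0 x = x := by
  refine Subtype.ext (Prod.ext ?_ ?_)
  · show x.1.1 + ((0 : ℤ) : Z2) = x.1.1
    simp
  · funext n
    show x.1.2 (n + 0) = x.1.2 n
    rw [add_zero]

/-- the homeomorphism -/
noncomputable def T : X ≃ₜ X where
  toFun := sh 1
  invFun := sh (-1)
  left_inv x := by rw [sh_add]; exact sh_zero x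
  right_inv x := by rw [sh_add]; exact sh_zero x
  continuous_toFun := sh_cont 1
  continuous_invFun := sh_cont (-1)

lemma T_iter (n : ℕ) (x : X) : (⇑T)^[n] x = sh n x := by
  induction n with
  | zero => exact (sh_zero x).symm
  | succ n ih =>
    rw [Function.iterate_succ_apply', ih]
    show sh 1 (sh n x) = _
    rw [sh_add]; push_cast; rw [add_comm]

lemma approx (x y : X) : ∃ n : ℕ → ℕ, Tendsto (fun L => sh (n L) x) atTop (𝓝 y) ∧
    ∀ L, sh (n L) x ≠ y := by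
  obtain ⟨e, he⟩ : ∃ e : ℕ, ∀ j : ℤ, y.1.1 + j = 0 → y.1.2 j = decide (Even e) := by
    by_cases h : ∃ j : ℤ, y.1.1 + j = 0
    · obtain ⟨j, hj⟩ := h
      refine ⟨if y.1.2 j = true then 0 else 1, fun i hi => ?_⟩
      have : (i : Z2) = j := by linear_combination hi - hj
      rw [Int.cast_injective this]
      cases y.1.2 j <;> simp
    · exact ⟨0, fun j hj => absurd ⟨j, hj⟩ h⟩
  choose n _ hn using fun L : ℕ => exists_appr (y.1.1 + 2 ^ (2 * L + e) - x.1.1) (2 * L + e + 1)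
  have hu : ∀ L, ‖x.1.1 + n L - y.1.1‖ = (1 / 2) ^ (2 * L + e) := by
    intro L
    have h1 : ‖-(y.1.1 + 2 ^ (2 * L + e) - x.1.1 - n L)‖ < ‖(2 : Z2) ^ (2 * L + e)‖ := by
      rw [norm_neg, norm_two_pow]
      exact (hn L).trans_lt (half_lt (by omega))
    rw [← norm_two_pow, ← norm_add_of_lt h1]
    congr 1; ring
  have ht : Tendsto (fun L : ℕ => (1 / 2 : ℝ) ^ (2 * L + e)) atTop (𝓝 0) :=
    (tendsto_pow_atTop_nhds_zero_of_lt_one (by norm_num) (by norm_num)).comp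
      (tendsto_atTop_mono (fun L => show L ≤ 2 * L + e by omega) tendsto_id)
  refine ⟨n, ?_, fun L h => ?_⟩
  · rw [tendsto_subtype_rng]
    refine Tendsto.prodMk_nhds ?_ (tendsto_pi_nhds.2 fun j => ?_)
    · rw [tendsto_iff_norm_sub_tendsto_zero]
      exact ht.congr fun L => by rw [← hu]; simp [sh]
    · refine tendsto_const_nhds.congr' ?_
      by_cases hj : y.1.1 + j = 0
      · refine Eventually.of_forall fun L => ?_
        show y.1.2 j = x.1.2 (j + (n L : ℤ))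
        have e1 : x.1.1 + ((j + (n L : ℤ) : ℤ) : Z2) = x.1.1 + n L - y.1.1 := by
          push_cast; linear_combination hj
        have e2 : x.1.1 + ((j + (n L : ℤ) : ℤ) : Z2) ≠ 0 := by
          rw [e1, ← norm_ne_zero_iff, hu]; positivity
        rw [he j hj, x.2 _ e2, e1, decide_eq_decide, P_iff (hu L)]
        simp [Nat.even_add]
      · filter_upwards [ht.eventually (gt_mem_nhds (norm_pos_iff.2 hj))] with L hL
        show y.1.2 j = x.1.2 (j + (n L : ℤ))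
        rw [← hu] at hL
        have e1 : ‖x.1.1 + ((j + (n L : ℤ) : ℤ) : Z2)‖ = ‖y.1.1 + j‖ := by
          rw [← norm_add_of_lt hL]; congr 1; push_cast; ring
        have e2 : x.1.1 + ((j + (n L : ℤ) : ℤ) : Z2) ≠ 0 := by
          rw [← norm_ne_zero_iff, e1, norm_ne_zero_iff]; exact hj
        rw [y.2 j hj, x.2 _ e2, decide_eq_decide]
        exact P_congr e1.symm
  · have h1 : x.1.1 + ((n L : ℤ) : Z2) = y.1.1 := congrArg (fun w : X => w.1.1) h
    have h2 := hu L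
    rw [Int.cast_natCast] at h1
    rw [h1, sub_self, norm_zero] at h2
    exact absurd h2 (by positivity)

lemma perfect (x : X) : (𝓝[≠] x).NeBot := by
  obtain ⟨n, h1, h2⟩ := approx x x
  exact (tendsto_nhdsWithin_iff.2 ⟨h1, Eventually.of_forall h2⟩).neBot

lemma minimal (x : X) : Dense {y : X | ∃ n : ℕ, (⇑T)^[n] x = y ∨ (⇑T.symm)^[n] x = y} := by
  intro y
  obtain ⟨n, h1, -⟩ := approx x y
  exact mem_closure_of_tendsto h1 (Eventually.of_forall fun L => ⟨n L, Or.inl (T_iter _ _)⟩)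

/-- the clopen set -/
def A : Set X := {x | x.1.2 0 = true}

lemma A_clopen : IsClopen A :=
  (isClopen_discrete {true}).preimage
    ((continuous_apply (0 : ℤ)).comp (continuous_snd.comp continuous_subtype_val))

/-- the first return map -/
noncomputable def S (x : X) : X := if T x ∈ A then T x else T (T x)

lemma TT_mem {x : X} (h : T x ∉ A) : T (T x) ∈ A := by
  set y := T x
  have h0 : y.1.2 0 ≠ true := h
  have h1 : ‖y.1.1‖ < ‖(1 : Z2)‖ := by
    rw [norm_one]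
    refine lt_of_le_of_ne y.1.1.norm_le_one fun h1 => h0 ?_
    have e : y.1.1 + ((0 : ℤ) : Z2) = y.1.1 := by simp
    rw [y.2 0 (by rw [e, ← norm_ne_zero_iff, h1]; exact one_ne_zero), e, decide_eq_true_iff]
    exact ⟨0, by simpa using h1⟩
  have h2 : ‖y.1.1 + ((0 + 1 : ℤ) : Z2)‖ = 1 := by
    push_cast
    rw [add_comm, norm_add_of_lt h1, norm_one]
  show y.1.2 (0 + 1) = true
  rw [y.2 _ (by rw [← norm_ne_zero_iff, h2]; exact one_ne_zero), decide_eq_true_iff]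
  exact ⟨0, by simpa using h2⟩

lemma S_spec (x : X) : ∃ r : ℕ, 0 < r ∧ S x = (⇑T)^[r] x ∧ (⇑T)^[r] x ∈ A ∧
    ∀ j : ℕ, 0 < j → j < r → (⇑T)^[j] x ∉ A := by
  by_cases h : T x ∈ A
  · exact ⟨1, one_pos, if_pos h, h, fun j h1 h2 => by omega⟩
  · refine ⟨2, two_pos, if_neg h, TT_mem h, fun j h1 h2 => ?_⟩
    obtain rfl : j = 1 := by omega
    exact h

/-- the section -/
noncomputable def sec (z : Z2) : X := ⟨(z, fun n => decide (P (z + n))), fun _ _ => rfl⟩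

lemma sh_sec (k : ℤ) (z : Z2) : sh k (sec z) = sec (z + k) := by
  refine Subtype.ext (Prod.ext rfl ?_)
  funext n
  show decide (P (z + ((n + k : ℤ) : Z2))) = decide (P (z + k + n))
  congr 2; push_cast; ring

lemma T_sec (z : Z2) : T (sec z) = sec (z + 1) := by
  show sh 1 (sec z) = _
  rw [sh_sec]; simp

lemma sec_mem {z : Z2} : sec z ∈ A ↔ P z := by
  show decide (P (z + ((0 : ℤ) : Z2))) = true ↔ _
  simp

/-- number of visits -/
noncomputable def C (z : Z2) (m : ℕ) : ℕ :=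
  ∑ i ∈ Finset.range m, if P (z + (i + 1 : ℕ)) then 1 else 0

lemma C_succ (z : Z2) (m : ℕ) : C z (m + 1) = C z m + if P (z + (m + 1 : ℕ)) then 1 else 0 :=
  Finset.sum_range_succ _ _

lemma C_two (z : Z2) (m : ℕ) : C z m + 1 ≤ C z (m + 2) := by
  rw [C_succ, C_succ]
  by_cases h : P (z + (m + 1 : ℕ))
  · rw [if_pos h]; omega
  · have := P_succ h
    rw [if_pos (show P (z + (m + 1 + 1 : ℕ)) by push_cast at this ⊢; rwa [← add_assoc])]
    omega

lemma C_mono (z : Z2) : Monotone (C z) :=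
  monotone_nat_of_le_succ fun m => by rw [C_succ]; omega

lemma S_iter (z : Z2) (n : ℕ) :
    ∃ R : ℕ, n ≤ R ∧ R ≤ 2 * n ∧ C z R = n ∧ S^[n] (sec z) = sec (z + R) := by
  induction n with
  | zero => exact ⟨0, le_rfl, le_rfl, rfl, by simp⟩
  | succ n ih =>
    obtain ⟨R, h1, h2, h3, h4⟩ := ih
    rw [Function.iterate_succ_apply', h4]
    have e1 : z + R + 1 = z + (R + 1 : ℕ) := by push_cast; ring
    have e2 : z + (R + 1 : ℕ) + 1 = z + (R + 1 + 1 : ℕ) := by push_cast; ring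
    unfold S
    rw [T_sec, T_sec, sec_mem, e1, e2]
    by_cases h : P (z + (R + 1 : ℕ))
    · exact ⟨R + 1, by omega, by omega, by rw [C_succ, if_pos h, h3], if_pos h⟩
    · refine ⟨R + 1 + 1, by omega, by omega, ?_, if_neg h⟩
      rw [C_succ, C_succ, if_neg h, if_pos (e2 ▸ P_succ h), h3]

lemma C_flip {z : Z2} {K j : ℕ} (hj : 1 ≤ j)
    (hw : ‖z + j - 2 ^ K‖ ≤ (1 / 2) ^ (K + 2)) {R : ℕ} (h1 : j ≤ R) (h2 : R < 2 ^ K) :
    C z R + (if Even K then 0 else 1) = C (z + 2 ^ K) R + (if Even K then 1 else 0) := by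
  have n1 : ‖z + j‖ = (1 / 2) ^ K := by
    have : ‖z + j - 2 ^ K‖ < ‖(2 : Z2) ^ K‖ := by
      rw [norm_two_pow]; exact hw.trans_lt (half_lt (by omega))
    rw [← norm_two_pow, ← norm_add_of_lt this]; congr 1; ring
  have n2 : ‖z + 2 ^ K + j‖ = (1 / 2) ^ (K + 1) := by
    have : ‖z + j - 2 ^ K‖ < ‖(2 : Z2) ^ (K + 1)‖ := by
      rw [norm_two_pow]; exact hw.trans_lt (half_lt (by omega))
    rw [← norm_two_pow, ← norm_add_of_lt this]; congr 1; ring
  have hne : ∀ i : ℕ, i < 2 ^ K → i ≠ j → j < 2 ^ K → (P (z + i) ↔ P (z + 2 ^ K + i)) := by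
    intro i hi hij hjK
    have a1 : (1 / 2 : ℝ) ^ K < ‖(((i : ℤ) - j : ℤ) : Z2)‖ := by
      rw [← not_le, norm_int_le]
      intro hd
      have h3 : (i : ℤ) < 2 ^ K := by exact_mod_cast hi
      have h4 : (j : ℤ) < 2 ^ K := by exact_mod_cast hjK
      have := Int.eq_zero_of_abs_lt_dvd hd (by rw [abs_lt]; constructor <;> omega)
      omega
    apply P_congr
    have b1 : ‖z + j‖ < ‖(((i : ℤ) - j : ℤ) : Z2)‖ := n1 ▸ a1
    have b2 : ‖z + 2 ^ K + j‖ < ‖(((i : ℤ) - j : ℤ) : Z2)‖ :=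
      n2 ▸ (half_lt (by omega)).trans a1
    have c1 := norm_add_of_lt b1
    have c2 := norm_add_of_lt b2
    rw [← c2] at c1
    convert c1 using 2 <;> push_cast <;> ring
  obtain ⟨j, rfl⟩ : ∃ i, j = i + 1 := ⟨j - 1, by omega⟩
  have hmem : j ∈ Finset.range R := Finset.mem_range.2 (by omega)
  unfold C
  rw [← Finset.add_sum_erase _ _ hmem, ← Finset.add_sum_erase _ _ hmem]
  have e : ∑ i ∈ (Finset.range R).erase j, (if P (z + (i + 1 : ℕ)) then 1 else 0)
      = ∑ i ∈ (Finset.range R).erase j, (if P (z + 2 ^ K + (i + 1 : ℕ)) then 1 else 0) := by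
    refine Finset.sum_congr rfl fun i hi => ?_
    rw [Finset.mem_erase, Finset.mem_range] at hi
    rw [hne (i + 1) (by omega) (by omega) (by omega)]
  rw [e, P_iff n1, P_iff n2, Nat.even_add_one]
  by_cases h : Even K <;> simp [h] <;> ring

/-- the test set -/
def B : Set X := {x | ‖x.1.1 - 1‖ ≤ (1 / 2) ^ 2}

lemma B_sub : B ⊆ A := by
  intro x hx
  have h1 : ‖x.1.1 - 1‖ < ‖(1 : Z2)‖ := by
    rw [norm_one]; exact lt_of_le_of_lt hx (by norm_num)
  have h2 : ‖x.1.1 + ((0 : ℤ) : Z2)‖ = 1 := by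
    have := norm_add_of_lt h1
    simpa using this
  show x.1.2 0 = true
  rw [x.2 _ (by rw [← norm_ne_zero_iff, h2]; exact one_ne_zero), decide_eq_true_iff]
  exact ⟨0, by simpa using h2⟩

lemma B_closed : IsClosed B := isClosed_le (by fun_prop) continuous_const

lemma four_dvd {z : Z2} {R : ℕ} (h1 : sec z ∈ B) (h2 : sec (z + R) ∈ B) : 4 ∣ R := by
  have a1 : ‖z - 1‖ ≤ (1 / 2) ^ 2 := h1
  have a2 : ‖z + R - 1‖ ≤ (1 / 2) ^ 2 := h2
  have a3 : ‖((R : ℤ) : Z2)‖ ≤ (1 / 2) ^ 2 := by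
    have := PadicInt.nonarchimedean (z + (R : Z2) - 1) (-(z - 1))
    rw [norm_neg] at this
    refine le_trans (le_of_eq ?_) (this.trans (max_le a2 a1))
    congr 1; push_cast; ring
  rw [norm_int_le] at a3
  exact_mod_cast a3

lemma key {z : Z2} {K j n : ℕ} (hK : 2 ≤ K) (hj : 4 ∣ j + 1) (hjn : j ≤ n) (hn : 2 * n < 2 ^ K)
    (hw : ‖z + j - 2 ^ K‖ ≤ (1 / 2) ^ (K + 2)) :
    (sec z ∈ B ∧ S^[n] (sec z) ∉ B) ∨
      (sec (z + 2 ^ K) ∈ B ∧ S^[n] (sec (z + 2 ^ K)) ∉ B) := by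
  have m0 : ‖(2 : Z2) ^ K‖ ≤ (1 / 2) ^ 2 := by rw [norm_two_pow]; exact half_le hK
  have m1 : ‖((j + 1 : ℤ) : Z2)‖ ≤ (1 / 2) ^ 2 := norm_int_le.2 (by exact_mod_cast hj)
  have m2 : ‖z + j - 2 ^ K‖ ≤ (1 / 2) ^ 2 := hw.trans (half_le (by omega))
  have b1 : ‖z - 1‖ ≤ (1 / 2) ^ 2 := by
    have e : z - 1 = (z + j - 2 ^ K) + (2 ^ K + -((j + 1 : ℤ) : Z2)) := by push_cast; ring
    rw [e]
    refine (PadicInt.nonarchimedean _ _).trans (max_le m2
      ((PadicInt.nonarchimedean _ _).trans (max_le m0 (by rwa [norm_neg]))))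
  have b2 : ‖z + 2 ^ K - 1‖ ≤ (1 / 2) ^ 2 := by
    have e : z + 2 ^ K - 1 = (z - 1) + 2 ^ K := by ring
    rw [e]
    exact (PadicInt.nonarchimedean _ _).trans (max_le b1 m0)
  by_contra hc
  push Not at hc
  have c1 := hc.1 b1
  have c2 := hc.2 b2
  obtain ⟨R, r1, r2, r3, r4⟩ := S_iter z n
  obtain ⟨R', s1, s2, s3, s4⟩ := S_iter (z + 2 ^ K) n
  rw [r4] at c1
  rw [s4] at c2
  have d1 := four_dvd b1 c1
  have d2 := four_dvd b2 c2
  have f := C_flip (by omega) hw (R := R) (by omega) (by omega)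
  have g : ∀ a b : ℕ, a + 4 ≤ b → C (z + 2 ^ K) a + 2 ≤ C (z + 2 ^ K) b := by
    intro a b hab
    have := C_two (z + 2 ^ K) a
    have := C_two (z + 2 ^ K) (a + 2)
    have := C_mono (z + 2 ^ K) (show a + 2 + 2 ≤ b by omega)
    omega
  rcases lt_trichotomy R R' with h | h | h
  · have := g R R' (by omega)
    split_ifs at f <;> omega
  · subst h
    split_ifs at f <;> omega
  · have := g R' R (by omega)
    split_ifs at f <;> omega

end Pool.Agent.H503Z.Rig
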