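import Pool.Agent.H503Z.RigA

set_option autoImplicit false

namespace Pool.Agent.H503Z.Rig

open Filter Topology Set MeasureTheory
open scoped Classical symmDiff ENNReal

noncomputable instance mZ : MeasurableSpace Z2 := borel Z2
instance : BorelSpace Z2 := ⟨rfl⟩

/-- Haar measure -/
noncomputable def nu : Measure Z2 := Measure.addHaarMeasure ⊤

instance : nu.IsAddHaarMeasure := by unfold nu; infer_instance

instance : IsProbabilityMeasure nu := ⟨by
  have := Measure.addHaarMeasure_self (G := Z2) (K₀ := ⊤)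
  simpa [nu] using this⟩

lemma sec_meas : Measurable sec := by
  refine Measurable.subtype_mk (Measurable.prodMk measurable_id (measurable_pi_lambda _ fun n => ?_))
  refine measurable_to_bool ?_
  have : (fun z : Z2 => decide (P (z + n))) ⁻¹' {true}
      = ⋃ k : ℕ, {z : Z2 | ‖z + n‖ = (1 / 2 : ℝ) ^ (2 * k)} := by
    ext z; simp [P]
  rw [this]
  exact MeasurableSet.iUnion fun k => (isClosed_eq (by fun_prop) continuous_const).measurableSet

/-- the invariant measure -/
noncomputable def mu : Measure X := nu.map sec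

instance : IsProbabilityMeasure mu := Measure.isProbabilityMeasure_map sec_meas.aemeasurable

lemma T_pres : MeasurePreserving T mu mu := by
  refine ⟨T.continuous.measurable, ?_⟩
  unfold mu
  rw [Measure.map_map T.continuous.measurable sec_meas]
  have : T ∘ sec = sec ∘ fun z => z + 1 := funext T_sec
  rw [this, ← Measure.map_map sec_meas (measurable_add_const 1), map_add_right_eq_self]

lemma rigid : ∃ n : ℕ → ℕ, StrictMono n ∧ (∀ k, 0 < n k) ∧ ∀ B : Set X, MeasurableSet B →
    Tendsto (fun k => mu (((⇑T)^[n k] ⁻¹' B) ∆ B)) atTop (𝓝 0) := by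
  refine ⟨fun k => 2 ^ k, fun a b h => Nat.pow_lt_pow_right (by norm_num) h,
    fun k => by positivity, fun B hB => ?_⟩
  let f : Z2 → C(Z2, Z2) := fun a => ⟨fun z => z + a, by fun_prop⟩
  have hf : Continuous f := ContinuousMap.continuous_of_continuous_uncurry f
    (show Continuous fun p : Z2 × Z2 => p.2 + p.1 by fun_prop)
  have h0 : Tendsto (fun k : ℕ => (2 : Z2) ^ k) atTop (𝓝 0) := by
    rw [tendsto_zero_iff_norm_tendsto_zero]
    simp only [norm_two_pow]
    exact tendsto_pow_atTop_nhds_zero_of_lt_one (by norm_num) (by norm_num)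
  have h1 := tendsto_measure_symmDiff_preimage_nhds_zero (μ := nu) (ν := nu)
    ((hf.tendsto 0).comp h0) (s := sec ⁻¹' B)
    (Eventually.of_forall fun k => measurePreserving_add_right nu _)
    (measurePreserving_add_right nu _) (sec_meas hB).nullMeasurableSet (measure_ne_top _ _)
  refine h1.congr fun k => ?_
  unfold mu
  rw [Measure.map_apply sec_meas ((T.continuous.measurable.iterate _ hB).symmDiff hB)]
  congr 1
  ext z
  simp only [mem_symmDiff, mem_preimage, T_iter, sh_sec, f, Function.comp_apply,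
    ContinuousMap.coe_mk, add_zero]
  push_cast
  rfl

lemma A_pos : mu A ≠ 0 := by
  unfold mu
  rw [Measure.map_apply sec_meas A_clopen.isOpen.measurableSet]
  have h1 : Metric.ball (1 : Z2) (1 / 4) ⊆ sec ⁻¹' A := fun z hz => B_sub (by
    rw [mem_ball_iff_norm] at hz
    show ‖z - 1‖ ≤ _
    linarith)
  exact ((Metric.measure_ball_pos nu 1 (by norm_num)).trans_le (measure_mono h1)).ne'

lemma lower (n : ℕ) (hn : 3 ≤ n) : (1 : ℝ≥0∞) ≤ 1000 * mu ((A ∩ S^[n] ⁻¹' B) ∆ B) := by
  obtain ⟨K, hK1, hK2⟩ : ∃ K : ℕ, 2 * n < 2 ^ K ∧ 2 ^ K ≤ 4 * n := by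
    refine ⟨Nat.log 2 (2 * n) + 1, Nat.lt_pow_succ_log_self (by norm_num) _, ?_⟩
    have := Nat.pow_log_le_self 2 (show 2 * n ≠ 0 by omega)
    rw [pow_succ]; omega
  have hK : 2 ≤ K := by
    by_contra h
    have : 2 ^ K ≤ 2 ^ 1 := Nat.pow_le_pow_right (by norm_num) (by omega)
    omega
  set D := sec ⁻¹' ((A ∩ S^[n] ⁻¹' B) ∆ B) with hD
  have hDle : nu D ≤ mu ((A ∩ S^[n] ⁻¹' B) ∆ B) := Measure.le_map_apply sec_meas.aemeasurable _
  set m := (n + 1) / 4 with hm
  have m1 : 1 ≤ m := by omega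
  have cover : (univ : Set Z2) ⊆ ⋃ q ∈ (Finset.range 4 ×ˢ Finset.range 100) ×ˢ Finset.range 2,
      (fun z => z + ((q.1.1 + 4 * m * q.1.2 + q.2 * 2 ^ K : ℕ) : Z2)) ⁻¹' D := by
    intro z _
    obtain ⟨u, hu1, hu2⟩ := exists_appr (2 ^ K - 3 - z) (K + 2)
    have ht : u / 4 / m < 100 := by
      rw [Nat.div_lt_iff_lt_mul (by omega)]
      rw [pow_add] at hu1
      omega
    have hi : u / 4 % m < m := Nat.mod_lt _ (by omega)
    have hu : u = u % 4 + 4 * m * (u / 4 / m) + 4 * (u / 4 % m) := by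
      have h1 := Nat.div_add_mod (u / 4) m
      have h2 := Nat.div_add_mod u 4
      nlinarith
    have hk := key (z := z + ((u % 4 + 4 * m * (u / 4 / m) : ℕ) : Z2)) (K := K)
      (j := 3 + 4 * (u / 4 % m)) (n := n) hK (by omega) (by omega) hK1 (by
        rw [← norm_neg]
        refine le_trans (le_of_eq ?_) hu2
        congr 1
        conv_rhs => rw [hu]
        push_cast; ring)
    simp only [mem_iUnion, mem_preimage, Finset.mem_product, Finset.mem_range, hD, mem_symmDiff,
      mem_inter_iff]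
    rcases hk with h | h
    · refine ⟨((u % 4, u / 4 / m), 0), ⟨⟨Nat.mod_lt _ (by norm_num), ht⟩, by norm_num⟩,
        Or.inr ?_⟩
      simp only [zero_mul, add_zero]
      exact ⟨h.1, fun h' => h.2 h'.2⟩
    · refine ⟨((u % 4, u / 4 / m), 1), ⟨⟨Nat.mod_lt _ (by norm_num), ht⟩, by norm_num⟩,
        Or.inr ?_⟩
      have e : z + ((u % 4 + 4 * m * (u / 4 / m) + 1 * 2 ^ K : ℕ) : Z2)
          = z + ((u % 4 + 4 * m * (u / 4 / m) : ℕ) : Z2) + 2 ^ K := by push_cast; ring
      simp only [e]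
      exact ⟨h.1, fun h' => h.2 h'.2⟩
  have h1 := (measure_mono (μ := nu) cover).trans (measure_biUnion_finset_le _ _)
  simp only [measure_preimage_add_right, measure_univ, Finset.sum_const, Finset.card_product,
    Finset.card_range, nsmul_eq_mul] at h1
  refine h1.trans ?_
  gcongr
  norm_num

theorem not_rigid : ¬ ∃ n : ℕ → ℕ, StrictMono n ∧ (∀ k, 0 < n k) ∧
    ∀ B : Set X, MeasurableSet B → B ⊆ A →
      Tendsto (fun k => mu ((A ∩ S^[n k] ⁻¹' B) ∆ B)) atTop (𝓝 0) := by
  rintro ⟨n, h1, -, h3⟩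
  have h4 := ENNReal.Tendsto.const_mul (a := 1000) (h3 B B_closed.measurableSet B_sub)
    (Or.inr (by norm_num))
  rw [mul_zero] at h4
  have h5 : ∀ᶠ k in atTop, (1 : ℝ≥0∞) ≤ 1000 * mu ((A ∩ S^[n k] ⁻¹' B) ∆ B) := by
    filter_upwards [eventually_ge_atTop 3] with k hk
    exact lower _ (hk.trans (h1.le_apply))
  exact absurd (ge_of_tendsto h4 h5) (by norm_num)

end Pool.Agent.H503Z.Rig
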