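import Mathlib
import Pool.Agent.H503Z.ErgGrowth
import Pool.Agent.H503Z.SwComb

set_option autoImplicit false

namespace Pool.Agent.H503Z.Sw

open Finset
open Pool.Agent.H503Z.Erg (ratio_nat mono_of_ratio pow_of_ratio)

section growth

variable {a : ℕ → ℕ} {N0 : ℕ}

/-- window length for the blocks with index in `[2^s, 2^(s+1))` -/
def Wd (q s : ℕ) : ℕ := (s + 1 + q) * 2 ^ (s + 1 + q) + 1

lemma Wd_small {q s j : ℕ} (hq : 2 ≤ q) (hs : 3 ≤ s) (hj : 2 ^ s ≤ j) :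
    2 * Wd q s ≤ (2 ^ q) ^ j := by
  have h1 : ∀ s, 3 ≤ s → 2 * s + 7 ≤ 2 * 2 ^ s := by
    intro s hs
    induction s, hs using Nat.le_induction with
    | base => norm_num
    | succ s hs ih => rw [pow_succ]; omega
  have h2 := h1 s hs
  set t := s + 1 + q with ht
  have h3 : t + 1 ≤ 2 ^ t := Nat.lt_two_pow_self
  have h4 : 1 ≤ 2 ^ t := Nat.one_le_two_pow
  have h5 : 2 * Wd q s ≤ 2 ^ (2 * t + 1) := by
    have e : 2 ^ (2 * t + 1) = 2 * (2 ^ t * 2 ^ t) := by ring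
    rw [e]
    unfold Wd
    rw [← ht]
    nlinarith
  refine h5.trans ?_
  rw [← pow_mul]
  apply Nat.pow_le_pow_right (by norm_num)
  obtain ⟨j', rfl⟩ : ∃ j', j = j' + 2 := ⟨j - 2, by omega⟩
  have h6 : 2 * j' ≤ q * j' := Nat.mul_le_mul_right _ hq
  nlinarith

lemma hH_block (hpos : ∀ n, 0 < a n) (hN0 : 2 ≤ N0)
    (h : ∀ n ≥ N0, ((a (n + 1) : ℝ) / (a n : ℝ)) ≥ 1 + 1 / Real.log (n : ℝ))
    {q s j : ℕ} (hq : 2 ≤ q) (hs : 3 ≤ s) (hj : 2 ^ s ≤ j) (hj' : j < 2 ^ (s + 1))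
    (hlo : N0 ≤ (2 ^ q) ^ j) :
    ∀ n, 2 * (2 ^ q) ^ j ≤ n → n < 2 ^ q * (2 ^ q) ^ j →
      a (n + 1 - Wd q s) + a n ≤ a (n + 1) := by
  intro n hn1 hn2
  have hmono := mono_of_ratio hpos hN0 h
  set K := 2 ^ (s + 1 + q) with hK
  have hKpos : 0 < K := by positivity
  have hW := Wd_small hq hs hj
  have hr : ∀ m, N0 ≤ m → m < 2 ^ q * (2 ^ q) ^ j → (K + 1) * a m ≤ K * a (m + 1) := by
    intro m hm1 hm2
    apply ratio_nat hpos hN0 h hm1
    have hm0 : (0 : ℝ) < m := by exact_mod_cast (by omega : 0 < m)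
    have h1 : (m : ℝ) ≤ ((2 ^ q : ℕ) : ℝ) ^ (j + 1) := by
      have : m ≤ (2 ^ q) ^ (j + 1) := by rw [pow_succ, mul_comm]; omega
      exact_mod_cast this
    have h2 : Real.log m ≤ Real.log (((2 ^ q : ℕ) : ℝ) ^ (j + 1)) := Real.log_le_log hm0 h1
    rw [Real.log_pow] at h2
    have h3 : Real.log ((2 ^ q : ℕ) : ℝ) ≤ ((2 ^ q : ℕ) : ℝ) := by
      have := Real.log_le_sub_one_of_pos (show (0 : ℝ) < ((2 ^ q : ℕ) : ℝ) by positivity)
      linarith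
    have h4 : ((j + 1 : ℕ) : ℝ) * ((2 ^ q : ℕ) : ℝ) ≤ K := by
      have : (j + 1) * 2 ^ q ≤ K := by
        rw [hK, pow_add 2 (s + 1) q]
        exact Nat.mul_le_mul_right _ hj'
      exact_mod_cast this
    have h5 : ((j + 1 : ℕ) : ℝ) * Real.log ((2 ^ q : ℕ) : ℝ)
        ≤ ((j + 1 : ℕ) : ℝ) * ((2 ^ q : ℕ) : ℝ) :=
      mul_le_mul_of_nonneg_left h3 (by positivity)
    linarith
  have hWd : Wd q s = (s + 1 + q) * K + 1 := rfl
  have e : n + 1 - Wd q s + (s + 1 + q) * K = n := by omega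
  have h1 := pow_of_ratio hKpos hmono hr (m := n + 1 - Wd q s) (by omega) (s + 1 + q) (by omega)
  rw [e, ← hK] at h1
  have h2 := hr n (by omega) hn2
  have h3 : K * (a (n + 1 - Wd q s) + a n) ≤ K * a (n + 1) := by nlinarith
  exact Nat.le_of_mul_le_mul_left h3 hKpos

lemma Inv.mono_c {Q M lo : ℕ} {c c' : ℝ} (h : Inv a Q M lo c) (hc : c' ≤ c) :
    Inv a Q M lo c' := by
  obtain ⟨E, F, h1, h2, h3, h4, h5⟩ := h
  exact ⟨E, F, h1, h2, h3, (mul_le_mul_of_nonneg_right hc (by positivity)).trans h4, h5⟩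

lemma group_step (hpos : ∀ n, 0 < a n) (hN0 : 2 ≤ N0)
    (h : ∀ n ≥ N0, ((a (n + 1) : ℝ) / (a n : ℝ)) ≥ 1 + 1 / Real.log (n : ℝ))
    {q M s : ℕ} {c : ℝ} (hq : 2 ≤ q) (hs : 3 ≤ s) (hN : N0 ≤ s) (hM : M ≤ s)
    (hI : Inv a (2 ^ q) M ((2 ^ q) ^ 2 ^ s) c) :
    Inv a (2 ^ q) M ((2 ^ q) ^ 2 ^ (s + 1)) (c + 1 / (8 * 2 ^ q * 2 ^ q * (s + q + 2))) := by
  have hmono := mono_of_ratio hpos hN0 h
  have hQ : 4 ≤ 2 ^ q := by
    have : 2 ^ 2 ≤ 2 ^ q := Nat.pow_le_pow_right (by norm_num) hq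
    omega
  have hbig : ∀ j, 2 ^ s ≤ j → s ≤ (2 ^ q) ^ j := by
    intro j hj
    have h1 : s < 2 ^ s := Nat.lt_two_pow_self
    have h2 : j < (2 ^ q) ^ j := Nat.lt_pow_self (by omega)
    omega
  have key : ∀ i : ℕ, i ≤ 2 ^ s → Inv a (2 ^ q) M ((2 ^ q) ^ (2 ^ s + i))
      (c + i * (1 / (4 * ((2 ^ q : ℕ) : ℝ) * (Wd q s : ℝ)))) := by
    intro i
    induction i with
    | zero => intro _; simpa using hI
    | succ i ih =>
      intro hi
      have h1 := ih (by omega)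
      have hj : 2 ^ s ≤ 2 ^ s + i := by omega
      have hj' : 2 ^ s + i < 2 ^ (s + 1) := by rw [pow_succ]; omega
      have hb := hbig _ hj
      have h2 := step (W := Wd q s) hQ (by unfold Wd; omega) (Wd_small hq hs hj) (by nlinarith)
        (fun m n hm hmn => hmono m n (by omega) hmn)
        (hH_block hpos hN0 h hq hs hj hj' (by omega)) h1
      have e1 : (2 ^ q) ^ (2 ^ s + (i + 1)) = 2 ^ q * (2 ^ q) ^ (2 ^ s + i) := by ring
      rw [e1]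
      refine h2.mono_c (le_of_eq ?_)
      push_cast; ring
  have h1 := key (2 ^ s) le_rfl
  have e : 2 ^ s + 2 ^ s = 2 ^ (s + 1) := by ring
  rw [e] at h1
  refine h1.mono_c ?_
  have hW : (Wd q s : ℝ) ≤ 2 * 2 ^ q * (s + q + 2) * 2 ^ s := by
    unfold Wd
    push_cast
    have h1 : (1 : ℝ) ≤ 2 ^ (s + 1 + q) := one_le_pow₀ (by norm_num)
    have e : (2 : ℝ) * 2 ^ q * (s + q + 2) * 2 ^ s = (s + 1 + q + 1) * 2 ^ (s + 1 + q) := by ring
    rw [e]; nlinarith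
  have hWpos : (0 : ℝ) < Wd q s := by unfold Wd; positivity
  have : 1 / (8 * 2 ^ q * 2 ^ q * ((s : ℝ) + q + 2))
      ≤ ((2 ^ s : ℕ) : ℝ) * (1 / (4 * ((2 ^ q : ℕ) : ℝ) * (Wd q s : ℝ))) := by
    push_cast
    rw [mul_one_div, div_le_div_iff₀ (by positivity) (by positivity)]
    have := mul_le_mul_of_nonneg_left hW (show (0 : ℝ) ≤ 4 * 2 ^ q by positivity)
    nlinarith
  linarith

/-- failure of the weak type inequality at levels near one on the integers -/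
theorem weak_fail (hpos : ∀ n, 0 < a n) (hN0 : 2 ≤ N0)
    (h : ∀ n ≥ N0, ((a (n + 1) : ℝ) / (a n : ℝ)) ≥ 1 + 1 / Real.log (n : ℝ))
    (q : ℕ) (hq : 2 ≤ q) (M : ℕ) (C : ℝ) :
    ∃ E F : Finset ℕ, E.Nonempty ∧ C * E.card ≤ F.card ∧
      ∀ x ∈ F, ∃ N, M ≤ N ∧
        2 ^ q * N ≤ 2 ^ q * ((range N).filter (fun n => x + a n ∈ E)).card + 3 * N := by
  set s0 := N0 + M + 3 with hs0
  have key : ∀ k, Inv a (2 ^ q) M ((2 ^ q) ^ 2 ^ (s0 + k))
      (∑ u ∈ range k, 1 / (8 * 2 ^ q * 2 ^ q * ((s0 + u : ℕ) + q + 2 : ℝ))) := by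
    intro k
    induction k with
    | zero => exact ⟨{0}, ∅, by simp, by simpa using hpos _, by simp, by simp, by simp⟩
    | succ k ih =>
      rw [sum_range_succ]
      exact group_step (s := s0 + k) hpos hN0 h hq (by omega) (by omega) (by omega) ih
  have hdiv : Filter.Tendsto
      (fun k => (1 / (8 * 2 ^ q * 2 ^ q * ((s0 : ℝ) + q + 2))) * ∑ u ∈ range k, 1 / ((u : ℝ) + 1))
      Filter.atTop Filter.atTop :=
    Filter.Tendsto.const_mul_atTop (by positivity) Real.tendsto_sum_range_one_div_nat_succ_atTop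
  obtain ⟨k, hk⟩ := (hdiv.eventually_ge_atTop C).exists
  have hle : C ≤ ∑ u ∈ range k, 1 / (8 * 2 ^ q * 2 ^ q * ((s0 + u : ℕ) + q + 2 : ℝ)) := by
    refine hk.trans ?_
    rw [mul_sum]
    apply sum_le_sum
    intro u _
    push_cast
    rw [div_mul_div_comm, one_mul]
    apply one_div_le_one_div_of_le (by positivity)
    have h1 : (0 : ℝ) ≤ s0 + q + 1 := by positivity
    have h2 : (0 : ℝ) ≤ u := by positivity
    have h3 : (s0 : ℝ) + u + q + 2 ≤ (s0 + q + 2) * (u + 1) := by nlinarith [mul_nonneg h1 h2]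
    calc (8 * 2 ^ q * 2 ^ q * ((s0 : ℝ) + u + q + 2))
        ≤ 8 * 2 ^ q * 2 ^ q * ((s0 + q + 2) * (u + 1)) :=
          mul_le_mul_of_nonneg_left h3 (by positivity)
      _ = _ := by ring
  obtain ⟨E, F, h1, _, _, h4, h5⟩ := (key k).mono_c hle
  exact ⟨E, F, h1, h4, h5⟩

end growth

end Pool.Agent.H503Z.Sw
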