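import Mathlib
import Pool.Agent.H503Z.SwGrowth

set_option autoImplicit false

namespace Pool.Agent.H503Z.Sw

open Finset MeasureTheory Filter

noncomputable def nu (ι : Type) : Measure (ι → unitInterval) :=
  Measure.infinitePi (fun _ : ι => (volume : Measure unitInterval))

instance (ι : Type) : IsProbabilityMeasure (nu ι) := by unfold nu; infer_instance

lemma nu_le {ι : Type} (i : ι) (p : unitInterval) :
    nu ι {w | w i ≤ p} = ENNReal.ofReal p := by
  have h1 := (measurePreserving_eval_infinitePi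
      (fun _ : ι => (volume : Measure unitInterval)) i).measure_preimage
      (s := Set.Iic p) measurableSet_Iic.nullMeasurableSet
  rw [← unitInterval.volume_Iic]; exact h1

lemma nu_gt {ι : Type} (s : Finset ι) (p : unitInterval) :
    nu ι {w | ∀ i ∈ s, p < w i} = ENNReal.ofReal ((1 - (p : ℝ)) ^ s.card) := by
  have h1 : {w : ι → unitInterval | ∀ i ∈ s, p < w i} = Set.pi s (fun _ => Set.Ioi p) := by
    ext w; simp
  have h2 := Measure.infinitePi_pi (fun _ : ι => (volume : Measure unitInterval))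
    (s := s) (t := fun _ => Set.Ioi p) (fun _ _ => measurableSet_Ioi)
  rw [h1]
  unfold nu
  rw [h2, prod_const, unitInterval.volume_Ioi, ENNReal.ofReal_pow (by linarith [p.2.2])]

variable {X : Type*} [MeasurableSpace X] {μ : Measure X} [IsProbabilityMeasure μ] {T : X → X}

/-- a finite partition separating the first points of most orbits -/
lemma exists_partition [MeasurableSpace.CountablySeparated X] (hT : MeasurePreserving T μ μ)
    (hap : ∀ k, 1 ≤ k → μ {x | T^[k] x = x} = 0) (D : ℕ) {τ : ℝ} (hτ : 0 < τ) :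
    ∃ (m : ℕ) (φ : X → (Fin m → Bool)) (bad : Set X), Measurable φ ∧ MeasurableSet bad ∧
      μ.real bad ≤ τ ∧ ∀ x, x ∉ bad → ∀ i ≤ D, ∀ j ≤ D, φ (T^[i] x) = φ (T^[j] x) → i = j := by
  obtain ⟨f, hf, hinj⟩ := MeasurableSpace.measurable_injection_nat_bool_of_countablySeparated X
  let φ : (m : ℕ) → X → (Fin m → Bool) := fun m x i => f x i
  have hφ : ∀ m, Measurable (φ m) := fun m =>
    measurable_pi_lambda _ (fun i => (measurable_pi_apply (i : ℕ)).comp hf)
  let b : ℕ × ℕ → ℕ → Set X := fun ij m => {x | φ m (T^[ij.1] x) = φ m (T^[ij.2] x)}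
  have hb : ∀ ij m, MeasurableSet (b ij m) := fun ij m =>
    measurableSet_eq_fun ((hφ m).comp (hT.iterate _).measurable)
      ((hφ m).comp (hT.iterate _).measurable)
  have hanti : ∀ ij, Antitone (b ij) := by
    intro ij m m' hmm x hx
    funext i
    exact congrFun hx ⟨i, lt_of_lt_of_le i.2 hmm⟩
  have hlim : ∀ ij : ℕ × ℕ, ij.1 < ij.2 → Tendsto (fun m => μ.real (b ij m)) atTop (nhds 0) := by
    rintro ⟨i, j⟩ hij
    have h1 := tendsto_measure_iInter_atTop (μ := μ) (fun m => (hb (i, j) m).nullMeasurableSet)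
      (hanti (i, j)) ⟨0, measure_ne_top _ _⟩
    have h2 : μ (⋂ m, b (i, j) m) = 0 := by
      have h3 : μ (T^[i] ⁻¹' {x | T^[j - i] x = x}) = 0 :=
        (hT.iterate i).quasiMeasurePreserving.preimage_null (hap (j - i) (by simp at hij; omega))
      refine measure_mono_null ?_ h3
      intro x hx
      have h4 : T^[i] x = T^[j] x := by
        apply hinj
        funext k
        exact congrFun (Set.mem_iInter.1 hx (k + 1)) ⟨k, Nat.lt_succ_self k⟩
      show T^[j - i] (T^[i] x) = T^[i] x
      rw [← Function.iterate_add_apply, Nat.sub_add_cancel (le_of_lt hij)]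
      exact h4.symm
    rw [h2] at h1
    have h2 := (ENNReal.tendsto_toReal ENNReal.zero_ne_top).comp h1
    simpa [Measure.real, Function.comp_def] using h2
  set P := ((range (D + 1)) ×ˢ (range (D + 1))).filter (fun ij : ℕ × ℕ => ij.1 < ij.2) with hP
  have hsum : Tendsto (fun m => ∑ ij ∈ P, μ.real (b ij m)) atTop (nhds (∑ _ij ∈ P, (0 : ℝ))) :=
    tendsto_finset_sum _ (fun ij hij => hlim ij (mem_filter.1 hij).2)
  rw [sum_const_zero] at hsum
  obtain ⟨m, hm⟩ := (hsum.eventually (gt_mem_nhds hτ)).exists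
  refine ⟨m, φ m, ⋃ ij ∈ P, b ij m, hφ m, Finset.measurableSet_biUnion _ (fun ij _ => hb ij m),
    (measureReal_biUnion_finset_le _ _).trans hm.le, ?_⟩
  intro x hx i hi j hj hij
  by_contra hne
  apply hx
  rcases lt_or_gt_of_ne hne with h | h
  · exact Set.mem_iUnion₂.2 ⟨(i, j), by simp [hP]; omega, hij⟩
  · exact Set.mem_iUnion₂.2 ⟨(j, i), by simp [hP]; omega, hij.symm⟩

/-- random labelling of the partition -/
lemma exists_marker [MeasurableSpace.CountablySeparated X] (hT : MeasurePreserving T μ μ)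
    (hap : ∀ k, 1 ≤ k → μ {x | T^[k] x = x} = 0) (E F : Finset ℕ) (D : ℕ)
    (hF : ∀ y ∈ F, y ≤ D) (p : unitInterval) {τ : ℝ} (hτ : 0 < τ) :
    ∃ B : Set X, MeasurableSet B ∧
      μ.real {x | ∃ e ∈ E, T^[D - e] x ∈ B} + μ.real {x | ∀ y ∈ F, T^[D - y] x ∉ B}
        ≤ E.card * (p : ℝ) + (1 - (p : ℝ)) ^ F.card + τ := by
  classical
  obtain ⟨m, φ, bad, hφ, hbad, hbadle, hsep⟩ := exists_partition hT hap D hτ
  let ι : Type := Fin m → Bool
  have hev : Measurable (fun z : (ι → unitInterval) × ι => z.1 z.2) :=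
    measurable_from_prod_countable_left (fun i => measurable_pi_apply i)
  have hg : ∀ k : ℕ, Measurable (fun z : X × (ι → unitInterval) => z.2 (φ (T^[k] z.1))) := by
    intro k
    exact hev.comp (measurable_snd.prodMk
      (hφ.comp ((hT.iterate k).measurable.comp measurable_fst)))
  set Z1 : Set (X × (ι → unitInterval)) := ⋃ e ∈ E, {z | z.2 (φ (T^[D - e] z.1)) ≤ p} with hZ1
  set Z2 : Set (X × (ι → unitInterval)) := ⋂ y ∈ F, {z | p < z.2 (φ (T^[D - y] z.1))} with hZ2
  have hZ1m : MeasurableSet Z1 :=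
    Finset.measurableSet_biUnion _ (fun e _ => measurableSet_le (hg _) measurable_const)
  have hZ2m : MeasurableSet Z2 :=
    Finset.measurableSet_biInter _ (fun e _ => measurableSet_lt measurable_const (hg _))
  have hp0 : 0 ≤ (p : ℝ) := p.2.1
  have hp1 : 0 ≤ 1 - (p : ℝ) := by linarith [p.2.2]
  have h1 : (μ.prod (nu ι)) Z1 ≤ ENNReal.ofReal (E.card * (p : ℝ)) := by
    rw [Measure.prod_apply hZ1m]
    calc _ ≤ ∫⁻ _x, ENNReal.ofReal (E.card * (p : ℝ)) ∂μ := by
          apply lintegral_mono
          intro x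
          have e : Prod.mk x ⁻¹' Z1 = ⋃ e ∈ E, {w | w (φ (T^[D - e] x)) ≤ p} := by
            ext w; simp [hZ1]
          show nu ι (Prod.mk x ⁻¹' Z1) ≤ _
          rw [e]
          refine (measure_biUnion_finset_le _ _).trans (le_of_eq ?_)
          rw [sum_congr rfl (fun e _ => nu_le _ p), sum_const, nsmul_eq_mul,
            ENNReal.ofReal_mul (by positivity), ENNReal.ofReal_natCast]
      _ = _ := by simp
  have h2 : (μ.prod (nu ι)) Z2 ≤ ENNReal.ofReal ((1 - (p : ℝ)) ^ F.card) + ENNReal.ofReal τ := by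
    rw [Measure.prod_apply hZ2m]
    calc _ ≤ ∫⁻ x, (ENNReal.ofReal ((1 - (p : ℝ)) ^ F.card) + bad.indicator 1 x) ∂μ := by
          apply lintegral_mono
          intro x
          show nu ι (Prod.mk x ⁻¹' Z2) ≤ _
          by_cases hx : x ∈ bad
          · simp only [Set.indicator_of_mem hx, Pi.one_apply]
            exact prob_le_one.trans le_add_self
          · have e : Prod.mk x ⁻¹' Z2
                = {w | ∀ i ∈ F.image (fun y => φ (T^[D - y] x)), p < w i} := by
              ext w; simp [hZ2]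
            rw [e, nu_gt, card_image_of_injOn]
            · exact le_self_add
            · intro y hy y' hy' hyy
              have := hsep x hx _ (Nat.sub_le _ _) _ (Nat.sub_le _ _) hyy
              have h3 := hF y hy
              have h4 := hF y' hy'
              omega
      _ = ENNReal.ofReal ((1 - (p : ℝ)) ^ F.card) + μ bad := by
          rw [lintegral_add_left measurable_const, lintegral_indicator_one hbad]; simp
      _ ≤ _ := by
          gcongr
          rw [← ofReal_measureReal]
          exact ENNReal.ofReal_le_ofReal hbadle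
  obtain ⟨w, hw⟩ := exists_le_lintegral (μ := nu ι)
    (f := fun w => μ ((fun x => (x, w)) ⁻¹' Z1) + μ ((fun x => (x, w)) ⁻¹' Z2))
    ((measurable_measure_prodMk_right hZ1m).add (measurable_measure_prodMk_right hZ2m)).aemeasurable
  rw [lintegral_add_left (measurable_measure_prodMk_right hZ1m), ← Measure.prod_apply_symm hZ1m,
    ← Measure.prod_apply_symm hZ2m] at hw
  refine ⟨{x | w (φ x) ≤ p}, measurableSet_le ((measurable_of_finite w).comp hφ) measurable_const,
    ?_⟩
  have e1 : {x | ∃ e ∈ E, T^[D - e] x ∈ {x | w (φ x) ≤ p}} = (fun x => (x, w)) ⁻¹' Z1 := by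
    ext x; simp [hZ1]
  have e2 : {x | ∀ y ∈ F, T^[D - y] x ∉ {x | w (φ x) ≤ p}} = (fun x => (x, w)) ⁻¹' Z2 := by
    ext x; simp [hZ2]
  rw [e1, e2, Measure.real, Measure.real,
    ← ENNReal.toReal_add (measure_ne_top _ _) (measure_ne_top _ _)]
  apply ENNReal.toReal_le_of_le_ofReal (by positivity)
  refine hw.trans ((add_le_add h1 h2).trans (le_of_eq ?_))
  rw [add_assoc, ENNReal.ofReal_add (by positivity) (by positivity),
    ENNReal.ofReal_add (by positivity) hτ.le]

end Pool.Agent.H503Z.Sw
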