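import Mathlib
import Pool.Agent.H503Z.SwLocal

set_option autoImplicit false

namespace Pool.Agent.H503Z.Sw

open Finset MeasureTheory Filter

variable {X : Type*} [MeasurableSpace X] {μ : Measure X} [IsProbabilityMeasure μ] {T : X → X}

/-- ergodic average of the indicator of `E` -/
noncomputable def av (a : ℕ → ℕ) (T : X → X) (E : Set X) (N : ℕ) (x : X) : ℝ :=
  (1 / (N : ℝ)) * ∑ n ∈ Icc 1 N, E.indicator (fun _ => (1 : ℝ)) (T^[a n] x)

/-- the combinatorial input -/
def Hyp (a : ℕ → ℕ) : Prop :=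
  ∀ q : ℕ, 2 ≤ q → ∀ (M : ℕ) (C : ℝ), ∃ E F : Finset ℕ, E.Nonempty ∧ C * E.card ≤ F.card ∧
      ∀ x ∈ F, ∃ N, M ≤ N ∧
        2 ^ q * N ≤ 2 ^ q * ((range N).filter (fun n => x + a n ∈ E)).card + 3 * N

lemma local_sweep [MeasurableSpace.CountablySeparated X] (hT : MeasurePreserving T μ μ)
    (hap : ∀ k, 1 ≤ k → μ {x | T^[k] x = x} = 0) {a : ℕ → ℕ} (ha : Hyp a) (η : ℝ) (hη : 0 < η)
    (M : ℕ) :
    ∃ (E G : Set X) (M' : ℕ), MeasurableSet E ∧ μ.real E ≤ η ∧ μ.real G ≤ η ∧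
      ∀ x, x ∉ G → ∃ N, M ≤ N ∧ N ≤ M' ∧ 1 - η ≤ av a T E N x := by
  classical
  obtain ⟨q0, hq0⟩ := pow_unbounded_of_one_lt (6 / η) (show (1 : ℝ) < 2 by norm_num)
  set q := q0 + 2 with hq
  have hq1 : 6 / η ≤ (2 : ℝ) ^ q :=
    hq0.le.trans (pow_le_pow_right₀ (by norm_num) (by omega))
  obtain ⟨M0, hM0⟩ := exists_nat_gt (2 / η)
  set l : ℝ := 3 / η with hl
  have hlpos : 0 < l := by positivity
  obtain ⟨E0, F0, hE0, hC, hF0⟩ := ha q (by omega) (max M M0) (l + l * l)
  choose! Nf hNf1 hNf2 using hF0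
  have hE1 : (1 : ℝ) ≤ E0.card := by exact_mod_cast hE0.card_pos
  have hFl : l + l * l ≤ F0.card := le_trans (by nlinarith [mul_pos hlpos hlpos]) hC
  have hFpos : (0 : ℝ) < F0.card := lt_of_lt_of_le (by positivity) hFl
  let p : unitInterval := ⟨l / F0.card, by positivity, by
    rw [div_le_one hFpos]; nlinarith [mul_pos hlpos hlpos]⟩
  have hp : (p : ℝ) = l / F0.card := rfl
  set D := (E0 ∪ F0).sup id with hD
  have hDE : ∀ e ∈ E0, e ≤ D := fun e he => le_sup (f := id) (mem_union_left _ he)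
  have hDF : ∀ e ∈ F0, e ≤ D := fun e he => le_sup (f := id) (mem_union_right _ he)
  obtain ⟨B, hB, hle⟩ := exists_marker hT hap E0 F0 D hDF p (τ := η / 3) (by positivity)
  have h1 : E0.card * (p : ℝ) ≤ η / 3 := by
    rw [hp, ← mul_div_assoc, div_le_iff₀ hFpos]
    have e : η / 3 * (l * l) = l := by rw [hl]; field_simp
    have h2 : l * l * E0.card ≤ F0.card := le_trans (by nlinarith) hC
    have h3 := mul_le_mul_of_nonneg_left h2 (show 0 ≤ η / 3 by positivity)
    calc E0.card * l = η / 3 * (l * l) * E0.card := by rw [e]; ring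
      _ = η / 3 * (l * l * E0.card) := by ring
      _ ≤ _ := h3
  have h2 : (1 - (p : ℝ)) ^ F0.card ≤ η / 3 := by
    have h3 : 1 - (p : ℝ) ≤ Real.exp (-(p : ℝ)) := by linarith [Real.add_one_le_exp (-(p : ℝ))]
    have h4 := pow_le_pow_left₀ (by linarith [p.2.2]) h3 F0.card
    rw [← Real.exp_nat_mul] at h4
    have e : (F0.card : ℝ) * (-(p : ℝ)) = -l := by rw [hp]; field_simp
    rw [e, Real.exp_neg] at h4
    refine h4.trans ?_
    have e2 : η / 3 = l⁻¹ := by rw [hl]; field_simp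
    rw [e2]
    apply inv_anti₀ hlpos
    linarith [Real.add_one_le_exp l]
  have hn1 : 0 ≤ μ.real {x | ∃ e ∈ E0, T^[D - e] x ∈ B} := measureReal_nonneg
  have hn2 : 0 ≤ μ.real {x | ∀ y ∈ F0, T^[D - y] x ∉ B} := measureReal_nonneg
  refine ⟨{x | ∃ e ∈ E0, T^[D - e] x ∈ B}, {x | ∀ y ∈ F0, T^[D - y] x ∉ B}, F0.sup Nf, ?_,
    by linarith, by linarith, ?_⟩
  · have : {x | ∃ e ∈ E0, T^[D - e] x ∈ B} = ⋃ e ∈ E0, T^[D - e] ⁻¹' B := by ext x; simp
    rw [this]
    exact Finset.measurableSet_biUnion _ (fun e _ => (hT.iterate _).measurable hB)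
  · intro x hx
    have hx' : ∃ y ∈ F0, T^[D - y] x ∈ B := by
      by_contra hc
      exact hx (fun y hy hyB => hc ⟨y, hy, hyB⟩)
    obtain ⟨y, hy, hyB⟩ := hx'
    have hN1 := hNf1 y hy
    have hN2 := hNf2 y hy
    refine ⟨Nf y, (le_max_left _ _).trans hN1, le_sup (f := Nf) hy, ?_⟩
    set N := Nf y with hN
    have hNM : (M0 : ℝ) ≤ N := by exact_mod_cast (le_max_right _ _).trans hN1
    have hNgt : 2 / η < N := hM0.trans_le hNM
    have hNpos : (0 : ℝ) < N := lt_trans (by positivity) hNgt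
    have h3 : (((Icc 1 N).filter (fun n => y + a n ∈ E0)).card : ℝ) ≤
        ∑ n ∈ Icc 1 N, Set.indicator {x | ∃ e ∈ E0, T^[D - e] x ∈ B} (fun _ => (1 : ℝ))
          (T^[a n] x) := by
      rw [card_filter]
      push_cast
      apply sum_le_sum
      intro n _
      split_ifs with hn
      · have : T^[a n] x ∈ {x | ∃ e ∈ E0, T^[D - e] x ∈ B} := by
          refine ⟨y + a n, hn, ?_⟩
          have := hDE _ hn
          rw [← Function.iterate_add_apply, show D - (y + a n) + a n = D - y by omega]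
          exact hyB
        rw [Set.indicator_of_mem this]
      · exact Set.indicator_nonneg (fun _ _ => zero_le_one) _
    have h4 : ((range N).filter (fun n => y + a n ∈ E0)).card ≤
        ((Icc 1 N).filter (fun n => y + a n ∈ E0)).card + 1 := by
      refine le_trans (card_le_card ?_) (card_insert_le 0 _)
      intro n hn
      rw [mem_filter, mem_range] at hn
      rw [mem_insert, mem_filter, mem_Icc]
      rcases Nat.eq_zero_or_pos n with h0 | h0
      · exact Or.inl h0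
      · exact Or.inr ⟨⟨h0, hn.1.le⟩, hn.2⟩
    have h5 : (2 : ℝ) ^ q * N ≤
        2 ^ q * ((((Icc 1 N).filter (fun n => y + a n ∈ E0)).card : ℝ) + 1) + 3 * N := by
      have := hN2.trans (Nat.add_le_add_right (Nat.mul_le_mul_left (2 ^ q) h4) _)
      exact_mod_cast this
    have hQ : (0 : ℝ) < 2 ^ q := by positivity
    have h6 : 6 ≤ η * 2 ^ q := by rw [div_le_iff₀ hη] at hq1; linarith
    have h7 : 2 < η * N := by rw [div_lt_iff₀ hη] at hNgt; linarith
    unfold av
    rw [one_div_mul_eq_div, le_div_iff₀ hNpos]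
    refine le_trans ?_ h3
    set c : ℝ := (((Icc 1 N).filter (fun n => y + a n ∈ E0)).card : ℝ)
    have h8 : 2 ^ q * ((1 - η) * N) ≤ 2 ^ q * c := by
      have a1 := mul_le_mul_of_nonneg_right h6 hNpos.le
      have a2 := mul_le_mul_of_nonneg_left h7.le hQ.le
      nlinarith
    exact le_of_mul_le_mul_left h8 hQ

omit [MeasurableSpace X] in
lemma av_nonneg (a : ℕ → ℕ) (E : Set X) (N : ℕ) (x : X) : 0 ≤ av a T E N x :=
  mul_nonneg (by positivity)
    (sum_nonneg (fun _ _ => Set.indicator_nonneg (fun _ _ => zero_le_one) _))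

omit [MeasurableSpace X] in
lemma av_add_le (a : ℕ → ℕ) (E E' : Set X) (N : ℕ) (x : X)
    (h : ∀ n ∈ Icc 1 N, T^[a n] x ∈ E → T^[a n] x ∉ E') :
    av a T E N x + av a T E' N x ≤ 1 := by
  unfold av
  rw [← mul_add, ← sum_add_distrib]
  have h1 : ∑ n ∈ Icc 1 N, (E.indicator (fun _ => (1 : ℝ)) (T^[a n] x)
      + E'.indicator (fun _ => (1 : ℝ)) (T^[a n] x)) ≤ ∑ _n ∈ Icc 1 N, (1 : ℝ) := by
    apply sum_le_sum
    intro n hn
    by_cases h1 : T^[a n] x ∈ E
    · rw [Set.indicator_of_mem h1, Set.indicator_of_notMem (h n hn h1)]; simp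
    · rw [Set.indicator_of_notMem h1, zero_add]
      exact Set.indicator_le_self' (fun _ _ => zero_le_one) _
  rw [sum_const, Nat.card_Icc, nsmul_eq_mul, mul_one] at h1
  rcases Nat.eq_zero_or_pos N with rfl | hN
  · simp
  · have hN' : (0 : ℝ) < N := by exact_mod_cast hN
    rw [one_div_mul_eq_div, div_le_one hN']
    simpa using h1

omit [MeasurableSpace X] in
lemma av_le_one (a : ℕ → ℕ) (E : Set X) (N : ℕ) (x : X) : av a T E N x ≤ 1 := by
  have h1 := av_add_le (T := T) a E ∅ N x (fun _ _ _ h => h)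
  have h2 := av_nonneg (T := T) a ∅ N x
  linarith

omit [MeasurableSpace X] in
lemma av_mono (a : ℕ → ℕ) (E E' : Set X) (N : ℕ) (x : X)
    (h : ∀ n ∈ Icc 1 N, T^[a n] x ∈ E → T^[a n] x ∈ E') :
    av a T E N x ≤ av a T E' N x := by
  unfold av
  refine mul_le_mul_of_nonneg_left (sum_le_sum (fun n hn => ?_)) (by positivity)
  by_cases h1 : T^[a n] x ∈ E
  · rw [Set.indicator_of_mem h1, Set.indicator_of_mem (h n hn h1)]
  · rw [Set.indicator_of_notMem h1]
    exact Set.indicator_nonneg (fun _ _ => zero_le_one) _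

lemma tsum_small {s : ℕ → Set X} {ε : ℝ} (hε : 0 < ε) (h : ∀ k, μ.real (s k) ≤ ε / 2 / 2 ^ k) :
    ∑' k, μ (s k) ≤ ENNReal.ofReal ε := by
  have h1 : ∑' k, μ (s k) ≤ ∑' k, ENNReal.ofReal (ε / 2 / 2 ^ k) := by
    refine ENNReal.tsum_le_tsum (fun k => ?_)
    rw [← ofReal_measureReal]
    exact ENNReal.ofReal_le_ofReal (h k)
  rwa [← ENNReal.ofReal_tsum_of_nonneg (fun k => by positivity) (summable_geometric_two' _),
    tsum_geometric_two'] at h1

theorem sweep [MeasurableSpace.CountablySeparated X] (hT : MeasurePreserving T μ μ)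
    (hap : ∀ k, 1 ≤ k → μ {x | T^[k] x = x} = 0) {a : ℕ → ℕ} (ha : Hyp a) (ε : ℝ) (hε : 0 < ε) :
    ∃ E : Set X, MeasurableSet E ∧ μ E < ENNReal.ofReal ε ∧
      ∀ᵐ x ∂μ, limsup (fun N => av a T E N x) atTop = 1 ∧
        liminf (fun N => av a T E N x) atTop = 0 := by
  have hloc : ∀ k M : ℕ, ∃ (E G : Set X) (M' : ℕ), MeasurableSet E ∧
      μ.real E ≤ ε / 2 / 2 / 2 ^ k / (M + 1) ∧ μ.real G ≤ ε / 2 / 2 / 2 ^ k / (M + 1) ∧
      ∀ x, x ∉ G → ∃ N, M ≤ N ∧ N ≤ M' ∧ 1 - ε / 2 / 2 / 2 ^ k / (M + 1) ≤ av a T E N x :=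
    fun k M => local_sweep hT hap ha _ (by positivity) M
  choose E0 G0 M' hEm hE hG hx using hloc
  let M : ℕ → ℕ := fun k => Nat.rec 0 (fun k m => max (M' k m) (m + 1)) k
  have hMs : ∀ k, M (k + 1) = max (M' k (M k)) (M k + 1) := fun k => rfl
  have hMmono : StrictMono M := strictMono_nat_of_lt_succ (fun k => by rw [hMs]; omega)
  have hMk : ∀ k, k ≤ M k := fun k => hMmono.id_le k
  set E : ℕ → Set X := fun k => E0 k (M k) with hEdef
  set G : ℕ → Set X := fun k => G0 k (M k) with hGdef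
  have hdiv : ∀ k : ℕ, ε / 2 / 2 / 2 ^ k / ((Nat.cast (M k) : ℝ) + 1) ≤ ε / 2 / 2 / 2 ^ k := by
    intro k
    have h0 : (0 : ℝ) ≤ (Nat.cast (M k) : ℝ) := Nat.cast_nonneg _
    exact div_le_self (by positivity) (by linarith)
  set H : ℕ → Set X := fun k => ⋃ n ∈ range (M k + 1), T^[a n] ⁻¹' E k with hH
  have hHle : ∀ k, μ.real (H k) ≤ ε / 2 / 2 / 2 ^ k := by
    intro k
    refine (measureReal_biUnion_finset_le _ _).trans ?_
    have : ∀ n ∈ range (M k + 1), μ.real (T^[a n] ⁻¹' E k) = μ.real (E k) := fun n _ =>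
      (hT.iterate (a n)).measureReal_preimage (hEm k (M k)).nullMeasurableSet
    rw [sum_congr rfl this, sum_const, card_range, nsmul_eq_mul]
    have h1 := hE k (M k)
    rw [le_div_iff₀ (by positivity)] at h1
    push_cast
    linarith
  have hε2 : 0 < ε / 2 := by positivity
  have hS1 := tsum_small hε2 hHle
  have hS2 := tsum_small (s := G) hε2 (fun k => (hG k (M k)).trans (hdiv k))
  have hS3 := tsum_small (s := E) hε2 (fun k => (hE k (M k)).trans (hdiv k))
  set Efin : Set X := ⋃ k, (E (2 * k) \ ⋃ j, ⋃ (_ : 2 * k < j), E j) with hEfin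
  refine ⟨Efin, ?_, ?_, ?_⟩
  · refine MeasurableSet.iUnion (fun k => (hEm _ _).diff ?_)
    exact MeasurableSet.iUnion (fun j => MeasurableSet.iUnion (fun _ => hEm _ _))
  · have : Efin ⊆ ⋃ k, E k := by
      intro x hx
      obtain ⟨k, hk⟩ := Set.mem_iUnion.1 hx
      exact Set.mem_iUnion.2 ⟨2 * k, hk.1⟩
    refine lt_of_le_of_lt ((measure_mono this).trans ((measure_iUnion_le _).trans hS3)) ?_
    rw [ENNReal.ofReal_lt_ofReal_iff hε]; linarith
  · filter_upwards [ae_eventually_notMem (ne_top_of_le_ne_top ENNReal.ofReal_ne_top hS1),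
      ae_eventually_notMem (ne_top_of_le_ne_top ENNReal.ofReal_ne_top hS2)] with x hx1 hx2
    obtain ⟨k0, hk0⟩ := eventually_atTop.1 (hx1.and hx2)
    have key : ∀ k, k0 ≤ k → ∃ N, k ≤ N ∧ 1 - ε / 2 / 2 / 2 ^ k ≤ av a T (E k) N x ∧
        ∀ n ∈ Icc 1 N, ∀ j, k < j → T^[a n] x ∉ E j := by
      intro k hk
      obtain ⟨N, hN1, hN2, hN3⟩ := hx k (M k) x (hk0 k hk).2
      refine ⟨N, (hMk k).trans hN1, by linarith [hdiv k], ?_⟩
      intro n hn j hj hmem
      apply (hk0 j (by omega)).1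
      refine Set.mem_iUnion₂.2 ⟨n, mem_range.2 ?_, hmem⟩
      have h1 : M (k + 1) ≤ M j := hMmono.monotone hj
      have h2 := hMs k
      have h3 := (mem_Icc.1 hn).2
      omega
    have hsmall : ∀ δ : ℝ, 0 < δ → ∃ k1 : ℕ, ∀ k, k1 ≤ k → ε / 2 / 2 / 2 ^ k ≤ δ := by
      intro δ hδ
      obtain ⟨k1, hk1⟩ := pow_unbounded_of_one_lt (ε / 2 / 2 / δ) (show (1 : ℝ) < 2 by norm_num)
      refine ⟨k1, fun k hk => ?_⟩
      have h1 : (2 : ℝ) ^ k1 ≤ 2 ^ k := pow_le_pow_right₀ (by norm_num) hk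
      rw [div_lt_iff₀ hδ] at hk1
      rw [div_le_iff₀ (by positivity)]
      nlinarith
    have hbdd : IsBoundedUnder (· ≤ ·) atTop (fun N => av a T Efin N x) :=
      isBoundedUnder_of ⟨1, fun N => av_le_one a Efin N x⟩
    have hbdd' : IsBoundedUnder (· ≥ ·) atTop (fun N => av a T Efin N x) :=
      isBoundedUnder_of ⟨0, fun N => av_nonneg a Efin N x⟩
    constructor
    · apply le_antisymm
      · exact limsup_le_of_le hbdd'.isCoboundedUnder_le
          (Eventually.of_forall (fun N => av_le_one a Efin N x))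
      · apply le_of_forall_pos_le_add
        intro δ hδ
        obtain ⟨k1, hk1⟩ := hsmall δ hδ
        have : 1 - δ ≤ limsup (fun N => av a T Efin N x) atTop := by
          apply le_limsup_of_frequently_le _ hbdd
          rw [frequently_atTop]
          intro b
          obtain ⟨N, hN1, hN2, hN3⟩ := key (2 * (k0 + k1 + b)) (by omega)
          refine ⟨N, by omega, ?_⟩
          have h1 := hk1 (2 * (k0 + k1 + b)) (by omega)
          have h2 := av_mono (T := T) a (E (2 * (k0 + k1 + b))) Efin N x (by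
            intro n hn hmem
            refine Set.mem_iUnion.2 ⟨k0 + k1 + b, hmem, fun hc => ?_⟩
            obtain ⟨j, hj, hj'⟩ := Set.mem_iUnion₂.1 hc
            exact hN3 n hn j hj hj')
          linarith
        linarith
    · apply le_antisymm
      · apply le_of_forall_pos_le_add
        intro δ hδ
        obtain ⟨k1, hk1⟩ := hsmall δ hδ
        rw [zero_add]
        apply liminf_le_of_frequently_le _ hbdd'
        rw [frequently_atTop]
        intro b
        obtain ⟨N, hN1, hN2, hN3⟩ := key (2 * (k0 + k1 + b) + 1) (by omega)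
        refine ⟨N, by omega, ?_⟩
        have h1 := hk1 (2 * (k0 + k1 + b) + 1) (by omega)
        have h2 := av_add_le (T := T) a (E (2 * (k0 + k1 + b) + 1)) Efin N x (by
          intro n hn hmem hc
          obtain ⟨i, hi1, hi2⟩ := Set.mem_iUnion.1 hc
          rcases lt_or_gt_of_ne (show 2 * i ≠ 2 * (k0 + k1 + b) + 1 by omega) with h | h
          · exact hi2 (Set.mem_iUnion₂.2 ⟨_, h, hmem⟩)
          · exact hN3 n hn _ h hi1)
        linarith
      · exact le_liminf_of_le hbdd.isCoboundedUnder_ge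
          (Eventually.of_forall (fun N => av_nonneg a Efin N x))

end Pool.Agent.H503Z.Sw
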